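import Pool.Agent.MP_a23355_nt.Mg.SysC
import Pool.Agent.Lib.QSeries.Lam

-- part MP_a23355_nt.GrpB
section

section

/-!
Series modulo `2`.
-/

namespace Subb

open PowerSeries Pool.Agent.Lib.QSeries

lemma char2_hS (R : Type*) [CommRing R] : hS R = Lam fun _ _ => (1 : R) := by
  ext n
  rw [hS, coeff_mk, coeff_Lam, ArithmeticFunction.sigma_one_apply, Nat.cast_sum,
    Nat.sum_divisorsAntidiagonal fun d _ => (d : R) * 1]
  simp only [mul_one]

/-- The logarithmic derivative of Euler's product. -/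
theorem isEx_fS (R : Type*) [CommRing R] : IsEx (fS R) (-hS R) := by
  refine IsEx.of_approx fun n => ?_
  have h1 : ∀ᶠ s : Finset ℕ in Filter.atTop, ∀ i ∈ Finset.range n,
      coeff i (∏ k ∈ s, (1 - X ^ (k + 1) : R⟦X⟧)) = coeff i (pentagonalSeries R) :=
    (Filter.eventually_all_finset _).2 fun i _ =>
      coeff_prod_one_sub_X_pow_eventually_eq R i
  obtain ⟨m, hm, hnm⟩ :=
    ((Filter.tendsto_finset_range.eventually h1).and (Filter.eventually_ge_atTop n)).exists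
  refine ⟨_, _, isEx_prod (1 : R) (N := 1) (a := 1) one_pos m, ?_, ?_⟩
  · rw [pi_eq_iff]
    intro i hi
    rw [fS, ← hm i (Finset.mem_range.2 hi)]
    simp only [map_one, one_mul, add_comm]
  · refine pi_mono hnm ?_
    rw [map_neg, map_neg, ← pi_Lam_prod (1 : R) one_pos le_rfl, char2_hS]
    simp only [Nat.mod_one, if_true, one_pow]

/-- Frobenius on series with coefficients fixed by Frobenius. -/
theorem ex_two_zmod (φ : (ZMod 2)⟦X⟧) : ex 2 φ = φ ^ 2 := by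
  have h := MvPowerSeries.map_frobenius_expand (σ := Unit) (R := ZMod 2) 2 two_ne_zero (f := φ)
  rw [ZMod.frobenius_zmod, MvPowerSeries.map_id] at h
  rw [ex_eq two_ne_zero]
  exact h

theorem ex_two_pow_zmod (k : ℕ) (φ : (ZMod 2)⟦X⟧) : ex (2 ^ k) φ = φ ^ 2 ^ k := by
  induction k with
  | zero => rw [pow_zero, ex_one, pow_one]
  | succ k ih =>
    rw [pow_succ', ← ex_ex two_ne_zero (pow_ne_zero k two_ne_zero), ih, ex_two_zmod, ← pow_mul,
      mul_comm]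

lemma char2_coeff {R : Type*} [CommRing R] (χ : R⟦X⟧) (n : ℕ) :
    coeff n (X * ex 8 χ) = if n % 8 = 1 then coeff (n / 8) χ else 0 := by
  cases n with
  | zero => simp
  | succ n =>
    rw [coeff_succ_X_mul, coeff_ex (by norm_num)]
    by_cases h : 8 ∣ n
    · rw [if_pos h, if_pos (by omega), show (n + 1) / 8 = n / 8 by omega]
    · rw [if_neg h, if_neg (by omega)]

lemma char2_yS : yS (ZMod 2) = X * ex 8 (fS (ZMod 2) ^ 3) := by
  rw [yS, show (8 : ℕ) = 2 ^ 3 from rfl, ex_two_pow_zmod, ← pow_mul]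
  rfl

lemma char2_yS_mul :
    yS (ZMod 2) * hS (ZMod 2) ^ 8 = X * ex 8 (theta (fS (ZMod 2) ^ 3)) := by
  have h2 : (2 : (ZMod 2)⟦X⟧) = 0 := by
    rw [← map_ofNat (C : ZMod 2 →+* (ZMod 2)⟦X⟧) 2, show (2 : ZMod 2) = 0 from rfl, map_zero]
  have h : theta (fS (ZMod 2) ^ 3) = fS (ZMod 2) ^ 3 * hS (ZMod 2) := by
    rw [((isEx_fS (ZMod 2)).pow 3).2]
    push_cast
    linear_combination (-2 * hS (ZMod 2) * fS (ZMod 2) ^ 3) * h2
  rw [h, map_mul, char2_yS, mul_assoc, show (8 : ℕ) = 2 ^ 3 from rfl,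
    ex_two_pow_zmod 3 (hS (ZMod 2))]

lemma char2_coeff_yS (R : Type*) [CommRing R] (n : ℕ) :
    coeff n (yS R) = ((coeff n (yS ℤ) : ℤ) : R) := by
  rw [← map_yS (Int.castRingHom R), coeff_map, eq_intCast]

lemma char2_even {n : ℕ} (h : n % 8 ≠ 1) : 2 ∣ coeff n (yS ℤ) := by
  have h1 := char2_coeff_yS (ZMod 2) n
  rw [char2_yS, char2_coeff, if_neg h] at h1
  exact (ZMod.intCast_zmod_eq_zero_iff_dvd _ 2).1 h1.symm

variable {F : Type} [Field F] [IsAlgClosed F] [CharP F 2]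

omit [IsAlgClosed F] in
lemma char2_coeff_mul (n : ℕ) : coeff n (yS F * hS F ^ 8) =
    if n % 8 = 1 then ((n / 8 : ℕ) : F) * ((coeff n (yS ℤ) : ℤ) : F) else 0 := by
  have h1 := char2_coeff_yS (ZMod 2) n
  rw [← map_yS (ZMod.castHom (dvd_refl 2) F), ← map_hS (ZMod.castHom (dvd_refl 2) F), ← map_pow,
    ← map_mul, char2_yS_mul, coeff_map, char2_coeff]
  rw [char2_yS, char2_coeff] at h1
  split_ifs with h
  · rw [if_pos h] at h1
    rw [coeff_theta, h1, map_mul, map_natCast, map_intCast]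
  · rw [map_zero]

/-- The twist of `yS` by a primitive sixteenth root of unity, modulo `4`. -/
theorem exists_twist {O : Type} [CommRing O] (π : O →+* F) (w : Oˣ) (hw : (w : O) ^ 8 = -1) :
    ∃ φ : O⟦X⟧, C ((w⁻¹ : Oˣ) : O) * rescale (w : O) (yS O) - yS O = C 2 * φ ∧
      PowerSeries.map π φ = yS F * hS F ^ 8 := by
  have h2 : (2 : F) = 0 := CharTwo.two_eq_zero
  have hπ : π w = 1 := by
    have h8 : π w ^ 2 ^ 3 = 1 := by
      rw [show 2 ^ 3 = 8 from rfl, ← map_pow, hw, map_neg, map_one, CharTwo.neg_eq]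
    have h0 : (π w - 1) ^ 2 ^ 3 = 0 := by rw [sub_pow_char_pow, h8, one_pow, sub_self]
    exact sub_eq_zero.1 (pow_eq_zero_iff (by norm_num) |>.1 h0)
  have hπ' : π ((w⁻¹ : Oˣ) : O) = 1 := by
    have := congrArg π w.inv_mul
    rwa [map_mul, hπ, mul_one, map_one] at this
  refine ⟨PowerSeries.mk fun n => if n % 8 = 1 then
    -((coeff n (yS ℤ) : ℤ) : O) * ((n / 8 % 2 : ℕ) : O)
    else ((coeff n (yS ℤ) / 2 : ℤ) : O) * (((w⁻¹ : Oˣ) : O) * (w : O) ^ n - 1), ?_, ?_⟩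
  · ext n
    rw [map_sub, coeff_C_mul, coeff_C_mul, coeff_rescale, coeff_mk, char2_coeff_yS O]
    split_ifs with h
    · have h1 : ((w⁻¹ : Oˣ) : O) * (w : O) ^ n = (-1) ^ (n / 8) := by
        conv_lhs => rw [show n = 8 * (n / 8) + 1 by omega, pow_succ', ← mul_assoc, w.inv_mul,
          one_mul, pow_mul, hw]
      rw [← mul_assoc, h1]
      rcases Nat.even_or_odd (n / 8) with he | ho
      · rw [he.neg_one_pow, Nat.even_iff.1 he]
        push_cast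
        ring
      · rw [ho.neg_one_pow, Nat.odd_iff.1 ho]
        push_cast
        ring
    · obtain ⟨k, hk⟩ := char2_even h
      rw [hk, Int.mul_ediv_cancel_left _ two_ne_zero]
      push_cast
      ring
  · ext n
    rw [coeff_map, coeff_mk, char2_coeff_mul]
    split_ifs with h
    · rw [map_mul, map_neg, map_intCast, map_natCast, CharTwo.neg_eq, mul_comm,
        ← CharP.cast_eq_mod F 2]
    · rw [map_mul, map_sub, map_mul, map_pow, hπ, hπ', map_one, one_pow, one_mul, sub_self, mul_zero]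

end Subb

end

section

/-!
Two series that are not rational functions of `Δ` modulo `2`.
-/

namespace Subb

open PowerSeries Pool.Agent.Lib.QSeries

section Aux

variable {K : Type} [Field K]

theorem notrt_const (y : K⟦X⟧) (q : Polynomial K) :
    constantCoeff (Polynomial.aeval y q) = q.eval (constantCoeff y) := by
  induction q using Polynomial.induction_on' with
  | add p q hp hq => rw [map_add, map_add, hp, hq, Polynomial.eval_add]
  | monomial n r =>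
    rw [Polynomial.aeval_monomial, Polynomial.eval_monomial, map_mul, map_pow]
    simp

theorem notrt_yS_const : constantCoeff (yS K) = 0 := by
  rw [yS, map_mul, constantCoeff_X, zero_mul]

theorem notrt_yS_ne : yS K ≠ 0 := by
  refine mul_ne_zero X_ne_zero (pow_ne_zero _ fun h => ?_)
  have h1 : constantCoeff (fS K) = 1 := constantCoeff_fS
  rw [h, map_zero] at h1
  exact zero_ne_one h1

theorem notrt_zero {a : Polynomial K} (h : Polynomial.aeval (yS K) a = 0) : a = 0 := by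
  by_contra ha
  obtain ⟨q, hq, hd⟩ := Polynomial.exists_eq_pow_rootMultiplicity_mul_and_not_dvd a ha 0
  rw [hq, map_mul, map_pow, map_zero, sub_zero, Polynomial.aeval_X] at h
  have h1 := (mul_eq_zero.mp h).resolve_left (pow_ne_zero _ notrt_yS_ne)
  have h2 := notrt_const (yS K) q
  rw [h1, map_zero, notrt_yS_const] at h2
  exact hd (Polynomial.dvd_iff_isRoot.mpr h2.symm)

theorem notrt_inj {a b : Polynomial K}
    (h : Polynomial.aeval (yS K) a = Polynomial.aeval (yS K) b) : a = b :=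
  sub_eq_zero.mp (notrt_zero (by rw [map_sub, h, sub_self]))

theorem notrt_theta_aeval (y : K⟦X⟧) (a : Polynomial K) :
    theta (Polynomial.aeval y a) = theta y * Polynomial.aeval y a.derivative := by
  rw [theta, theta, Derivation.map_aeval, smul_eq_mul]
  ring

theorem notrt_deg_h {A B : Polynomial K} (hB : B ≠ 0)
    (e : A * (A + B) = Polynomial.X * B ^ 2) : False := by
  have h1 : (Polynomial.X * B ^ 2).natDegree = 2 * B.natDegree + 1 := by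
    rw [Polynomial.natDegree_X_mul (pow_ne_zero _ hB), Polynomial.natDegree_pow]
  have h0 : A * (A + B) ≠ 0 := e ▸ mul_ne_zero Polynomial.X_ne_zero (pow_ne_zero _ hB)
  rw [← e, Polynomial.natDegree_mul (left_ne_zero_of_mul h0) (right_ne_zero_of_mul h0)] at h1
  rcases lt_or_ge B.natDegree A.natDegree with h | h
  · rw [Polynomial.natDegree_add_eq_left_of_natDegree_lt h] at h1
    omega
  · have h2 := Polynomial.natDegree_add_le A B
    rw [max_eq_right h] at h2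
    omega

theorem notrt_deg_ex {a b T : Polynomial K} {l : ℕ} (hl : 2 < l) (hc : IsCoprime a b)
    (h0 : a.eval 0 = b.eval 0) (hT : T = Polynomial.X * (a.derivative * b - a * b.derivative))
    (e : b ^ 8 * (T ^ 2 + T * (a * b)) =
      (a * b) ^ 2 * (Polynomial.X ^ l * a ^ 8 + Polynomial.X * b ^ 8)) : False := by
  have hX : ¬Polynomial.X ∣ b := fun h => by
    have h1 : Polynomial.X ∣ a := by
      rw [Polynomial.X_dvd_iff, Polynomial.coeff_zero_eq_eval_zero] at h ⊢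
      rw [h0, h]
    exact Polynomial.not_isUnit_X (hc.isUnit_of_dvd' h1 h)
  have hb : b ≠ 0 := fun h => hX (h ▸ dvd_zero _)
  have ha : a ≠ 0 := fun h => hX (by
    rw [Polynomial.X_dvd_iff, Polynomial.coeff_zero_eq_eval_zero, ← h0, h, Polynomial.eval_zero])
  have e1 : Polynomial.X ^ l * a ^ 10 =
      b ^ 6 * (T ^ 2 + T * (a * b)) - a ^ 2 * (Polynomial.X * b ^ 8) :=
    mul_left_cancel₀ (pow_ne_zero 2 hb) (by linear_combination -e)
  have hcX : IsCoprime b Polynomial.X :=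
    (Polynomial.irreducible_X.coprime_iff_not_dvd.mpr hX).symm
  have hu : IsUnit b := (hcX.pow_right.mul_right hc.symm.pow_right).isUnit_of_dvd
    ⟨b ^ 5 * (T ^ 2 + T * (a * b)) - a ^ 2 * (Polynomial.X * b ^ 7), by rw [e1]; ring⟩
  have hd := Polynomial.natDegree_eq_zero_of_isUnit hu
  have hp : ∀ n : ℕ, (b ^ n).natDegree = 0 := fun n => by
    rw [Polynomial.natDegree_pow, hd, mul_zero]
  have d1 : T.natDegree ≤ a.natDegree + 1 := by
    have h1 := Polynomial.natDegree_derivative_le a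
    have h2 := Polynomial.natDegree_mul_le (p := a.derivative) (q := b)
    have h3 := Polynomial.natDegree_mul_le (p := Polynomial.X) (q := a.derivative * b)
    rw [Polynomial.natDegree_X] at h3
    rw [hT, Polynomial.derivative_of_natDegree_zero hd, mul_zero, sub_zero]
    omega
  have d2 : (T ^ 2 + T * (a * b)).natDegree ≤ 2 * a.natDegree + 2 := by
    have h1 := Polynomial.natDegree_mul_le (p := a) (q := b)
    have h2 := Polynomial.natDegree_mul_le (p := T) (q := a * b)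
    have h3 := Polynomial.natDegree_pow T 2
    refine (Polynomial.natDegree_add_le _ _).trans (max_le ?_ ?_) <;> omega
  have d3 : (a ^ 2 * (Polynomial.X * b ^ 8)).natDegree ≤ 2 * a.natDegree + 2 := by
    have h1 := Polynomial.natDegree_mul_le (p := a ^ 2) (q := Polynomial.X * b ^ 8)
    have h2 := Polynomial.natDegree_mul_le (p := Polynomial.X) (q := b ^ 8)
    rw [Polynomial.natDegree_X, hp] at h2
    rw [Polynomial.natDegree_pow] at h1
    omega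
  have d4 := Polynomial.natDegree_mul_le (p := b ^ 6) (q := T ^ 2 + T * (a * b))
  have d5 := Polynomial.natDegree_sub_le (b ^ 6 * (T ^ 2 + T * (a * b)))
    (a ^ 2 * (Polynomial.X * b ^ 8))
  rw [← e1, Polynomial.natDegree_X_pow_mul _ (pow_ne_zero _ ha), Polynomial.natDegree_pow,
    le_max_iff] at d5
  rw [hp] at d4
  omega

theorem notrt_coprime {y w : K⟦X⟧} (h : Rt y w) : ∃ a b : Polynomial K, IsCoprime a b ∧
    w * Polynomial.aeval y b = Polynomial.aeval y a := by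
  classical
  obtain ⟨a, b, hb, e⟩ := h
  obtain ⟨a', b', h1, h2, h3⟩ := extract_gcd a b
  refine ⟨a', b', (gcd_isUnit_iff _ _).mp h3, ?_⟩
  generalize gcd a b = g at h1 h2
  rw [h2, map_mul] at hb
  rw [h1, h2, map_mul, map_mul] at e
  exact mul_left_cancel₀ (left_ne_zero_of_mul hb) (by linear_combination e)

end Aux

variable {F : Type} [Field F] [IsAlgClosed F] [CharP F 2]

omit [IsAlgClosed F] in
theorem notrt_two : (2 : F⟦X⟧) = 0 := by
  rw [← map_ofNat (C (R := F)) 2, CharTwo.two_eq_zero, map_zero]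

omit [IsAlgClosed F] in
theorem notrt_theta_yS : theta (yS F) = yS F := by
  rw [yS, theta_mul, theta_X, ((isEx_fS F).pow 24).2]
  push_cast
  linear_combination (-12 * X * hS F * fS F ^ 24) * notrt_two (F := F)

theorem notrt_sqrt {w : F⟦X⟧} (h : Rt (yS F) (w ^ 2)) : Rt (yS F) w := by
  obtain ⟨a, b, hb, e⟩ := h
  have e1 : (w * Polynomial.aeval (yS F) b) ^ 2 = Polynomial.aeval (yS F) (a * b) := by
    rw [map_mul, ← e]; ring
  have e2 : (a * b).derivative = 0 := by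
    have h1 := notrt_theta_aeval (yS F) (a * b)
    rw [← e1, sq, theta_mul, notrt_theta_yS] at h1
    refine notrt_zero ((mul_eq_zero.mp ?_).resolve_left notrt_yS_ne)
    rw [← h1]
    linear_combination (w * Polynomial.aeval (yS F) b *
      theta (w * Polynomial.aeval (yS F) b)) * notrt_two (F := F)
  have e3 := Polynomial.expand_contract 2 e2 two_ne_zero
  obtain ⟨c, hc⟩ := Polynomial.map_surjective (frobenius F 2) (surjective_frobenius F 2)
    (Polynomial.contract 2 (a * b))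
  rw [← hc, ← Polynomial.map_expand, Polynomial.map_frobenius_expand] at e3
  rw [← e3, map_pow, sq_eq_sq_iff_eq_or_eq_neg] at e1
  rcases e1 with e1 | e1
  · exact ⟨c, b, hb, e1⟩
  · exact ⟨-c, b, hb, by rw [e1, map_neg]⟩

/-- `y * h ^ 8` is not a rational function of `y`. -/
theorem not_Rt_h (hh : hS F ^ 2 + hS F = yS F) : ¬Rt (yS F) (yS F * hS F ^ 8) := by
  rintro ⟨a, b, hb, e⟩
  have two := notrt_two (F := F)
  have h2 : hS F ^ 2 = hS F + yS F := by linear_combination hh - hS F * two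
  have h4 : hS F ^ 4 = hS F + yS F + yS F ^ 2 := by
    rw [show hS F ^ 4 = (hS F ^ 2) ^ 2 by ring, h2]
    linear_combination h2 + hS F * yS F * two
  have h8 : hS F ^ 8 = hS F + yS F + yS F ^ 2 + yS F ^ 4 := by
    rw [show hS F ^ 8 = (hS F ^ 4) ^ 2 by ring, h4]
    linear_combination h2 + (hS F * yS F + hS F * yS F ^ 2 + yS F ^ 3) * two
  obtain ⟨A, hA⟩ : ∃ A : Polynomial F, hS F * Polynomial.aeval (yS F) (Polynomial.X * b) =
      Polynomial.aeval (yS F) A := by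
    refine ⟨a - Polynomial.X * b * (Polynomial.X + Polynomial.X ^ 2 + Polynomial.X ^ 4), ?_⟩
    simp only [map_sub, map_mul, map_add, map_pow, Polynomial.aeval_X]
    rw [← e, h8]; ring
  have hB : Polynomial.X * b ≠ 0 :=
    mul_ne_zero Polynomial.X_ne_zero fun h => hb (by rw [h, map_zero])
  generalize Polynomial.X * b = B at hA hB
  refine notrt_deg_h (A := A) hB (notrt_inj ?_)
  simp only [map_mul, map_add, map_pow, Polynomial.aeval_X]
  rw [← hA]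
  linear_combination Polynomial.aeval (yS F) B ^ 2 * hh

omit [IsAlgClosed F] in
theorem notrt_exists_w {l : ℕ} (hl : Odd l) : ∃ w : F⟦X⟧, IsEx w (ex l (hS F) + hS F) ∧
    w ^ 8 * yS F ^ l = ex l (yS F) := by
  have hl0 : l ≠ 0 := hl.pos.ne'
  have hψ := (isEx_fS F).pow 3
  obtain ⟨v, hv⟩ := (hψ.pow l).isUnit.exists_right_inv
  have e : ex l (fS F ^ 3) * v * (fS F ^ 3) ^ l = expand l hl0 (fS F ^ 3) := by
    rw [← ex_eq hl0]
    linear_combination ex l (fS F ^ 3) * hv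
  refine ⟨ex l (fS F ^ 3) * v, (IsEx.of_mul e (hψ.pow l) (hψ.expand l hl0)).congr ?_, ?_⟩
  · rw [← ex_eq hl0, map_mul, map_neg, map_natCast]
    obtain ⟨k, rfl⟩ := hl
    push_cast
    linear_combination ((-3 * k - 2) * ex (2 * k + 1) (hS F) + (3 * k + 1) * hS F) *
      notrt_two (F := F)
  · rw [← ex_eq hl0] at e
    rw [yS, map_mul, ex_X hl0, show fS F ^ 24 = (fS F ^ 3) ^ 8 by ring, map_pow (ex l) _ 8]
    generalize ex l (fS F ^ 3) = E at e
    generalize fS F ^ 3 = ψ at e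
    rw [mul_pow X, ← pow_mul, mul_comm 8 l, pow_mul, mul_left_comm, ← mul_pow, e]

/-- `y (X ^ l)` is not a rational function of `y` for odd `l > 1`. -/
theorem not_Rt_ex (hh : hS F ^ 2 + hS F = yS F) {l : ℕ} (hl : Odd l) (h1 : 1 < l) :
    ¬Rt (yS F) (ex l (yS F)) := by
  rintro ⟨a₀, b₀, hb₀, e₀⟩
  obtain ⟨w, hw, hw8⟩ := notrt_exists_w (F := F) hl
  have r8 : Rt (yS F) (((w ^ 2) ^ 2) ^ 2) := by
    refine ⟨a₀, Polynomial.X ^ l * b₀, ?_, ?_⟩
    · rw [map_mul, map_pow, Polynomial.aeval_X]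
      exact mul_ne_zero (pow_ne_zero _ notrt_yS_ne) hb₀
    · rw [map_mul, map_pow, Polynomial.aeval_X, ← e₀, ← hw8]; ring
  obtain ⟨a, b, hc, e⟩ := notrt_coprime (notrt_sqrt (notrt_sqrt (notrt_sqrt r8)))
  have h0 : a.eval 0 = b.eval 0 := by
    have h2 := congrArg constantCoeff e
    rw [map_mul, hw.1, one_mul, notrt_const, notrt_const, notrt_yS_const] at h2
    exact h2.symm
  have ht : (ex l (hS F) + hS F) ^ 2 + (ex l (hS F) + hS F) = ex l (yS F) + yS F := by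
    have h2 := congrArg (ex l) hh
    rw [map_add, map_pow] at h2
    linear_combination h2 + hh + ex l (hS F) * hS F * notrt_two (F := F)
  have hθ := congrArg theta e
  rw [theta_mul, hw.2, notrt_theta_aeval, notrt_theta_aeval, notrt_theta_yS] at hθ
  generalize ex l (hS F) + hS F = t at ht hθ
  have hl2 : 2 < l := by obtain ⟨k, rfl⟩ := hl; omega
  refine notrt_deg_ex hl2 hc h0 rfl (notrt_inj ?_)
  simp only [map_mul, map_add, map_sub, map_pow, Polynomial.aeval_X]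
  generalize Polynomial.aeval (yS F) a.derivative = a' at hθ ⊢
  generalize Polynomial.aeval (yS F) b.derivative = b' at hθ ⊢
  generalize Polynomial.aeval (yS F) a = A at e ⊢
  generalize Polynomial.aeval (yS F) b = B at e hθ ⊢
  have hT : yS F * (a' * B - A * b') = t * (A * B) := by
    rw [← e]; linear_combination -B * hθ
  rw [hT, ← e]
  linear_combination B ^ 8 * (w * B * B) ^ 2 * (ht - hw8)

end Subb

end

section

/-!
The decomposition group is large.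
-/

namespace Subb

open PowerSeries Matrix MatrixGroups

variable {O F : Type} [CommRing O] [IsDomain O] [CharZero O] [Field F] [IsAlgClosed F]
  [CharP F 2] {π : O →+* F} {N : ℕ} {ζ : Oˣ} {S : Sys π N ζ} {D : Subgroup SL(2, ℤ)}

/-- The cube of the family of `g` is invariant under `d` when `g d g⁻¹` is integral. -/
theorem fam_cube (hζ : ζ ^ N = 1) {g : Matrix (Fin 2) (Fin 2) ℤ} (hg : 0 < g.det)
    (hN : 3 * g.det ∣ (N : ℤ)) {P : SL(2, ℤ) → O⟦X⟧}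
    (hP : ∀ (γ γ' : SL(2, ℤ)) (a d e : ℕ) (b : ℤ), N = 3 * d * e →
      g * γ = γ' * !![(a : ℤ), b; 0, (d : ℤ)] → P γ = C (om N ζ γ' : O) * Dser ζ a b e)
    {d d' : SL(2, ℤ)} (hd : g * d = d' * g) (x : SL(2, ℤ)) : P (d * x) ^ 3 = P x ^ 3 := by
  have hx : (g * x).det = g.det := by rw [det_mul, x.det_coe, mul_one]
  obtain ⟨γ, a, d₀, b, h1, -, h2⟩ := hnf (g * x) (hx ▸ hg)
  rw [hx] at h2
  obtain ⟨e, he⟩ := hN
  have he0 : 0 ≤ e := by
    by_contra h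
    have : 3 * g.det * e < 0 := mul_neg_of_pos_of_neg (by omega) (by omega)
    omega
  obtain ⟨e, rfl⟩ := Int.eq_ofNat_of_zero_le he0
  have hN' : N = 3 * d₀ * (a * e) := by
    zify
    rw [he, ← h2]
    ring
  have h3 : 3 ∣ N := ⟨d₀ * (a * e), by rw [hN']; ring⟩
  have h4 : g * (d.1 * x.1) = d'.1 * γ.1 * !![(a : ℤ), b; 0, (d₀ : ℤ)] := by
    rw [← mul_assoc, hd, mul_assoc, h1, mul_assoc]
  rw [hP x γ a d₀ (a * e) b hN' h1, hP (d * x) (d' * γ) a d₀ (a * e) b hN' h4, mul_pow, mul_pow,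
    ← map_pow, ← map_pow, ← Units.val_pow_eq_pow_val, ← Units.val_pow_eq_pow_val,
    om_cube h3 hζ, om_cube h3 hζ]

omit [IsDomain O] [CharZero O] in
/-- The family of a triangular matrix at the identity. -/
theorem grpb_one {a d e : ℕ} {b : ℤ} (hN : N = 3 * d * e) {P : SL(2, ℤ) → O⟦X⟧}
    {g : Matrix (Fin 2) (Fin 2) ℤ} (hg : g = !![(a : ℤ), b; 0, (d : ℤ)])
    (hP : ∀ (γ γ' : SL(2, ℤ)) (a d e : ℕ) (b : ℤ), N = 3 * d * e →
      g * γ = γ' * !![(a : ℤ), b; 0, (d : ℤ)] → P γ = C (om N ζ γ' : O) * Dser ζ a b e) :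
    P 1 = Dser ζ a b e := by
  rw [hP 1 1 a d e b hN ((mul_one g).trans (hg.trans (one_mul _).symm)), om_one,
    Units.val_one, map_one, one_mul]

/-- The lower left entries on `D` are divisible by the powers of `2` in the level. -/
theorem good_C (hπ : ∀ x, π x = 0 ↔ ¬IsUnit x) (hN : N ≠ 0) (hD : Good S D) {k : ℕ}
    (hk : 3 * 2 ^ k ∣ N) : ∀ d ∈ D, (2 : ℤ) ^ k ∣ d 1 0 := by
  intro d hd
  obtain ⟨m, hm⟩ := hk
  have hm0 : m ≠ 0 := by
    rintro rfl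
    exact hN hm
  obtain ⟨g, hg⟩ : ∃ g : Matrix (Fin 2) (Fin 2) ℤ,
      g = !![((2 ^ k : ℕ) : ℤ), 0; 0, ((1 : ℕ) : ℤ)] := ⟨_, rfl⟩
  have hdet : g.det = ((2 ^ k : ℕ) : ℤ) := by rw [hg, det_fin_two_of]; simp
  obtain ⟨P, hPM, hP⟩ := S.fam g (by rw [hdet]; positivity)
    (by rw [hdet, hm]; push_cast; exact Dvd.intro _ rfl)
  have h1 : P 1 = Dser ζ (2 ^ k) 0 (2 ^ k * m) := grpb_one (by rw [hm]; ring) hg hP
  have h2 : C (((2 ^ k : ℕ) : O) ^ 4) ∣ P d :=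
    hD.transfer hPM d hd _ (pow_ne_zero _ (Nat.cast_ne_zero.2 (by positivity)))
      (by rw [h1]; exact Dvd.intro _ rfl)
  have hx : (g * d).det = ((2 ^ k : ℕ) : ℤ) := by rw [det_mul, d.det_coe, mul_one, hdet]
  obtain ⟨γ, a, d₀, b, h3, h4, h5⟩ := hnf (g * d) (by rw [hx]; positivity)
  rw [hx] at h5
  have h6 : a * d₀ = 2 ^ k := by exact_mod_cast h5
  have ha : a ≠ 0 := by
    rintro rfl
    exact absurd h6.symm (by rw [zero_mul]; positivity)
  obtain ⟨ψ, hψ, h7⟩ := Dser_eq (ζ := ζ) (mul_ne_zero ha (mul_ne_zero ha hm0)) b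
  rw [hP d γ a d₀ (a * m) b (by rw [hm, ← h6]; ring) h3, h7] at h2
  obtain ⟨φ, hφ⟩ := h2
  have h8 := congrArg (coeff (a * (a * m))) hφ
  rw [mul_assoc, coeff_C_mul, coeff_C_mul, coeff_C_mul, coeff_X_pow_mul', if_pos le_rfl,
    Nat.sub_self, coeff_zero_eq_constantCoeff_apply, hψ, mul_one, ← h6] at h8
  have h9 : ((om N ζ γ * ζ ^ (b * ((a * m : ℕ) : ℤ)) : Oˣ) : O) =
      (d₀ : O) * ((d₀ : O) ^ 3 * coeff (a * (a * m)) φ) := by
    apply mul_left_cancel₀ (pow_ne_zero 4 (Nat.cast_ne_zero.2 ha : (a : O) ≠ 0))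
    rw [Units.val_mul]
    rw [Nat.cast_mul a d₀] at h8
    linear_combination h8
  have h10 : IsUnit (d₀ : O) := isUnit_of_mul_isUnit_left (h9 ▸ Units.isUnit _)
  have h11 : d₀ = 1 := by
    obtain ⟨j, -, rfl⟩ := (Nat.dvd_prime_pow Nat.prime_two).1 (Dvd.intro_left _ h6)
    rcases j with _ | j
    · rfl
    · exfalso
      refine (hπ _).1 ?_ h10
      rw [map_natCast, (CharP.cast_eq_zero_iff F 2 _)]
      exact Dvd.intro_left _ rfl
  rw [h11, mul_one] at h6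
  have h12 : (a : ℤ) ∣ (g * d) 1 0 := by
    rw [h4]
    exact Int.gcd_dvd_right _ _
  have h13 : (g * d) 1 0 = d 1 0 := by
    rw [hg]
    simp [Matrix.mul_apply, Fin.sum_univ_two]
  rw [h13, h6] at h12
  exact_mod_cast h12

/-- Some lower left entry on `D` is not divisible by `p`. -/
theorem good_A (hh : hS F ^ 2 + hS F = yS F) (hζ : ζ ^ N = 1) (hN : N ≠ 0) (hD : Good S D)
    {p : ℕ} (hp : Odd p) (h1 : 1 < p) (hpN : 3 * p ∣ N) : ∃ d ∈ D, ¬(p : ℤ) ∣ d 1 0 := by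
  by_contra hc
  push Not at hc
  obtain ⟨m, hm⟩ := hpN
  have hm0 : m ≠ 0 := by
    rintro rfl
    exact hN hm
  have hp0 : p ≠ 0 := by omega
  obtain ⟨g, hg⟩ : ∃ g : Matrix (Fin 2) (Fin 2) ℤ,
      g = !![(p : ℤ), 0; 0, ((1 : ℕ) : ℤ)] := ⟨_, rfl⟩
  have hdet : g.det = (p : ℤ) := by rw [hg, det_fin_two_of]; simp
  have hg0 : 0 < g.det := by rw [hdet]; omega
  have hg1 : 3 * g.det ∣ (N : ℤ) := by rw [hdet, hm]; push_cast; exact Dvd.intro _ rfl
  obtain ⟨P, hPM, hP⟩ := S.fam g hg0 hg1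
  have h2 : P 1 = Dser ζ p 0 (p * m) := grpb_one (by rw [hm]; ring) hg hP
  have h3 := hD.rat (S.pow hPM 3) (fun d hd x => by
      obtain ⟨c, hc⟩ := hc d hd
      have hdd := d.det_coe
      rw [det_fin_two] at hdd
      refine fam_cube hζ hg0 hg1 hP (d' := ⟨!![d 0 0, p * d 0 1; c, d 1 1], ?_⟩) ?_ x
      · rw [det_fin_two_of]
        linear_combination hdd + d 0 1 * hc
      · rw [hg]
        ext i j
        fin_cases i <;> fin_cases j <;>
          simp [Matrix.mul_apply, Fin.sum_univ_two, hc, mul_comm])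
    ((p : O) ^ 12) (ex N (ex p (yS O))) (pow_ne_zero _ (Nat.cast_ne_zero.2 hp0)) (by
      rw [h2, Dser_cube (mul_ne_zero hp0 (mul_ne_zero hp0 hm0)), ex_ex hN hp0, zero_mul, zero_mul,
        _root_.zpow_zero, Units.val_one, rescale_one, RingHom.id_apply,
        show p * (p * m) * 3 = N * p by rw [hm]; ring])
  rw [map_ex, map_ex, map_yS] at h3
  exact not_Rt_ex hh hp h1 h3.of_ex

/-- Some lower right entry on `D` has square `9` modulo `16`. -/
theorem good_B (hh : hS F ^ 2 + hS F = yS F) (hπ : ∀ x, π x = 0 ↔ ¬IsUnit x)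
    (hζ : IsPrimitiveRoot ζ N) (hN : N ≠ 0) (hD : Good S D) (h : 768 ∣ N) :
    ∃ d ∈ D, d 1 1 ^ 2 ≡ 9 [ZMOD 16] := by
  by_contra hc
  push Not at hc
  have hC := good_C hπ hN hD (k := 8) h
  obtain ⟨m, hm⟩ := h
  have hm0 : m ≠ 0 := by
    rintro rfl
    exact hN hm
  obtain ⟨g₀, hg₀⟩ : ∃ g : Matrix (Fin 2) (Fin 2) ℤ,
      g = !![((16 : ℕ) : ℤ), 0; 0, ((16 : ℕ) : ℤ)] := ⟨_, rfl⟩
  obtain ⟨g₁, hg₁⟩ : ∃ g : Matrix (Fin 2) (Fin 2) ℤ,
      g = !![((16 : ℕ) : ℤ), 1; 0, ((16 : ℕ) : ℤ)] := ⟨_, rfl⟩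
  have hd₀ : g₀.det = 256 := by rw [hg₀, det_fin_two_of]; simp
  have hd₁ : g₁.det = 256 := by rw [hg₁, det_fin_two_of]; simp
  have hp₀ : 0 < g₀.det := by omega
  have hp₁ : 0 < g₁.det := by omega
  have hN₀ : 3 * g₀.det ∣ (N : ℤ) := ⟨m, by rw [hd₀]; omega⟩
  have hN₁ : 3 * g₁.det ∣ (N : ℤ) := ⟨m, by rw [hd₁]; omega⟩
  obtain ⟨P₀, hM₀, hP₀⟩ := S.fam g₀ hp₀ hN₀
  obtain ⟨P₁, hM₁, hP₁⟩ := S.fam g₁ hp₁ hN₁
  have h0 : P₀ 1 = Dser ζ 16 0 (16 * m) := grpb_one (by omega) hg₀ hP₀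
  have h1 : P₁ 1 = Dser ζ 16 1 (16 * m) := grpb_one (by omega) hg₁ hP₁
  obtain ⟨w, hw⟩ : ∃ w : Oˣ, w = ζ ^ ((1 : ℤ) * ((16 * m : ℕ) : ℤ) * 3) := ⟨_, rfl⟩
  have hw8 : (w : O) ^ 8 = -1 := by
    have h2 : IsPrimitiveRoot ((ζ : O) ^ (384 * m)) 2 :=
      (IsPrimitiveRoot.coe_units_iff.2 hζ).pow (Nat.pos_of_ne_zero hN) (by omega)
    rw [← h2.eq_neg_one_of_two_right, hw, ← Units.val_pow_eq_pow_val, ← Units.val_pow_eq_pow_val,
      ← zpow_natCast, ← zpow_natCast, ← _root_.zpow_mul,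
      show (1 : ℤ) * ((16 * m : ℕ) : ℤ) * 3 * ((8 : ℕ) : ℤ) = ((384 * m : ℕ) : ℤ) by
        push_cast; ring]
  obtain ⟨φ, hφ, hφ'⟩ := exists_twist π w hw8
  have he : 16 * (16 * m) ≠ 0 := by omega
  have h3 := hD.rat (S.add (S.smul ((w⁻¹ : Oˣ) : O) (S.pow hM₁ 3)) (S.smul (-1) (S.pow hM₀ 3)))
    (fun d hd x => by
      obtain ⟨c, hc₁⟩ := hC d hd
      have hc₂ := hc d hd
      have hdd := d.det_coe
      rw [det_fin_two] at hdd
      have h4 : (16 : ℤ) ∣ d 1 1 - d 0 0 := by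
        rw [hc₁] at hdd
        generalize d 0 0 = α at *
        generalize d 1 1 = δ at *
        have h5 : α * δ ≡ 1 [ZMOD 16] :=
          (Int.modEq_iff_dvd.2 ⟨-(d 0 1 * 16 * c), by linear_combination -hdd⟩)
        have h6 := Int.emod_emod_of_dvd α (dvd_refl (16 : ℤ))
        unfold Int.ModEq at h5 hc₂
        rw [Int.mul_emod] at h5
        rw [pow_two, Int.mul_emod] at hc₂
        have h7 := Int.emod_nonneg α (by norm_num : (16 : ℤ) ≠ 0)
        have h8 := Int.emod_lt_of_pos α (by norm_num : (0 : ℤ) < 16)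
        have h9 := Int.emod_nonneg δ (by norm_num : (16 : ℤ) ≠ 0)
        have h10 := Int.emod_lt_of_pos δ (by norm_num : (0 : ℤ) < 16)
        have h11 : α % 16 = δ % 16 := by
          generalize α % 16 = r at *
          generalize δ % 16 = s at *
          interval_cases s <;> omega
        omega
      obtain ⟨s, hs⟩ := h4
      have h5 : P₀ (d * x) ^ 3 = P₀ x ^ 3 := by
        refine fam_cube hζ.pow_eq_one hp₀ hN₀ hP₀ (d' := d) ?_ x
        rw [hg₀]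
        ext i j
        fin_cases i <;> fin_cases j <;> simp [Matrix.mul_apply, Fin.sum_univ_two, mul_comm]
      have h6 : P₁ (d * x) ^ 3 = P₁ x ^ 3 := by
        refine fam_cube hζ.pow_eq_one hp₁ hN₁ hP₁
          (d' := ⟨!![d 0 0 + 16 * c, d 0 1 + s - c; 256 * c, d 1 1 - 16 * c], ?_⟩) ?_ x
        · rw [det_fin_two_of]
          linear_combination hdd + d 0 1 * hc₁ + 16 * c * hs
        · rw [hg₁]
          ext i j
          fin_cases i <;> fin_cases j <;> simp [Matrix.mul_apply, Fin.sum_univ_two] <;> omega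
      rw [h5, h6])
    (((16 : ℕ) : O) ^ 12 * 2) (ex N φ)
    (mul_ne_zero (pow_ne_zero _ (Nat.cast_ne_zero.2 (by norm_num))) two_ne_zero) (by
      have h4 := congrArg (ex N) hφ
      rw [map_sub, map_mul, map_mul, ex_C, ex_C] at h4
      rw [h0, h1, Dser_cube he, Dser_cube he, ← hw, zero_mul, zero_mul, _root_.zpow_zero,
        Units.val_one, rescale_one, RingHom.id_apply, show 16 * (16 * m) * 3 = N by omega,
        map_mul C, map_neg C, map_one C]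
      linear_combination C (((16 : ℕ) : O) ^ 12) * h4)
  rw [map_ex, hφ'] at h3
  exact not_Rt_h hh h3.of_ex

end Subb

end

section

/-!
The generating function of regular partitions.
-/

namespace Subb

open PowerSeries

/-- The number of partitions of `n` with no part divisible by `m`. -/
def reg (m n : ℕ) : ℕ := (Nat.Partition.restricted n fun i => ¬m ∣ i).card

open scoped PowerSeries.WithPiTopology in
/-- The generating function of `m`-regular partitions times Euler's product. -/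
theorem reg_mul_fS {m : ℕ} (hm : m ≠ 0) :
    (PowerSeries.mk fun n => (reg m n : ℤ)) * fS ℤ = ex m (fS ℤ) := by
  have hc : Continuous (ex m : ℤ⟦X⟧ → ℤ⟦X⟧) := by
    rw [continuous_iff_continuousAt]
    intro φ
    rw [ContinuousAt, WithPiTopology.tendsto_iff_coeff_tendsto]
    intro d
    simp only [coeff_ex hm]
    split_ifs
    · exact (WithPiTopology.continuous_coeff ℤ _).continuousAt
    · exact tendsto_const_nhds
  have hA := Nat.Partition.hasProd_powerSeriesMk_card_restricted ℤ (fun i => ¬m ∣ i)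
  have hB := WithPiTopology.hasProd_one_sub_X_pow ℤ
  have h1 := hA.mul hB
  have h2 := hB.map (ex m : ℤ⟦X⟧ →+* ℤ⟦X⟧) hc
  have hm0 : 0 < m := Nat.pos_of_ne_zero hm
  have hg : Function.Injective fun i : ℕ => m * (i + 1) - 1 := by
    intro a b h
    have ha : 0 < m * (a + 1) := by positivity
    have hb : 0 < m * (b + 1) := by positivity
    have h' : m * (a + 1) = m * (b + 1) := by
      simp only at h
      omega
    have := Nat.eq_of_mul_eq_mul_left hm0 h'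
    omega
  refine h1.unique ((hg.hasProd_iff ?_).1 ?_)
  · intro x hx
    have hx' : ¬m ∣ x + 1 := by
      rintro ⟨k, hk⟩
      rcases k with _ | k
      · omega
      · exact hx ⟨k, by simp only; omega⟩
    rw [if_pos hx']
    simp_rw [pow_mul]
    exact WithPiTopology.tsum_pow_mul_one_sub_of_constantCoeff_eq_zero (by simp)
  · refine h2.congr_fun fun i => ?_
    have hi : 0 < m * (i + 1) := by positivity
    have e : m * (i + 1) - 1 + 1 = m * (i + 1) := by omega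
    simp only [Function.comp_apply, e]
    rw [if_neg (not_not.2 (Dvd.intro _ rfl)), one_mul, map_sub, map_one, map_pow, ex_X hm, ← pow_mul]

/-- An integral series that agrees modulo `2` with the generating function in `X ^ 24`. -/
theorem exists_Theta (j : ℕ) {m₀ : ℕ} (hm : m₀ ≠ 0) : ∃ Θ : ℤ⟦X⟧,
    Θ * dS ℤ = ex m₀ (dS ℤ) ^ 2 ^ j ∧
    (∀ n, ¬n + 1 ≡ 2 ^ j * m₀ [MOD 3] → coeff n Θ = 0) ∧
    ∀ n, coeff (24 * n + (2 ^ j * m₀ - 1)) Θ ≡ reg (2 ^ j * m₀) n [ZMOD 2] := by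
  obtain ⟨p, hp⟩ := ((isEx_fS ℤ).isUnit.pow 8).exists_right_inv
  have hm0 : 0 < 2 ^ j * m₀ := by
    have := Nat.pos_of_ne_zero hm
    positivity
  refine ⟨X ^ (2 ^ j * m₀ - 1) * ex 3 (ex m₀ (fS ℤ ^ 8) ^ 2 ^ j * p), ?_, fun n hn => ?_,
    fun n => ?_⟩
  · have e1 : ex 3 p * ex 3 (fS ℤ ^ 8) = 1 := by rw [← map_mul, mul_comm, hp, map_one]
    have e2 : (X : ℤ⟦X⟧) ^ (2 ^ j * m₀ - 1) * X = (X ^ m₀) ^ 2 ^ j := by
      rw [← pow_succ, ← pow_mul, Nat.sub_add_cancel hm0, mul_comm]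
    rw [dS, map_mul (ex m₀), ex_X hm, mul_pow, ← e2, map_mul (ex 3), map_pow (ex 3),
      ex_ex three_ne_zero hm, ex_ex hm three_ne_zero, mul_comm m₀ 3]
    linear_combination
      (X ^ (2 ^ j * m₀ - 1) * X * ex (3 * m₀) (fS ℤ ^ 8) ^ 2 ^ j) * e1
  · rw [coeff_X_pow_mul']
    split_ifs with h
    · rw [coeff_ex three_ne_zero, if_neg]
      intro hd
      apply hn
      unfold Nat.ModEq
      omega
    · rfl
  · rw [coeff_X_pow_mul, show 24 * n = 3 * (8 * n) by ring, coeff_ex_mul three_ne_zero]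
    have hB := congrArg (PowerSeries.map (Int.castRingHom (ZMod 2))) (reg_mul_fS hm0.ne')
    have hp' := congrArg (PowerSeries.map (Int.castRingHom (ZMod 2))) hp
    rw [map_mul, map_ex, map_fS, mul_comm (2 ^ j) m₀, ← ex_ex hm (by positivity),
      ex_two_pow_zmod, mul_comm m₀ (2 ^ j)] at hB
    rw [map_mul, map_pow, map_fS, map_one] at hp'
    have key : PowerSeries.map (Int.castRingHom (ZMod 2)) (ex m₀ (fS ℤ ^ 8) ^ 2 ^ j * p) =
        ex 8 (PowerSeries.map (Int.castRingHom (ZMod 2))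
          (PowerSeries.mk fun n => (reg (2 ^ j * m₀) n : ℤ))) := by
      rw [show (8 : ℕ) = 2 ^ 3 from rfl, ex_two_pow_zmod, show (2 : ℕ) ^ 3 = 8 from rfl, map_mul,
        map_pow, map_ex, map_pow, map_fS, ← map_pow, ← pow_mul, mul_comm 8, pow_mul,
        map_pow (ex m₀) _ 8, ← hB, mul_pow, mul_assoc, hp', mul_one]
    have k2 := congrArg (coeff (8 * n)) key
    rw [coeff_ex_mul (by norm_num), coeff_map, coeff_map, coeff_mk] at k2
    exact (ZMod.intCast_eq_intCast_iff _ _ 2).1 k2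

end Subb

end

end

-- part MP_a23355_nt.Key
section

section

/-!
Comparison of a linear combination of quotients of forms at two cusps.
-/

namespace Subb

open PowerSeries Matrix MatrixGroups Finset

variable {O F : Type} [CommRing O] [IsDomain O] [Field F] {π : O →+* F} {N : ℕ} {ζ : Oˣ}

theorem key_abstract {S : Sys π N ζ} {D : Subgroup SL(2, ℤ)} (hD : Good S D) {γ : SL(2, ℤ)}
    (hγ : γ ∈ D) {ι : Type} [Fintype ι] [DecidableEq ι] (P Q : ι → SL(2, ℤ) → O⟦X⟧)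
    (hP : ∀ s, P s ∈ S.M 1) (hQ : ∀ s, Q s ∈ S.M 1) (k : ℕ) {w x : O} (hw : w ≠ 0) (hx : x ≠ 0)
    (lam : ι → O) (P' Θ : ι → O⟦X⟧) (hP1 : ∀ s, P s 1 = C w * P' s)
    (hQ1 : ∀ s, Q s 1 ^ k = C w ^ k * (P' s * Θ s)) (hsum : C x ∣ ∑ s, C (lam s) * Θ s)
    (p q : ι → ℕ) (ν : ℕ) (Pt Qt : ι → O⟦X⟧) (hPγ : ∀ s, P s γ = C w * (X ^ p s * Pt s))
    (hQγ : ∀ s, Q s γ = C w * (X ^ q s * Qt s)) (hu : ∀ s, IsUnit (constantCoeff (Pt s)))
    (T : Finset ι) (κ : O)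
    (hT : ∀ s ∈ T, k * q s + ν = p s ∧
      lam s * constantCoeff (Qt s) ^ k = κ * constantCoeff (Pt s))
    (hT' : ∀ s ∉ T, p s < k * q s + ν) : x ∣ T.card * κ := by
  set n := Fintype.card ι - 1 with hn
  have hcard : ∀ s : ι, (univ.erase s).card = n := fun s => by
    rw [card_erase_of_mem (mem_univ s), card_univ]
  have hW : (fun g => ∑ s, C (lam s) * (Q s g ^ k * ∏ t ∈ univ.erase s, P t g)) ∈
      S.M (k + n) := by
    refine S.sum univ fun s _ => S.smul _ ?_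
    have h := S.mul (S.pow (hQ s) k) (S.prod (univ.erase s) (w := fun _ => 1) fun t _ => hP t)
    rwa [mul_one, sum_const, smul_eq_mul, mul_one, hcard] at h
  have h1 : C (w ^ (k + n) * x) ∣
      ∑ s, C (lam s) * (Q s 1 ^ k * ∏ t ∈ univ.erase s, P t 1) := by
    have e : ∑ s, C (lam s) * (Q s 1 ^ k * ∏ t ∈ univ.erase s, P t 1) =
        C (w ^ (k + n)) * ((∏ t, P' t) * ∑ s, C (lam s) * Θ s) := by
      rw [mul_sum, mul_sum]
      refine sum_congr rfl fun s _ => ?_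
      simp only [hP1, hQ1, prod_mul_distrib, prod_const, hcard]
      rw [← mul_prod_erase univ P' (mem_univ s), map_pow]
      ring
    rw [e, map_mul]
    exact mul_dvd_mul_left _ (hsum.mul_left _)
  have h2 := hD.transfer hW γ hγ _ (mul_ne_zero (pow_ne_zero _ hw) hx) h1
  have hle : ∀ s, p s ≤ k * q s + ν := fun s => by
    by_cases hs : s ∈ T
    · exact (hT s hs).1.ge
    · exact (hT' s hs).le
  have e : X ^ ν * ∑ s, C (lam s) * (Q s γ ^ k * ∏ t ∈ univ.erase s, P t γ) =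
      C (w ^ (k + n)) * (X ^ (∑ t, p t) * ∑ s, C (lam s) * (X ^ (k * q s + ν - p s) *
        (Qt s ^ k * ∏ t ∈ univ.erase s, Pt t))) := by
    rw [mul_sum, mul_sum, mul_sum]
    refine sum_congr rfl fun s _ => ?_
    simp only [hPγ, hQγ, prod_mul_distrib, prod_const, hcard, prod_pow_eq_pow_sum]
    have e1 : (X : O⟦X⟧) ^ ν * (X ^ q s) ^ k = X ^ p s * X ^ (k * q s + ν - p s) := by
      rw [← pow_mul, ← pow_add, ← pow_add]
      congr 1
      have := hle s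
      rw [mul_comm (q s)]
      omega
    rw [← add_sum_erase univ p (mem_univ s), map_pow, pow_add X (p s)]
    linear_combination (C (lam s) * C w ^ (k + n) * Qt s ^ k * X ^ (∑ t ∈ univ.erase s, p t) *
      ∏ t ∈ univ.erase s, Pt t) * e1
  have h3 := h2.mul_left (X ^ ν)
  rw [e, map_mul] at h3
  have hC : (C (w ^ (k + n)) : O⟦X⟧) ≠ 0 := fun h =>
    pow_ne_zero _ hw (C_injective (h.trans (map_zero _).symm))
  obtain ⟨Z, hZ⟩ := (mul_dvd_mul_iff_left hC).mp h3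
  have h4 := congrArg (coeff (0 + ∑ t, p t)) hZ
  rw [coeff_X_pow_mul, coeff_C_mul, coeff_zero_eq_constantCoeff_apply, map_sum,
    ← sum_subset (subset_univ T), sum_congr rfl (g := fun _ => κ * ∏ t, constantCoeff (Pt t)),
    sum_const, nsmul_eq_mul, ← mul_assoc] at h4
  · exact (IsUnit.prod_univ_iff.mpr hu).dvd_mul_right.mp ⟨_, h4⟩
  · intro s hs
    rw [(hT s hs).1, Nat.sub_self, pow_zero, one_mul, map_mul, map_mul, map_pow, map_prod,
      constantCoeff_C, ← mul_assoc, (hT s hs).2, mul_assoc,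
      mul_prod_erase univ (fun t => constantCoeff (Pt t)) (mem_univ s)]
  · intro s _ hs
    have := hT' s hs
    rw [map_mul, map_mul, map_pow, constantCoeff_X, zero_pow (by omega), zero_mul, mul_zero]

end Subb

end

section

/-!
Sieving out an arithmetic progression, and the expansions at infinity.
-/

namespace Subb

open PowerSeries Matrix MatrixGroups Finset

variable {O : Type} [CommRing O] {N : ℕ} {ζ : Oˣ}

theorem geom_root [IsDomain O] {ξ : Oˣ} {n : ℕ} (hξ : IsPrimitiveRoot ξ n) (k : ℤ) :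
    ∑ v ∈ range n, ((ξ ^ (k * v) : Oˣ) : O) = if (n : ℤ) ∣ k then (n : O) else 0 := by
  simp only [_root_.zpow_mul, zpow_natCast, Units.val_pow_eq_pow_val]
  split_ifs with h
  · rw [(hξ.zpow_eq_one_iff_dvd k).mpr h]
    simp
  · have h1 : ((ξ ^ k : Oˣ) : O) - 1 ≠ 0 := fun h0 => h ((hξ.zpow_eq_one_iff_dvd k).mp
      (Units.ext (sub_eq_zero.mp h0)))
    have h2 := geom_sum_mul ((ξ ^ k : Oˣ) : O) n
    rw [← Units.val_pow_eq_pow_val, ← zpow_natCast, ← _root_.zpow_mul, mul_comm k,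
      _root_.zpow_mul, zpow_natCast, hξ.pow_eq_one, _root_.one_zpow, Units.val_one,
      sub_self] at h2
    exact (mul_eq_zero.mp h2).resolve_right h1

/-- The part of `Θ` in the progression `c` modulo `n`. -/
noncomputable def siv (Θ : ℤ⟦X⟧) (c n : ℤ) : ℤ⟦X⟧ :=
  PowerSeries.mk fun i => if (i : ℤ) ≡ c [ZMOD n] then coeff i Θ else 0

theorem sieve [IsDomain O] (hζ : IsPrimitiveRoot ζ N) (hN : N ≠ 0) {a E e : ℕ} (hE : Odd E)
    (hNe : N = 3 * (2 ^ a * E) * e) {m : ℤ} (hm : Odd m) (Θ : ℤ⟦X⟧) (c : ℤ)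
    (hΘ : ∀ n : ℕ, ¬(n : ℤ) ≡ c [ZMOD 3] → coeff n Θ = 0) :
    ∑ v ∈ range (2 ^ a), ∑ u ∈ range E,
      C ((ζ ^ (-c * ((m * v * E + 2 ^ a * u) * e)) : Oˣ) : O) *
        rescale ((ζ ^ ((m * v * E + 2 ^ a * u) * e) : Oˣ) : O)
          (PowerSeries.map (Int.castRingHom O) Θ) =
      C ((2 ^ a * E : ℕ) : O) *
        PowerSeries.map (Int.castRingHom O) (siv Θ c (3 * (2 ^ a * E))) := by
  ext n
  simp only [map_sum, coeff_C_mul, coeff_rescale, coeff_map, siv, coeff_mk]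
  by_cases h3 : (n : ℤ) ≡ c [ZMOD 3]
  · obtain ⟨k, hk⟩ := h3.symm.dvd
    have h1 : IsPrimitiveRoot (ζ ^ (3 * e * E)) (2 ^ a) :=
      hζ.pow (Nat.pos_of_ne_zero hN) (by rw [hNe]; ring)
    have h2 : IsPrimitiveRoot (ζ ^ (3 * e * 2 ^ a)) E :=
      hζ.pow (Nat.pos_of_ne_zero hN) (by rw [hNe]; ring)
    have e1 : ∀ v u : ℕ, ((ζ ^ (-c * ((m * v * E + 2 ^ a * u) * e)) : Oˣ) : O) *
        (((ζ ^ ((m * v * E + 2 ^ a * u) * e) : Oˣ) : O) ^ n * Int.castRingHom O (coeff n Θ)) =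
        (((ζ ^ (3 * e * E)) ^ (k * m * v) : Oˣ) : O) *
          ((((ζ ^ (3 * e * 2 ^ a)) ^ (k * u) : Oˣ) : O) * Int.castRingHom O (coeff n Θ)) := by
      intro v u
      rw [← mul_assoc ((_ : Oˣ) : O), ← mul_assoc ((_ : Oˣ) : O), ← Units.val_pow_eq_pow_val,
        ← Units.val_mul, ← Units.val_mul, ← zpow_natCast ζ, ← zpow_natCast ζ,
        ← zpow_natCast (ζ ^ _), ← _root_.zpow_mul, ← _root_.zpow_mul, ← _root_.zpow_mul,
        ← _root_.zpow_add, ← _root_.zpow_add]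
      congr 3
      push_cast
      linear_combination ((m * v * E + 2 ^ a * u) * e) * hk
    simp only [e1, ← mul_sum, ← sum_mul]
    rw [geom_root h1, geom_root h2]
    have hco : IsCoprime ((2 : ℤ) ^ a) (E : ℤ) :=
      (Int.isCoprime_two_left.mpr (by exact_mod_cast hE)).pow_left
    have hiff : (n : ℤ) ≡ c [ZMOD 3 * (2 ^ a * E)] ↔
        ((2 ^ a : ℕ) : ℤ) ∣ k * m ∧ (E : ℤ) ∣ k := by
      rw [Int.modEq_comm, Int.modEq_iff_dvd, hk, mul_dvd_mul_iff_left (three_ne_zero' ℤ)]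
      push_cast
      constructor
      · intro h
        exact ⟨((Dvd.intro _ rfl).trans h).mul_right _, (Dvd.intro_left _ rfl).trans h⟩
      · rintro ⟨h4, h5⟩
        exact hco.mul_dvd ((Int.isCoprime_two_left.mpr hm).pow_left.dvd_of_dvd_mul_right h4) h5
    by_cases h4 : ((2 ^ a : ℕ) : ℤ) ∣ k * m
    · by_cases h5 : (E : ℤ) ∣ k
      · rw [if_pos h4, if_pos h5, if_pos (hiff.mpr ⟨h4, h5⟩)]
        push_cast
        ring
      · rw [if_neg h5, if_neg fun h => h5 (hiff.mp h).2]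
        simp
    · rw [if_neg h4, if_neg fun h => h4 (hiff.mp h).1]
      simp
  · rw [hΘ n h3]
    simp

/-- `P` is the family of expansions attached to the matrix `g`. -/
def IsFam (N : ℕ) (ζ : Oˣ) (g : Matrix (Fin 2) (Fin 2) ℤ) (P : SL(2, ℤ) → O⟦X⟧) : Prop :=
  ∀ (γ γ' : SL(2, ℤ)) (a d e : ℕ) (b : ℤ), N = 3 * d * e →
    g * γ = γ' * !![(a : ℤ), b; 0, (d : ℤ)] → P γ = C (om N ζ γ' : O) * Dser ζ a b e

theorem IsFam.one {a d e : ℕ} {b : ℤ} {P : SL(2, ℤ) → O⟦X⟧}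
    (hP : IsFam N ζ !![(a : ℤ), b; 0, (d : ℤ)] P) (hN : N = 3 * d * e) : P 1 = Dser ζ a b e := by
  rw [hP 1 1 a d e b hN (by simp), om_one, Units.val_one, map_one, one_mul]

/-- The substitution attached to `τ ↦ (a τ + b) / d`. -/
noncomputable def sub (ζ : Oˣ) (a : ℕ) (b : ℤ) (e : ℕ) : ℤ⟦X⟧ →+* O⟦X⟧ :=
  (ex (a * e)).comp ((rescale ((ζ ^ (b * e) : Oˣ) : O)).comp
    (PowerSeries.map (Int.castRingHom O)))

theorem sub_apply (a : ℕ) (b : ℤ) (e : ℕ) (φ : ℤ⟦X⟧) : sub ζ a b e φ =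
    ex (a * e) (rescale ((ζ ^ (b * e) : Oˣ) : O) (PowerSeries.map (Int.castRingHom O) φ)) := rfl

theorem Dser_sub (a : ℕ) (b : ℤ) (e : ℕ) :
    Dser ζ a b e = C ((a : O) ^ 4) * sub ζ a b e (dS ℤ) := by
  rw [sub_apply, map_dS, Dser]

theorem Dser_sub_ex {m a e : ℕ} (hm : m ≠ 0) (h : a * e ≠ 0) (b : ℤ) :
    Dser ζ (m * a) (m * b) e = C (((m * a : ℕ) : O) ^ 4) * sub ζ a b e (ex m (dS ℤ)) := by
  rw [sub_apply, map_ex, map_dS, rescale_ex _ hm, ex_ex h hm, Dser, ← Units.val_pow_eq_pow_val,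
    ← zpow_natCast, ← _root_.zpow_mul, show b * e * m = m * b * e by ring,
    show a * e * m = m * a * e by ring]

end Subb

end

section

/-!
The expansions at a cusp equivalent to infinity at the prime `2` and to `0` at the odd primes.
-/

namespace Subb

open PowerSeries Matrix MatrixGroups Finset

variable {O : Type} [CommRing O] {N : ℕ} {ζ : Oˣ}

theorem fam_gamma (hodd : ∀ n : ℕ, Odd n → IsUnit (n : O)) {a A E r : ℕ} (ha : a ≠ 0)
    (hA : A ≠ 0) (hE : Odd E) (hr : r ≠ 0) (hN : N = 3 * (2 ^ (2 * a) * A * E) * r) {b β : ℤ}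
    {γ : SL(2, ℤ)} (hβ : γ 1 0 = 2 ^ (2 * a) * β) (hco : IsCoprime (γ 1 0) (A : ℤ))
    {P : SL(2, ℤ) → O⟦X⟧}
    (hP : IsFam N ζ !![((2 ^ a * A : ℕ) : ℤ), b; 0, ((2 ^ a * E : ℕ) : ℤ)] P) :
    ∃ Pt : O⟦X⟧, IsUnit (constantCoeff Pt) ∧ P γ = C (2 ^ (4 * a)) *
      (X ^ (2 ^ (2 * a) * r * Int.gcd (A * γ 0 0 + b * 2 ^ a * β) E ^ 2) * Pt) := by
  set g : Matrix (Fin 2) (Fin 2) ℤ := !![((2 ^ a * A : ℕ) : ℤ), b; 0, ((2 ^ a * E : ℕ) : ℤ)]
    with hg
  have hE0 : E ≠ 0 := hE.pos.ne'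
  have hdet : (g * γ : Matrix (Fin 2) (Fin 2) ℤ).det = ((2 ^ a * A * (2 ^ a * E) : ℕ) : ℤ) := by
    rw [det_mul, γ.det_coe, mul_one, hg, det_fin_two_of]
    push_cast
    ring
  obtain ⟨γ', a', d', b', h1, h2, h3⟩ := hnf (g * γ) (by rw [hdet]; positivity)
  set x : ℤ := A * γ 0 0 + b * 2 ^ a * β with hx
  have h00 : (g * γ : Matrix (Fin 2) (Fin 2) ℤ) 0 0 = 2 ^ a * x := by
    simp only [hg, Matrix.mul_apply, Fin.sum_univ_two, of_apply, cons_val', cons_val_zero,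
      cons_val_one, cons_val_fin_one]
    rw [hβ, hx]
    push_cast
    ring
  have h10 : (g * γ : Matrix (Fin 2) (Fin 2) ℤ) 1 0 = 2 ^ a * (E * γ 1 0) := by
    simp only [hg, Matrix.mul_apply, Fin.sum_univ_two, of_apply, cons_val', cons_val_zero,
      cons_val_one, cons_val_fin_one]
    push_cast
    ring
  have hd := γ.det_coe
  rw [det_fin_two] at hd
  have hαβ : IsCoprime (A * γ 0 0) (γ 1 0) :=
    hco.symm.mul_left ⟨γ 1 1, -γ 0 1, by linear_combination hd⟩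
  have hxβ : IsCoprime x (γ 1 0) := by
    obtain ⟨a₁, rfl⟩ := Nat.exists_eq_succ_of_ne_zero ha
    rw [hβ] at hαβ ⊢
    have h4 : IsCoprime (A * γ 0 0) (2 : ℤ) :=
      (IsCoprime.pow_right_iff (by omega)).mp hαβ.of_mul_right_left
    have h5 : IsCoprime x 2 := by
      have := h4.add_mul_left_left (b * 2 ^ a₁ * β)
      rwa [show A * γ 0 0 + 2 * (b * 2 ^ a₁ * β) = x by rw [hx, pow_succ]; ring] at this
    have h6 : IsCoprime x β := by
      have := hαβ.of_mul_right_right.add_mul_left_left (b * 2 ^ a₁.succ)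
      rwa [show A * γ 0 0 + β * (b * 2 ^ a₁.succ) = x by rw [hx]; ring] at this
    exact h5.pow_right.mul_right h6
  have hgcd : Int.gcd x (E * γ 1 0) = Int.gcd x E :=
    Int.gcd_mul_left_right_of_gcd_eq_one (Int.isCoprime_iff_gcd_eq_one.mp hxβ)
  rw [h00, h10, Int.gcd_mul_left, hgcd] at h2
  set a₁ := Int.gcd x E with ha₁
  have h2' : a' = 2 ^ a * a₁ := by rw [h2]; simp
  obtain ⟨E₁, hE₁⟩ : a₁ ∣ E := by exact_mod_cast Int.gcd_dvd_right x E
  have ha0 : a₁ ≠ 0 := by rintro h; rw [h, zero_mul] at hE₁; exact hE0 hE₁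
  have hd' : d' = 2 ^ a * A * E₁ := by
    rw [hdet] at h3
    have h4 : a' * d' = 2 ^ a * A * (2 ^ a * E) := by exact_mod_cast h3
    apply Nat.eq_of_mul_eq_mul_left (show 0 < 2 ^ a * a₁ by positivity)
    rw [← h2', h4, h2']
    nth_rewrite 1 [hE₁]
    ring
  have hN' : N = 3 * d' * (2 ^ a * a₁ * r) := by
    rw [hN, hd']
    nth_rewrite 1 [hE₁]
    ring
  obtain ⟨ψ, hψ, hD⟩ := Dser_eq (ζ := ζ) (a := a') (e := 2 ^ a * a₁ * r)
    (by rw [h2']; positivity) b'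
  refine ⟨C ((om N ζ γ' : O) * (a₁ : O) ^ 4 * (ζ ^ (b' * (2 ^ a * a₁ * r : ℕ)) : Oˣ)) * ψ, ?_, ?_⟩
  · rw [map_mul, constantCoeff_C, hψ, mul_one]
    refine ((Units.isUnit _).mul ((hodd _ ?_).pow 4)).mul (Units.isUnit _)
    exact (Nat.odd_mul.mp (hE₁ ▸ hE)).1
  · rw [hP γ γ' a' d' _ b' hN' h1, hD,
      show a' * (2 ^ a * a₁ * r) = 2 ^ (2 * a) * r * a₁ ^ 2 by rw [h2']; ring, h2']
    simp only [map_mul, map_pow, Nat.cast_mul, Nat.cast_pow, Nat.cast_ofNat]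
    ring

theorem exists_lift {δ U Z : Matrix (Fin 2) (Fin 2) ℤ} {m : ℤ} (hm : m ≠ 0) (hδ : δ.det = m)
    (hU : U.det = m) {γ γ' γ₁ : SL(2, ℤ)} (h : δ * γ = γ' * U)
    (h₁ : (γ₁ : Matrix (Fin 2) (Fin 2) ℤ) = γ + (3 * m) • Z) :
    ∃ γ₂ : SL(2, ℤ), (∀ i j, γ₂ i j ≡ γ' i j [ZMOD 3]) ∧ δ * γ₁ = γ₂ * U := by
  have e : δ * γ₁ = (γ' + (3 : ℤ) • (δ * Z * adjugate U)) * U := by
    rw [h₁, Matrix.mul_add, h, Matrix.add_mul, Matrix.smul_mul, Matrix.mul_assoc _ _ U,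
      adjugate_mul, hU, Matrix.mul_smul, Matrix.mul_smul, Matrix.mul_one, smul_smul]
  have hdet : ((γ' : Matrix (Fin 2) (Fin 2) ℤ) + (3 : ℤ) • (δ * Z * adjugate U)).det = 1 := by
    have := congrArg Matrix.det e
    rw [det_mul, det_mul, γ₁.det_coe, hδ, hU, mul_one] at this
    exact mul_right_cancel₀ hm (this.symm.trans (one_mul m).symm)
  refine ⟨⟨_, hdet⟩, fun i j => ?_, e⟩
  refine Int.modEq_iff_dvd.mpr ⟨-(δ * Z * adjugate U) i j, ?_⟩
  simp only [Matrix.add_apply, Matrix.smul_apply, smul_eq_mul]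
  ring

theorem main_dec {a A m v : ℕ} {β : ℤ} {γ : SL(2, ℤ)} (hβ : γ 1 0 = 2 ^ (2 * a) * β) :
    ∃ (γ₁ : SL(2, ℤ)) (Z : Matrix (Fin 2) (Fin 2) ℤ),
      (γ₁ : Matrix (Fin 2) (Fin 2) ℤ) = γ + (3 * (m : ℤ)) • Z ∧
      !![((2 ^ a * A : ℕ) : ℤ), 3 * m * v * A; 0, ((2 ^ a * A : ℕ) : ℤ)] * γ =
        γ₁ * !![((2 ^ a * A : ℕ) : ℤ), A * (3 * m * v * γ 1 1 ^ 2); 0, ((2 ^ a * A : ℕ) : ℤ)] := by
  have hd := γ.det_coe
  rw [det_fin_two, hβ] at hd
  refine ⟨⟨!![γ 0 0 + 3 * m * (v * 2 ^ a * β),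
      γ 0 1 + 3 * m * (-(v * γ 1 1 * γ 0 1 * 2 ^ a * β) - 3 * m * v ^ 2 * γ 1 1 ^ 2 * β);
      γ 1 0, γ 1 1 + 3 * m * (-(v * γ 1 1 ^ 2 * 2 ^ a * β))], ?_⟩,
    !![v * 2 ^ a * β, -(v * γ 1 1 * γ 0 1 * 2 ^ a * β) - 3 * m * v ^ 2 * γ 1 1 ^ 2 * β;
      0, -(v * γ 1 1 ^ 2 * 2 ^ a * β)], ?_, ?_⟩
  · rw [det_fin_two_of, hβ]
    linear_combination (1 - 3 * m * v * 2 ^ a * β * γ 1 1) * hd
  · ext i j
    fin_cases i <;> fin_cases j <;> simp
  · ext i j
    fin_cases i <;> fin_cases j <;> simp [Matrix.mul_apply, Fin.sum_univ_two, hβ]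
    · ring
    · linear_combination (-(3 * m * v * A * γ 1 1)) * hd
    · ring
    · ring

theorem main_fam (hζ : ζ ^ N = 1) {a A m v : ℕ} (hm : m ≠ 0)
    (hN : N = 3 * (2 ^ a * A) * (2 ^ a * m * A)) {β y : ℤ} {γ γ' : SL(2, ℤ)}
    (hβ : γ 1 0 = 2 ^ (2 * a) * β) (hU : !![(m : ℤ), 0; 0, 1] * γ = γ' * !![1, y; 0, (m : ℤ)])
    {P Q : SL(2, ℤ) → O⟦X⟧}
    (hP : IsFam N ζ !![((2 ^ a * A : ℕ) : ℤ), 3 * m * v * A; 0, ((2 ^ a * A : ℕ) : ℤ)] P)
    (hQ : IsFam N ζ !![((m * (2 ^ a * A) : ℕ) : ℤ), m * (3 * m * v * A);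
      0, ((2 ^ a * A : ℕ) : ℤ)] Q) :
    P γ = C (om N ζ γ : O) * Dser ζ (2 ^ a * A) (A * (3 * m * v * γ 1 1 ^ 2)) (2 ^ a * m * A) ∧
    Q γ = C (om N ζ γ' : O) *
      Dser ζ (2 ^ a * A) (A * (3 * m * v * γ 1 1 ^ 2) + y * (2 ^ a * A)) (2 ^ a * A) := by
  have h3 : 3 ∣ N := ⟨_, by rw [hN, mul_assoc]⟩
  obtain ⟨γ₁, Z, h1, h2⟩ := main_dec (A := A) (m := m) (v := v) hβ
  obtain ⟨γ₂, h4, h5⟩ := exists_lift (m := m) (by exact_mod_cast hm) (by simp) (by simp) hU h1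
  constructor
  · rw [hP γ γ₁ _ _ _ _ hN h2, om_congr h3 hζ (γ' := γ) fun i j => ?_]
    refine Int.modEq_iff_dvd.mpr ⟨-(m * Z i j), ?_⟩
    rw [h1, Matrix.add_apply, Matrix.smul_apply, smul_eq_mul]
    ring
  · rw [hQ γ γ₂ (2 ^ a * A) (m * (2 ^ a * A)) (2 ^ a * A)
      (A * (3 * m * v * γ 1 1 ^ 2) + y * (2 ^ a * A)) (by rw [hN]; ring) ?_, om_congr h3 hζ h4]
    have e1 : !![((m * (2 ^ a * A) : ℕ) : ℤ), m * (3 * m * v * A); 0, ((2 ^ a * A : ℕ) : ℤ)] =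
        !![(m : ℤ), 0; 0, 1] *
          !![((2 ^ a * A : ℕ) : ℤ), 3 * m * v * A; 0, ((2 ^ a * A : ℕ) : ℤ)] := by
      simp
    rw [e1, Matrix.mul_assoc, h2, ← Matrix.mul_assoc, h5, Matrix.mul_assoc]
    congr 1
    simp

end Subb

end

section

/-!
The data of one term of the linear combination.
-/

namespace Subb

open PowerSeries Matrix MatrixGroups Finset

variable {O F : Type} [CommRing O] [Field F] {π : O →+* F} {N : ℕ} {ζ : Oˣ}

theorem term_lt {a k m E t a₁ a₂ : ℕ} (hk : k < m) (ht : t ≠ 0) (h1 : a₁ ≤ a₂) (h2 : a₁ ≤ E)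
    (hE : E ≠ 0) (h : t ≠ 1 ∨ a₁ ≠ E) :
    2 ^ (2 * a) * (m * t) * a₁ ^ 2 <
      k * (2 ^ (2 * a) * t * a₂ ^ 2) + 2 ^ (2 * a) * (E * t) ^ 2 * (m - k) := by
  obtain ⟨r, rfl⟩ := Nat.exists_eq_add_of_lt hk
  have h3 : a₁ ^ 2 < t * E ^ 2 := by
    rcases h with h | h
    · calc a₁ ^ 2 ≤ 1 * E ^ 2 := by rw [one_mul]; exact Nat.pow_le_pow_left h2 2
        _ < t * E ^ 2 := Nat.mul_lt_mul_of_pos_right (by omega) (by positivity)
    · calc a₁ ^ 2 < E ^ 2 := Nat.pow_lt_pow_left (by omega) two_ne_zero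
        _ ≤ t * E ^ 2 := Nat.le_mul_of_pos_left _ (by omega)
  have h4 : a₁ ^ 2 ≤ a₂ ^ 2 := Nat.pow_le_pow_left h1 2
  rw [show k + r + 1 - k = r + 1 by omega]
  calc 2 ^ (2 * a) * ((k + r + 1) * t) * a₁ ^ 2
      = k * (2 ^ (2 * a) * t * a₁ ^ 2) + 2 ^ (2 * a) * t * (r + 1) * a₁ ^ 2 := by ring
    _ < k * (2 ^ (2 * a) * t * a₂ ^ 2) + 2 ^ (2 * a) * t * (r + 1) * (t * E ^ 2) :=
      Nat.add_lt_add_of_le_of_lt (by gcongr) (Nat.mul_lt_mul_of_pos_left h3 (by positivity))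
    _ = _ := by ring

theorem exists_term (S : Sys π N ζ) (hζ : ζ ^ N = 1) (hodd : ∀ n : ℕ, Odd n → IsUnit (n : O))
    {a k m A : ℕ} (ha : a ≠ 0) (hk : k + 1 < m) (hA : Odd A)
    (hN : N = 3 * 2 ^ (2 * a) * m * A ^ 2) {Θ : ℤ⟦X⟧} (hΘ : Θ * dS ℤ = ex m (dS ℤ) ^ (k + 1))
    {β y c : ℤ} {γ γ' : SL(2, ℤ)} (hβ : γ 1 0 = 2 ^ (2 * a) * β)
    (hco : IsCoprime (γ 1 0) ((m * A : ℕ) : ℤ))
    (hU : !![(m : ℤ), 0; 0, 1] * γ = γ' * !![1, y; 0, (m : ℤ)])
    (hδ : ((k + 1 : ℕ) - m : ℤ) * γ 1 1 ^ 2 ≡ c * m [ZMOD 2 ^ a])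
    {E t : ℕ} (hEt : A = E * t) (v u : ℕ) (hu : u < E) :
    ∃ (P Q : SL(2, ℤ) → O⟦X⟧) (p q : ℕ) (Pt Qt : O⟦X⟧), P ∈ S.M 1 ∧ Q ∈ S.M 1 ∧
      P 1 = C (2 ^ (4 * a)) * (C ((A : O) ^ 4) *
        sub ζ (2 ^ a * A) (3 * m * v * E + 2 ^ a * u) (2 ^ a * m * A * t) (dS ℤ)) ∧
      Q 1 ^ (k + 1) = C (2 ^ (4 * a)) ^ (k + 1) * ((C ((A : O) ^ 4) *
        sub ζ (2 ^ a * A) (3 * m * v * E + 2 ^ a * u) (2 ^ a * m * A * t) (dS ℤ)) *
        (C ((A : O) ^ (4 * k) * (m : O) ^ (4 * (k + 1))) *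
          sub ζ (2 ^ a * A) (3 * m * v * E + 2 ^ a * u) (2 ^ a * m * A * t) Θ)) ∧
      P γ = C (2 ^ (4 * a)) * (X ^ p * Pt) ∧ Q γ = C (2 ^ (4 * a)) * (X ^ q * Qt) ∧
      IsUnit (constantCoeff Pt) ∧
      (t = 1 ∧ u = 0 → (k + 1) * q + 2 ^ (2 * a) * A ^ 2 * (m - (k + 1)) = p ∧
        ((ζ ^ (-c * ((3 * m * v * E + 2 ^ a * u) * (2 ^ a * m * A * t : ℕ))) : Oˣ) : O) *
          constantCoeff Qt ^ (k + 1) =
        ((om N ζ γ' ^ (k + 1) * (om N ζ γ)⁻¹ *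
          ζ ^ (((k + 1 : ℕ) : ℤ) * (y * (2 ^ a * A) * (2 ^ a * A))) : Oˣ) : O) * (A : O) ^ (4 * k) *
          constantCoeff Pt) ∧
      (¬(t = 1 ∧ u = 0) → p < (k + 1) * q + 2 ^ (2 * a) * A ^ 2 * (m - (k + 1))) := by
  have hm : m ≠ 0 := by omega
  have hA0 : A ≠ 0 := hA.pos.ne'
  have hE : Odd E := (Nat.odd_mul.mp (hEt ▸ hA)).1
  have hE0 : E ≠ 0 := hE.pos.ne'
  have ht : t ≠ 0 := by rintro rfl; exact hA0 (by rw [hEt, mul_zero])
  set b : ℤ := 3 * m * v * E + 2 ^ a * u with hb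
  have hNe : N = 3 * (2 ^ a * E) * (2 ^ a * m * A * t) := by
    rw [hN]; nth_rewrite 1 [sq, hEt]; rw [← hEt]; nth_rewrite 1 [hEt]; ring
  obtain ⟨P, hPM, hP⟩ := S.fam !![((2 ^ a * A : ℕ) : ℤ), b; 0, ((2 ^ a * E : ℕ) : ℤ)]
    (by rw [det_fin_two_of]; simp; positivity)
    ⟨m * t, by rw [det_fin_two_of, hNe]; push_cast; ring⟩
  obtain ⟨Q, hQM, hQ⟩ := S.fam !![((m * (2 ^ a * A) : ℕ) : ℤ), m * b; 0, ((2 ^ a * E : ℕ) : ℤ)]
    (by rw [det_fin_two_of]; simp; positivity)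
    ⟨t, by rw [det_fin_two_of, hNe]; push_cast; ring⟩
  have hP1 : P 1 = C (2 ^ (4 * a)) * (C ((A : O) ^ 4) *
      sub ζ (2 ^ a * A) b (2 ^ a * m * A * t) (dS ℤ)) := by
    rw [IsFam.one hP hNe, Dser_sub, ← mul_assoc, ← map_mul]
    push_cast
    rw [mul_pow, ← pow_mul, mul_comm a 4]
  have hQ1 : Q 1 ^ (k + 1) = C (2 ^ (4 * a)) ^ (k + 1) * ((C ((A : O) ^ 4) *
      sub ζ (2 ^ a * A) b (2 ^ a * m * A * t) (dS ℤ)) *
      (C ((A : O) ^ (4 * k) * (m : O) ^ (4 * (k + 1))) *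
        sub ζ (2 ^ a * A) b (2 ^ a * m * A * t) Θ)) := by
    rw [IsFam.one hQ hNe, Dser_sub_ex hm (by positivity), mul_pow, ← map_pow (sub _ _ _ _), ← hΘ,
      map_mul (sub _ _ _ _)]
    simp only [map_mul, map_pow, Nat.cast_mul, Nat.cast_pow, Nat.cast_ofNat]
    ring
  by_cases hmain : t = 1 ∧ u = 0
  · obtain ⟨rfl, rfl⟩ := hmain
    rw [mul_one] at hEt
    subst hEt
    have hb' : b = 3 * m * v * A := by rw [hb]; simp
    rw [hb'] at hP hQ
    obtain ⟨h1, h2⟩ := main_fam hζ hm (by rw [hNe, mul_one]) hβ hU hP hQ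
    obtain ⟨ψ, hψ, hD⟩ := Dser_eq (ζ := ζ) (a := 2 ^ a * A) (e := 2 ^ a * m * A) (by positivity)
      (A * (3 * m * v * γ 1 1 ^ 2))
    obtain ⟨ψ', hψ', hD'⟩ := Dser_eq (ζ := ζ) (a := 2 ^ a * A) (e := 2 ^ a * A) (by positivity)
      (A * (3 * m * v * γ 1 1 ^ 2) + y * (2 ^ a * A))
    refine ⟨P, Q, 2 ^ a * A * (2 ^ a * m * A), 2 ^ a * A * (2 ^ a * A),
      C ((om N ζ γ * ζ ^ (A * (3 * m * v * γ 1 1 ^ 2) * (2 ^ a * m * A : ℕ)) : Oˣ) *
        (A : O) ^ 4) * ψ,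
      C ((om N ζ γ' * ζ ^ ((A * (3 * m * v * γ 1 1 ^ 2) + y * (2 ^ a * A)) * (2 ^ a * A : ℕ)) :
        Oˣ) * (A : O) ^ 4) * ψ', hPM, hQM, hP1, hQ1, ?_, ?_, ?_, fun _ => ⟨?_, ?_⟩,
      fun h => absurd ⟨rfl, rfl⟩ h⟩
    · rw [h1, hD]
      simp only [map_mul, map_pow, Nat.cast_mul, Nat.cast_pow, Nat.cast_ofNat, Units.val_mul]
      ring
    · rw [h2, hD']
      simp only [map_mul, map_pow, Nat.cast_mul, Nat.cast_pow, Nat.cast_ofNat, Units.val_mul]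
      ring
    · rw [map_mul, constantCoeff_C, hψ, mul_one]
      exact (Units.isUnit _).mul ((hodd _ hA).pow 4)
    · obtain ⟨r, rfl⟩ := Nat.exists_eq_add_of_lt hk
      rw [show k + 1 + r + 1 - (k + 1) = r + 1 by omega]
      ring
    · obtain ⟨z, hz⟩ := hδ.symm.dvd
      have e : ζ ^ (-c * (b * (2 ^ a * m * A * 1 : ℕ))) * (om N ζ γ' *
          ζ ^ ((A * (3 * m * v * γ 1 1 ^ 2) + y * (2 ^ a * A)) * (2 ^ a * A : ℕ))) ^ (k + 1) =
          om N ζ γ' ^ (k + 1) * (om N ζ γ)⁻¹ *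
            ζ ^ (((k + 1 : ℕ) : ℤ) * (y * (2 ^ a * A) * (2 ^ a * A))) *
            (om N ζ γ * ζ ^ (A * (3 * m * v * γ 1 1 ^ 2) * (2 ^ a * m * A : ℕ))) := by
        have e1 : ζ ^ ((N : ℤ) * (v * z)) = 1 := by
          rw [_root_.zpow_mul, zpow_natCast, hζ, _root_.one_zpow]
        rw [mul_pow, ← zpow_natCast (ζ ^ _), ← _root_.zpow_mul, mul_left_comm, ← _root_.zpow_add,
          mul_mul_mul_comm, inv_mul_cancel_right, ← _root_.zpow_add,
          ← mul_one (ζ ^ (_ * _ + _ * (2 ^ a * m * A : ℕ) : ℤ)), ← e1, ← _root_.zpow_add]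
        congr 2
        rw [hb', hN]
        push_cast at hz ⊢
        linear_combination (3 * m * v * A ^ 2 * 2 ^ a) * hz
      have e2 := congrArg (Units.val : Oˣ → O) e
      rw [Units.val_mul, Units.val_mul _ (_ * _), Units.val_pow_eq_pow_val] at e2
      rw [map_mul constantCoeff, map_mul constantCoeff, constantCoeff_C, constantCoeff_C, hψ, hψ']
      linear_combination (A : O) ^ (4 * (k + 1)) * e2
  · have hcoA : IsCoprime (γ 1 0) (A : ℤ) := by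
      rw [Nat.cast_mul] at hco
      exact hco.of_mul_right_right
    obtain ⟨Pt, hPt, h1⟩ := fam_gamma hodd ha hA0 hE (r := m * t) (by positivity)
      (by rw [hNe]; ring) hβ hcoA hP
    rw [show m * (2 ^ a * A) = 2 ^ a * (m * A) by ring] at hQ
    obtain ⟨Qt, -, h2⟩ := fam_gamma hodd ha (by positivity) hE (r := t) ht
      (by rw [hNe]; ring) hβ hco hQ
    refine ⟨P, Q, _, _, Pt, Qt, hPM, hQM, hP1, hQ1, h1, h2, hPt, fun h => absurd h hmain,
      fun _ => ?_⟩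
    set x : ℤ := A * γ 0 0 + b * 2 ^ a * β with hx
    have hx' : ((m * A : ℕ) : ℤ) * γ 0 0 + m * b * 2 ^ a * β = m * x := by
      rw [hx]; push_cast; ring
    have hle : Int.gcd x E ≤ E := Nat.le_of_dvd hE.pos (by exact_mod_cast Int.gcd_dvd_right x E)
    rw [hx']
    nth_rewrite 1 [hEt]
    refine term_lt hk ht (Nat.le_of_dvd (Int.gcd_pos_of_ne_zero_right _ (by exact_mod_cast hE0))
      (Int.gcd_dvd_gcd_mul_left_left _ _ _)) hle hE0 ?_
    by_contra h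
    push Not at h
    obtain ⟨rfl, h3⟩ := h
    rw [mul_one] at hEt
    subst hEt
    have h4 : (A : ℤ) ∣ x := by rw [← h3]; exact Int.gcd_dvd_left x _
    have h5 : (A : ℤ) ∣ u * γ 1 0 := by
      have e : u * γ 1 0 = x - A * (γ 0 0 + 3 * m * v * 2 ^ a * β) := by
        rw [hx, hb, hβ]; ring
      rw [e]
      exact h4.sub (Dvd.intro _ rfl)
    have h6 : A ∣ u := by exact_mod_cast hcoA.symm.dvd_of_dvd_mul_right h5
    exact hmain ⟨rfl, Nat.eq_zero_of_dvd_of_lt h6 hu⟩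

end Subb

end

section

/-!
The coefficients of `η (m z) ^ (8 k) / η (z) ^ 8` at `n` and `l n` differ modulo `2` for some `n`
in a given progression.
-/

namespace Subb

open PowerSeries Matrix MatrixGroups Finset

theorem siv_sub {Θ : ℤ⟦X⟧} {c n : ℤ} {l : ℕ} (hl : l ≠ 0)
    (h : ∀ i : ℕ, (i : ℤ) ≡ c [ZMOD n] → coeff (l * i) Θ ≡ coeff i Θ [ZMOD 2]) :
    ∃ Z : ℤ⟦X⟧, siv Θ (c * l) (n * l) - ex l (siv Θ c n) = C 2 * Z := by
  have hl' : (l : ℤ) ≠ 0 := by exact_mod_cast hl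
  have h2 : ∀ i, (2 : ℤ) ∣ coeff i (siv Θ (c * l) (n * l) - ex l (siv Θ c n)) := by
    intro i
    rw [map_sub, coeff_ex hl, siv, siv, coeff_mk, coeff_mk]
    by_cases hd : l ∣ i
    · obtain ⟨j, rfl⟩ := hd
      rw [if_pos (Dvd.intro _ rfl), Nat.mul_div_cancel_left _ (Nat.pos_of_ne_zero hl)]
      have hiff : ((l * j : ℕ) : ℤ) ≡ c * l [ZMOD n * l] ↔ (j : ℤ) ≡ c [ZMOD n] := by
        rw [Int.modEq_iff_dvd, Int.modEq_iff_dvd,
          show c * l - ((l * j : ℕ) : ℤ) = (c - j) * l by push_cast; ring,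
          mul_dvd_mul_iff_right hl']
      by_cases hj : (j : ℤ) ≡ c [ZMOD n]
      · rw [if_pos hj, if_pos (hiff.mpr hj)]
        exact (h j hj).symm.dvd
      · rw [if_neg hj, if_neg fun h' => hj (hiff.mp h')]
        simp
    · rw [if_neg hd, if_neg]
      · simp
      · intro h'
        apply hd
        have h3 : (l : ℤ) ∣ c * l - i := (Dvd.intro_left _ rfl).trans h'.dvd
        have h4 := (Dvd.intro_left c rfl : (l : ℤ) ∣ c * l).sub h3
        rw [sub_sub_cancel] at h4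
        exact_mod_cast h4
  choose z hz using h2
  exact ⟨PowerSeries.mk z, by ext i; rw [hz, coeff_C_mul, coeff_mk]⟩

theorem key_sum {O : Type} [CommRing O] [IsDomain O] {N : ℕ} {ζ : Oˣ} (hζ : IsPrimitiveRoot ζ N)
    {a m A E t : ℕ} (hm : Odd m) (hA : Odd A) (hN : N = 3 * 2 ^ (2 * a) * m * A ^ 2)
    (hEt : A = E * t) (Θ : ℤ⟦X⟧) (c : ℤ)
    (hΘ : ∀ n : ℕ, ¬(n : ℤ) ≡ c [ZMOD 3] → coeff n Θ = 0) :
    ∑ s : Fin (2 ^ a) × Fin E,
      C ((ζ ^ (-c * ((3 * m * (s.1 : ℕ) * E + 2 ^ a * (s.2 : ℕ)) *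
        (2 ^ a * m * A * t : ℕ))) : Oˣ) : O) *
        sub ζ (2 ^ a * A) (3 * m * (s.1 : ℕ) * E + 2 ^ a * (s.2 : ℕ)) (2 ^ a * m * A * t) Θ =
      C ((2 ^ a * E : ℕ) : O) * ex (2 ^ a * A * (2 ^ a * m * A))
        (PowerSeries.map (Int.castRingHom O) (ex t (siv Θ c (3 * (2 ^ a * E))))) := by
  have hE : Odd E := (Nat.odd_mul.mp (hEt ▸ hA)).1
  have ht : t ≠ 0 := (Nat.odd_mul.mp (hEt ▸ hA)).2.pos.ne'
  have hA0 := hA.pos
  have hm0 := hm.pos
  have hNe : N = 3 * (2 ^ a * E) * (2 ^ a * m * A * t) := by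
    rw [hN]; nth_rewrite 1 [sq, hEt]; rw [← hEt]; nth_rewrite 1 [hEt]; ring
  have h := congrArg (ex (2 ^ a * A * (2 ^ a * m * A * t)))
    (sieve hζ (by rw [hN]; positivity) hE hNe (m := 3 * m)
      (Odd.mul (by decide) (by exact_mod_cast hm)) Θ c hΘ)
  rw [map_mul, ex_C] at h
  rw [map_ex, ex_ex (by positivity) ht, mul_assoc (2 ^ a * A), ← h, Fintype.sum_prod_type,
    map_sum, sum_range]
  refine sum_congr rfl fun v _ => ?_
  rw [map_sum, sum_range]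
  refine sum_congr rfl fun u _ => ?_
  rw [map_mul, ex_C, sub_apply]

theorem key {j m a M l : ℕ} {c : ℤ} (hj : j ≠ 0) (hm : Odd m) (hjm : 2 ^ j < m) (ha : 4 ≤ a)
    (hM : Odd M) (hl : Odd l) (hl1 : 1 < l) (hl3 : (l : ℤ) ≡ 1 [ZMOD 3])
    (hc : c * l + 1 ≡ 2 ^ j * m [ZMOD 8]) {Θ : ℤ⟦X⟧} (hΘ : Θ * dS ℤ = ex m (dS ℤ) ^ 2 ^ j)
    (h3 : ∀ n : ℕ, ¬(n : ℤ) ≡ c [ZMOD 3] → coeff n Θ = 0)
    (hpar : ∀ n : ℕ, (n : ℤ) ≡ c [ZMOD 3 * (2 ^ a * M)] → coeff (l * n) Θ ≡ coeff n Θ [ZMOD 2]) :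
    False := by
  obtain ⟨k, hk⟩ : ∃ k, 2 ^ j = k + 1 := Nat.exists_eq_succ_of_ne_zero (by positivity)
  set A := M * l with hAdef
  have hA : Odd A := hM.mul hl
  have hA0 := hA.pos
  have hm0 := hm.pos
  set N := 3 * 2 ^ (2 * a) * m * A ^ 2 with hN
  have hN0 : N ≠ 0 := by positivity
  obtain ⟨O, F, _, _, _, _, _, _, ι, π, ζ, hι, hζ, hπ⟩ := exists_base N hN0
  have : CharZero O := ι.charZero
  obtain ⟨S⟩ := exists_sys hι π hN0 hζ
  obtain ⟨D, hD⟩ := exists_good hπ hN0 S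
  have hprim := sysc_root hι hN0 hζ
  have hh := sq_hS F
  have h2 : π 2 = 0 := by rw [map_ofNat]; exact CharTwo.two_eq_zero
  have hodd : ∀ n : ℕ, Odd n → IsUnit (n : O) := by
    rintro n ⟨r, rfl⟩
    by_contra h
    have h4 := (hπ _).mpr h
    push_cast at h4
    rw [map_add, map_mul, h2, zero_mul, zero_add, map_one] at h4
    exact one_ne_zero h4
  have hmZ : Odd (m : ℤ) := by exact_mod_cast hm
  have hst : ((k + 1 : ℕ) - m : ℤ) ≡ c * l * m [ZMOD 8] := by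
    obtain ⟨r, hr⟩ := hc.dvd
    obtain ⟨w, hw⟩ := Int.eight_dvd_sq_sub_one_of_odd hmZ
    rw [← hk]
    refine Int.modEq_iff_dvd.mpr ⟨2 ^ j * w - r * m, ?_⟩
    push_cast
    linear_combination (-m) * hr + 2 ^ j * hw
  obtain ⟨γ, hγ, hco, hδ⟩ := exists_gamma D hD.T_mem (a := 2 * a)
    (good_C hπ hN0 hD ⟨m * A ^ 2, by rw [hN]; ring⟩)
    (good_B hh hπ hprim hN0 hD (by
      obtain ⟨b, rfl⟩ := Nat.exists_eq_add_of_le ha
      exact ⟨2 ^ (2 * b) * m * A ^ 2, by rw [hN]; ring⟩))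
    (n := m * A) (by positivity) (fun p hp hpd => good_A hh hprim.pow_eq_one hN0 hD
      ((hm.mul hA).of_dvd_nat hpd) hp.one_lt
      ((Nat.mul_dvd_mul_left 3 hpd).trans ⟨2 ^ (2 * a) * A, by rw [hN]; ring⟩))
    (s := (k + 1 : ℕ) - m) (t := c * l * m)
    (by rw [← hk]; push_cast; exact (Even.pow_of_ne_zero even_two hj).sub_odd hmZ) hst
  obtain ⟨β, hβ⟩ := good_C hπ hN0 hD (k := 2 * a) ⟨m * A ^ 2, by rw [hN]; ring⟩ γ hγ
  have hδ' := hδ.of_dvd (pow_dvd_pow 2 (show a ≤ 2 * a by omega))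
  obtain ⟨γ', y, hU⟩ : ∃ (γ' : SL(2, ℤ)) (y : ℤ),
      !![(m : ℤ), 0; 0, 1] * γ = γ' * !![1, y; 0, (m : ℤ)] := by
    have hdet : (!![(m : ℤ), 0; 0, 1] * γ : Matrix (Fin 2) (Fin 2) ℤ).det = m := by
      rw [det_mul, γ.det_coe]; simp
    obtain ⟨γ', a', d', y, h4, h5, h6⟩ := hnf (!![(m : ℤ), 0; 0, 1] * γ)
      (by rw [hdet]; exact_mod_cast hm0)
    have hd := γ.det_coe
    rw [det_fin_two] at hd
    have h7 : IsCoprime (m * γ 0 0) (γ 1 0) := by
      rw [Nat.cast_mul] at hco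
      exact hco.of_mul_right_left.symm.mul_left ⟨γ 1 1, -γ 0 1, by linear_combination hd⟩
    have h8 : a' = 1 := by
      refine h5.trans (Eq.trans ?_ (Int.isCoprime_iff_gcd_eq_one.mp h7))
      simp [Matrix.mul_apply, Fin.sum_univ_two]
    rw [hdet, h8, Nat.cast_one, one_mul] at h6
    rw [h8, h6, Nat.cast_one] at h4
    exact ⟨γ', y, h4⟩
  rw [hk] at hΘ hjm
  have hterm := fun (E t : ℕ) (h : A = E * t) (s : Fin (2 ^ a) × Fin E) =>
    exists_term S hprim.pow_eq_one hodd (by omega) hjm hA hN hΘ hβ hco hU hδ' h s.1 s.2 s.2.2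
  choose P Q p q Pt Qt hP hQ hP1 hQ1 hPγ hQγ hu hT hT' using hterm
  have e1 : A = A * 1 := (mul_one A).symm
  obtain ⟨Z, hZ⟩ := siv_sub hl.pos.ne' hpar
  have hx : ((2 ^ a * 2 : ℕ) : O) ≠ 0 := by exact_mod_cast (by positivity)
  set σ : ℕ → ℕ → ℕ → ℕ → ℤ⟦X⟧ →+* O⟦X⟧ := fun E t v u =>
    sub ζ (2 ^ a * A) (3 * m * v * E + 2 ^ a * u) (2 ^ a * m * A * t) with hσ
  set μ : O := (A : O) ^ (4 * k) * (m : O) ^ (4 * (k + 1)) with hμ
  refine absurd (key_abstract hD hγ (ι := (Fin (2 ^ a) × Fin A) ⊕ (Fin (2 ^ a) × Fin M))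
    (Sum.elim (P A 1 e1) (P M l hAdef)) (Sum.elim (Q A 1 e1) (Q M l hAdef))
    (Sum.forall.mpr ⟨hP A 1 e1, hP M l hAdef⟩) (Sum.forall.mpr ⟨hQ A 1 e1, hQ M l hAdef⟩) (k + 1)
    (w := 2 ^ (4 * a)) (pow_ne_zero _ two_ne_zero) hx
    (Sum.elim (fun s => ((ζ ^ (-(c * l) * ((3 * m * (s.1 : ℕ) * A + 2 ^ a * (s.2 : ℕ)) *
        (2 ^ a * m * A * 1 : ℕ))) : Oˣ) : O))
      (fun s => -(l : O) * ((ζ ^ (-c * ((3 * m * (s.1 : ℕ) * M + 2 ^ a * (s.2 : ℕ)) *
        (2 ^ a * m * A * l : ℕ))) : Oˣ) : O)))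
    (Sum.elim (fun s => C ((A : O) ^ 4) * σ A 1 s.1 s.2 (dS ℤ))
      (fun s => C ((A : O) ^ 4) * σ M l s.1 s.2 (dS ℤ)))
    (Sum.elim (fun s => C μ * σ A 1 s.1 s.2 Θ) (fun s => C μ * σ M l s.1 s.2 Θ))
    (Sum.forall.mpr ⟨hP1 A 1 e1, hP1 M l hAdef⟩)
    (Sum.forall.mpr ⟨hQ1 A 1 e1, hQ1 M l hAdef⟩) ?_
    (Sum.elim (p A 1 e1) (p M l hAdef)) (Sum.elim (q A 1 e1) (q M l hAdef))
    (2 ^ (2 * a) * A ^ 2 * (m - (k + 1)))
    (Sum.elim (Pt A 1 e1) (Pt M l hAdef)) (Sum.elim (Qt A 1 e1) (Qt M l hAdef))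
    (Sum.forall.mpr ⟨hPγ A 1 e1, hPγ M l hAdef⟩) (Sum.forall.mpr ⟨hQγ A 1 e1, hQγ M l hAdef⟩)
    (Sum.forall.mpr ⟨hu A 1 e1, hu M l hAdef⟩)
    (univ.map ⟨fun v => Sum.inl (v, ⟨0, hA0⟩), fun v w h => by simpa using h⟩)
    (((om N ζ γ' ^ (k + 1) * (om N ζ γ)⁻¹ *
      ζ ^ (((k + 1 : ℕ) : ℤ) * (y * (2 ^ a * A) * (2 ^ a * A))) : Oˣ) : O) * (A : O) ^ (4 * k))
    ?_ ?_) fun hdiv => ?_
  · have s1 := key_sum hprim hm hA hN e1 Θ (c * l) fun n hn => h3 n fun h => hn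
      (h.trans (by simpa using (hl3.mul_left c).symm))
    have s2 := key_sum hprim hm hA hN hAdef Θ c h3
    rw [ex_one, show (3 * (2 ^ a * A) : ℤ) = 3 * (2 ^ a * M) * l by rw [hAdef]; push_cast; ring,
      eq_add_of_sub_eq hZ] at s1
    refine ⟨C (μ * A) *
      ex (2 ^ a * A * (2 ^ a * m * A)) (PowerSeries.map (Int.castRingHom O) Z), ?_⟩
    rw [Fintype.sum_sum_type]
    simp only [Sum.elim_inl, Sum.elim_inr, map_mul C, mul_assoc (C (-(l : O))),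
      mul_left_comm _ (C μ), ← mul_sum, hσ]
    rw [s1, s2]
    simp only [map_add, map_mul, map_neg, hAdef, Nat.cast_mul, Nat.cast_ofNat,
      map_ofNat]
    ring
  · intro s hs
    obtain ⟨v, -, rfl⟩ := mem_map.mp hs
    exact hT A 1 e1 (v, ⟨0, hA0⟩) ⟨rfl, rfl⟩
  · rintro (s | s) hs
    · refine hT' A 1 e1 s fun h => hs (mem_map.mpr ⟨s.1, mem_univ _, ?_⟩)
      exact congrArg Sum.inl (Prod.ext rfl (Fin.ext h.2.symm))
    · exact hT' M l hAdef s fun h => hl1.ne' h.1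
  · rw [card_map, card_univ, Fintype.card_fin, Nat.cast_mul,
      mul_dvd_mul_iff_left (by exact_mod_cast (by positivity))] at hdiv
    exact (hπ 2).mp h2 (isUnit_of_dvd_unit hdiv ((Units.isUnit _).mul ((hodd A hA).pow _)))

theorem not_const {j m A B r : ℕ} (hj : j ≠ 0) (hm : Odd m) (hjm : 2 ^ j < m) (hA : A ≠ 0)
    (h : ∀ n, reg (2 ^ j * m) (A * n + B) % 2 = r) : False := by
  obtain ⟨Θ, hΘ, h3, h2⟩ := exists_Theta j hm.pos.ne'
  obtain ⟨μ, hμ⟩ : ∃ μ, 2 ^ j * m = μ + 1 :=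
    Nat.exists_eq_succ_of_ne_zero (by have := hm.pos; positivity)
  rw [hμ] at h h2 h3
  simp only [Nat.add_sub_cancel] at h2
  set c := 24 * B + μ with hc
  obtain ⟨a, M, hM, haM⟩ := Nat.exists_eq_two_pow_mul_odd (n := A * (c + 1)) (by positivity)
  have hlt : c < 3 * (2 ^ (a + 4) * M) := by
    rw [pow_add, mul_right_comm, ← haM]
    have := Nat.pos_of_ne_zero hA
    nlinarith
  have hval : ∀ i, coeff (c + 3 * (2 ^ (a + 4) * M) * i) Θ ≡ r [ZMOD 2] := by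
    intro i
    have e : c + 3 * (2 ^ (a + 4) * M) * i = 24 * (A * ((c + 1) * 2 * i) + B) + μ := by
      rw [pow_add, mul_right_comm (2 ^ a), ← haM, hc]; ring
    rw [e]
    refine (h2 _).trans ?_
    rw [← h ((c + 1) * 2 * i)]
    push_cast
    exact (Int.mod_modEq _ _).symm
  have hμZ : (2 : ℤ) ^ j * m = μ + 1 := by exact_mod_cast hμ
  refine key (a := a + 4) (l := 3 * (2 ^ (a + 4) * M) + 1) (c := c) hj hm hjm (by omega) hM
    ⟨3 * (2 ^ (a + 3) * M), by ring⟩ (by omega)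
    (Int.modEq_iff_dvd.mpr ⟨-(2 ^ (a + 4) * M), by push_cast; ring⟩)
    (Int.modEq_iff_dvd.mpr ⟨-(3 * B) - c * (3 * (2 ^ (a + 1) * M)), ?_⟩) hΘ
    (fun n hn => h3 n fun h4 => hn ?_) fun n hn => ?_
  · rw [hμZ, hc]
    push_cast
    ring
  · have h5 : ((n + 1 : ℕ) : ℤ) ≡ (μ + 1 : ℕ) [ZMOD (3 : ℕ)] := Int.natCast_modEq_iff.mpr h4
    obtain ⟨z, hz⟩ := h5.dvd
    refine Int.modEq_iff_dvd.mpr ⟨z + 8 * B, ?_⟩
    rw [hc]
    push_cast at hz ⊢
    linear_combination hz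
  · have h5 : n ≡ c [MOD 3 * (2 ^ (a + 4) * M)] :=
      Int.natCast_modEq_iff.mp (by exact_mod_cast hn)
    have h6 : n = c + 3 * (2 ^ (a + 4) * M) * (n / (3 * (2 ^ (a + 4) * M))) := by
      rw [Nat.ModEq, Nat.mod_eq_of_lt hlt] at h5
      rw [← h5, Nat.mod_add_div]
    have h7 := hval (n / (3 * (2 ^ (a + 4) * M)) + n)
    rw [mul_add, ← add_assoc, ← h6] at h7
    have h8 := hval (n / (3 * (2 ^ (a + 4) * M)))
    rw [← h6] at h8
    rw [add_mul, one_mul, add_comm]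
    exact h7.trans h8.symm

end Subb

end

end
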