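import Mathlib

-- part MP_a23355_nt.Defs
section

section

/-!
Definitions for the parity of `m`-regular partitions in arithmetic progressions.
-/

namespace Subb

open PowerSeries Matrix MatrixGroups

section Ex

variable {R : Type*} [CommRing R]

/-- The substitution `X ↦ X ^ t` (the identity for `t = 0`). -/
noncomputable def ex (t : ℕ) : R⟦X⟧ →+* R⟦X⟧ :=
  if h : t = 0 then RingHom.id _ else (expand t h).toRingHom

theorem ex_eq {t : ℕ} (h : t ≠ 0) (φ : R⟦X⟧) : ex t φ = expand t h φ := by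
  rw [ex, dif_neg h]; rfl

theorem coeff_ex {t : ℕ} (h : t ≠ 0) (φ : R⟦X⟧) (n : ℕ) :
    coeff n (ex t φ) = if t ∣ n then coeff (n / t) φ else 0 := by
  rw [ex_eq h, coeff_expand]

theorem coeff_ex_mul {t : ℕ} (h : t ≠ 0) (φ : R⟦X⟧) (n : ℕ) :
    coeff (t * n) (ex t φ) = coeff n φ := by
  rw [coeff_ex h, if_pos (Dvd.intro _ rfl), Nat.mul_div_cancel_left _ (Nat.pos_of_ne_zero h)]

theorem ex_C (t : ℕ) (r : R) : ex t (C r) = C r := by
  by_cases h : t = 0
  · rw [ex, dif_pos h]; rfl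
  · rw [ex_eq h, expand_C]

theorem ex_X {t : ℕ} (h : t ≠ 0) : ex t (X : R⟦X⟧) = X ^ t := by
  rw [ex_eq h, expand_X]

theorem ex_one (φ : R⟦X⟧) : ex 1 φ = φ := by
  rw [ex_eq one_ne_zero, expand_one_apply]

theorem ex_ex {s t : ℕ} (hs : s ≠ 0) (ht : t ≠ 0) (φ : R⟦X⟧) :
    ex s (ex t φ) = ex (s * t) φ := by
  rw [ex_eq hs, ex_eq ht, ex_eq (mul_ne_zero hs ht), expand_mul s hs t ht]

theorem constantCoeff_ex (t : ℕ) (φ : R⟦X⟧) : constantCoeff (ex t φ) = constantCoeff φ := by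
  by_cases h : t = 0
  · rw [ex, dif_pos h]; rfl
  · rw [ex_eq h, constantCoeff_expand]

theorem ex_injective (t : ℕ) : Function.Injective (ex t : R⟦X⟧ → R⟦X⟧) := by
  by_cases h : t = 0
  · rw [ex, dif_pos h]; exact Function.injective_id
  · intro φ ψ e
    ext n
    rw [← coeff_ex_mul h φ, e, coeff_ex_mul h]

theorem map_ex {S : Type*} [CommRing S] (p : R →+* S) (t : ℕ) (φ : R⟦X⟧) :
    PowerSeries.map p (ex t φ) = ex t (PowerSeries.map p φ) := by
  by_cases h : t = 0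
  · rw [ex, ex, dif_pos h, dif_pos h]; rfl
  · rw [ex_eq h, ex_eq h, map_expand]

theorem rescale_ex (u : R) {t : ℕ} (h : t ≠ 0) (φ : R⟦X⟧) :
    rescale u (ex t φ) = ex t (rescale (u ^ t) φ) := by
  ext n
  rw [coeff_rescale, coeff_ex h, coeff_ex h]
  split_ifs with hd
  · rw [coeff_rescale, ← pow_mul, Nat.mul_div_cancel' hd]
  · rw [mul_zero]

theorem map_rescale {S : Type*} [CommRing S] (p : R →+* S) (u : R) (φ : R⟦X⟧) :
    PowerSeries.map p (rescale u φ) = rescale (p u) (PowerSeries.map p φ) := by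
  ext n
  simp [coeff_rescale]

theorem rescale_C (u r : R) : rescale u (C r) = C r := by
  ext n
  rw [coeff_rescale, coeff_C]
  split_ifs with h
  · rw [h, pow_zero, one_mul]
  · rw [mul_zero]

theorem constantCoeff_rescale (u : R) (φ : R⟦X⟧) :
    constantCoeff (rescale u φ) = constantCoeff φ := by
  rw [← coeff_zero_eq_constantCoeff_apply, coeff_rescale, pow_zero, one_mul,
    coeff_zero_eq_constantCoeff_apply]

theorem ex_aeval (t : ℕ) (y : R⟦X⟧) (a : Polynomial R) :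
    ex t (Polynomial.aeval y a) = Polynomial.aeval (ex t y) a := by
  by_cases h : t = 0
  · rw [ex, dif_pos h]; rfl
  · rw [ex_eq h, ex_eq h, Polynomial.aeval_algHom_apply]

end Ex

section Series

variable (R : Type*) [CommRing R]

/-- Euler's product `∏ (1 - X ^ n)`. -/
noncomputable def fS : R⟦X⟧ := pentagonalSeries R

/-- The expansion of `η ^ 8` in `q ^ (1 / 3)`. -/
noncomputable def dS : R⟦X⟧ := X * ex 3 (fS R ^ 8)

/-- The expansion of `Δ`. -/
noncomputable def yS : R⟦X⟧ := X * fS R ^ 24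

/-- The divisor sum series. -/
noncomputable def hS : R⟦X⟧ := PowerSeries.mk fun n => ((ArithmeticFunction.sigma 1 n : ℕ) : R)

variable {R} {S : Type*} [CommRing S] (p : R →+* S)

theorem map_fS : PowerSeries.map p (fS R) = fS S := by
  ext n
  rw [coeff_map, fS, fS]
  by_cases h : n ∈ Set.range pentagonal
  · obtain ⟨k, rfl⟩ := h
    rw [coeff_pentagonalSeries_pentagonal, coeff_pentagonalSeries_pentagonal, map_intCast]
  · rw [coeff_pentagonalSeries_eq_zero _ h, coeff_pentagonalSeries_eq_zero _ h, map_zero]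

theorem map_dS : PowerSeries.map p (dS R) = dS S := by
  rw [dS, dS, map_mul, map_X, map_ex, map_pow, map_fS]

theorem map_yS : PowerSeries.map p (yS R) = yS S := by
  rw [yS, yS, map_mul, map_X, map_pow, map_fS]

theorem map_hS : PowerSeries.map p (hS R) = hS S := by
  ext n
  simp [hS]

theorem constantCoeff_fS : constantCoeff (fS R) = 1 := by
  have h := coeff_pentagonalSeries_pentagonal R 0
  rw [show pentagonal 0 = 0 from rfl, coeff_zero_eq_constantCoeff_apply] at h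
  rw [fS, h]; simp

theorem dS_cube : dS R ^ 3 = ex 3 (yS R) := by
  rw [dS, yS, map_mul, ex_X three_ne_zero, mul_pow, ← map_pow, ← pow_mul]

end Series

/-- The exponent of the multiplier system of `η ^ 8` (meaningful modulo `3`). -/
def chi (γ : SL(2, ℤ)) : ℤ :=
  (γ 0 0 + γ 1 1) * γ 1 0 - γ 0 1 * γ 1 1 * (γ 1 0 ^ 2 - 1)

theorem chi_one : chi 1 = 0 := by simp [chi]

/-- `φ` is a rational function of `y`. -/
def Rt {F : Type*} [Field F] (y φ : F⟦X⟧) : Prop :=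
  ∃ a b : Polynomial F, Polynomial.aeval y b ≠ 0 ∧
    φ * Polynomial.aeval y b = Polynomial.aeval y a

theorem Rt.of_ex {F : Type*} [Field F] {y φ : F⟦X⟧} {t : ℕ} (h : Rt (ex t y) (ex t φ)) :
    Rt y φ := by
  obtain ⟨a, b, hb, e⟩ := h
  rw [← ex_aeval] at hb
  refine ⟨a, b, fun h0 => hb (by rw [h0, map_zero]), ex_injective t ?_⟩
  rw [map_mul, ex_aeval, ex_aeval, e]

section Sys

variable {O F : Type} [CommRing O] [Field F]

/-- The expansion of `a ^ 4 * η ((a z + b) / d) ^ 8` in `q ^ (1 / N)`, where `N = 3 d e`. -/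
noncomputable def Dser (ζ : Oˣ) (a : ℕ) (b : ℤ) (e : ℕ) : O⟦X⟧ :=
  C ((a : O) ^ 4) * ex (a * e) (rescale ((ζ ^ (b * e) : Oˣ) : O) (dS O))

/-- The multiplier of `η ^ 8`. -/
def om (N : ℕ) (ζ : Oˣ) (γ : SL(2, ℤ)) : Oˣ := ζ ^ (((N / 3 : ℕ) : ℤ) * chi γ)

/-- Families of expansions, at all cusps, of modular forms of level `N` and weight `4 i`. -/
structure Sys (π : O →+* F) (N : ℕ) (ζ : Oˣ) where
  M : ℕ → Set (SL(2, ℤ) → O⟦X⟧)
  zero : ∀ i, (fun _ => 0) ∈ M i
  one : (fun _ => 1) ∈ M 0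
  add : ∀ {i P Q}, P ∈ M i → Q ∈ M i → (fun g => P g + Q g) ∈ M i
  smul : ∀ {i P} (x : O), P ∈ M i → (fun g => C x * P g) ∈ M i
  mul : ∀ {i j P Q}, P ∈ M i → Q ∈ M j → (fun g => P g * Q g) ∈ M (i + j)
  transl : ∀ {i P} (h : SL(2, ℤ)), P ∈ M i → (fun g => P (h * g)) ∈ M i
  sat : ∀ {i} {P : SL(2, ℤ) → O⟦X⟧} {x : O}, x ≠ 0 → (fun g => C x * P g) ∈ M i → P ∈ M i
  inv : ∀ {i P}, P ∈ M i → ∀ γ ∈ CongruenceSubgroup.Gamma N, ∀ g, P (γ * g) = P g
  tr : ∀ {i P}, P ∈ M i → P ModularGroup.T = rescale (ζ : O) (P 1)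
  lvl : ∀ {i P}, P ∈ M i → (∀ g, P g = P 1) →
    ∃ a : Polynomial F, PowerSeries.map π (P 1) = Polynomial.aeval (ex N (yS F)) a
  fam : ∀ g : Matrix (Fin 2) (Fin 2) ℤ, 0 < g.det → 3 * g.det ∣ (N : ℤ) →
    ∃ P ∈ M 1, ∀ (γ γ' : SL(2, ℤ)) (a d e : ℕ) (b : ℤ), N = 3 * d * e →
      g * γ = γ' * !![(a : ℤ), b; 0, (d : ℤ)] → P γ = C (om N ζ γ' : O) * Dser ζ a b e

variable {π : O →+* F} {N : ℕ} {ζ : Oˣ}

theorem Sys.pow (S : Sys π N ζ) {i : ℕ} {P : SL(2, ℤ) → O⟦X⟧} (hP : P ∈ S.M i) (k : ℕ) :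
    (fun g => P g ^ k) ∈ S.M (k * i) := by
  induction k with
  | zero => simpa using S.one
  | succ k ih => simpa only [pow_succ, Nat.succ_mul] using S.mul ih hP

theorem Sys.sum (S : Sys π N ζ) {ι : Type*} (s : Finset ι) {i : ℕ}
    {P : ι → SL(2, ℤ) → O⟦X⟧} (hP : ∀ k ∈ s, P k ∈ S.M i) :
    (fun g => ∑ k ∈ s, P k g) ∈ S.M i := by
  classical
  induction s using Finset.induction_on with
  | empty => simpa using S.zero i
  | insert k s hk ih =>
    simp only [Finset.sum_insert hk]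
    exact S.add (hP k (Finset.mem_insert_self _ _))
      (ih fun l hl => hP l (Finset.mem_insert_of_mem hl))

theorem Sys.prod (S : Sys π N ζ) {ι : Type*} (s : Finset ι) {w : ι → ℕ}
    {P : ι → SL(2, ℤ) → O⟦X⟧} (hP : ∀ k ∈ s, P k ∈ S.M (w k)) :
    (fun g => ∏ k ∈ s, P k g) ∈ S.M (∑ k ∈ s, w k) := by
  classical
  induction s using Finset.induction_on with
  | empty => simpa using S.one
  | insert k s hk ih =>
    simp only [Finset.prod_insert hk, Finset.sum_insert hk]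
    exact S.mul (hP k (Finset.mem_insert_self _ _))
      (ih fun l hl => hP l (Finset.mem_insert_of_mem hl))

/-- The properties of the decomposition group that are used. -/
structure Good (S : Sys π N ζ) (D : Subgroup SL(2, ℤ)) : Prop where
  T_mem : ModularGroup.T ∈ D
  transfer : ∀ {i P}, P ∈ S.M i → ∀ d ∈ D, ∀ x : O, x ≠ 0 → C x ∣ P 1 → C x ∣ P d
  rat : ∀ {i P}, P ∈ S.M i → (∀ d ∈ D, ∀ g, P (d * g) = P g) → ∀ (x : O) (φ : O⟦X⟧), x ≠ 0 →
    P 1 = C x * φ → Rt (ex N (yS F)) (PowerSeries.map π φ)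

theorem om_one : om N ζ 1 = 1 := by simp [om, chi_one]

theorem om_cube (h3 : 3 ∣ N) (hζ : ζ ^ N = 1) (γ : SL(2, ℤ)) : om N ζ γ ^ 3 = 1 := by
  obtain ⟨k, rfl⟩ := h3
  rw [om, Nat.mul_div_cancel_left _ three_pos, ← zpow_natCast, ← _root_.zpow_mul,
    show (k : ℤ) * chi γ * (3 : ℕ) = ((3 * k : ℕ) : ℤ) * chi γ by push_cast; ring,
    _root_.zpow_mul, zpow_natCast, hζ, _root_.one_zpow]

theorem om_congr (h3 : 3 ∣ N) (hζ : ζ ^ N = 1) {γ γ' : SL(2, ℤ)}
    (h : ∀ i j, γ i j ≡ γ' i j [ZMOD 3]) : om N ζ γ = om N ζ γ' := by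
  have hc : chi γ ≡ chi γ' [ZMOD 3] :=
    (((h 0 0).add (h 1 1)).mul (h 1 0)).sub
      (((h 0 1).mul (h 1 1)).mul (((h 1 0).pow 2).sub (Int.ModEq.refl 1)))
  obtain ⟨k, rfl⟩ := h3
  obtain ⟨l, hl⟩ := hc.dvd
  rw [om, om, Nat.mul_div_cancel_left _ three_pos, show chi γ' = chi γ + 3 * l by omega,
    show (k : ℤ) * (chi γ + 3 * l) = k * chi γ + ((3 * k : ℕ) : ℤ) * l by push_cast; ring,
    _root_.zpow_add, _root_.zpow_mul ζ ((3 * k : ℕ) : ℤ), zpow_natCast, hζ, _root_.one_zpow,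
    mul_one]

/-- `Dser` is a monomial times a series with constant term `1`. -/
theorem Dser_eq {a e : ℕ} (h : a * e ≠ 0) (b : ℤ) : ∃ ψ : O⟦X⟧, constantCoeff ψ = 1 ∧
    Dser ζ a b e = C ((a : O) ^ 4 * (ζ ^ (b * e) : Oˣ)) * X ^ (a * e) * ψ := by
  refine ⟨ex (a * e) (rescale ((ζ ^ (b * e) : Oˣ) : O) (ex 3 (fS O ^ 8))), ?_, ?_⟩
  · rw [constantCoeff_ex, constantCoeff_rescale, constantCoeff_ex, map_pow, constantCoeff_fS,
      one_pow]
  · rw [Dser, dS, map_mul (rescale _), rescale_X, map_mul (ex _), map_mul (ex _), ex_C, ex_X h,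
      map_mul C]
    ring

theorem Dser_cube {a e : ℕ} (h : a * e ≠ 0) (b : ℤ) : Dser ζ a b e ^ 3 =
    C ((a : O) ^ 12) * ex (a * e * 3) (rescale ((ζ ^ (b * e * 3) : Oˣ) : O) (yS O)) := by
  rw [Dser, mul_pow, ← map_pow, ← map_pow, ← map_pow, ← pow_mul, dS_cube,
    rescale_ex _ three_ne_zero, ex_ex h three_ne_zero, ← Units.val_pow_eq_pow_val,
    ← zpow_natCast, ← _root_.zpow_mul]
  rfl

end Sys

/-- Hermite normal form of an integer matrix of positive determinant. -/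
theorem hnf (g : Matrix (Fin 2) (Fin 2) ℤ) (hg : 0 < g.det) :
    ∃ (γ : SL(2, ℤ)) (a d : ℕ) (b : ℤ), g = γ * !![(a : ℤ), b; 0, (d : ℤ)] ∧
      a = Int.gcd (g 0 0) (g 1 0) ∧ (a : ℤ) * d = g.det := by
  rw [det_fin_two] at hg ⊢
  have h0 : 0 < Int.gcd (g 0 0) (g 1 0) := by
    rw [Int.gcd_pos_iff]
    by_contra h
    push Not at h
    rw [h.1, h.2] at hg
    simp at hg
  obtain ⟨x, y, hxy, hx, hy⟩ := Int.exists_gcd_one h0
  obtain ⟨u, v, huv⟩ := Int.isCoprime_iff_gcd_eq_one.mpr hxy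
  set a := Int.gcd (g 0 0) (g 1 0) with ha
  have hd : 0 < x * g 1 1 - y * g 0 1 := by
    have : g 0 0 * g 1 1 - g 0 1 * g 1 0 = a * (x * g 1 1 - y * g 0 1) := by
      rw [hx, hy]; ring
    rw [this] at hg
    exact (mul_pos_iff_of_pos_left (by exact_mod_cast h0)).mp hg
  obtain ⟨d, hd'⟩ := Int.eq_ofNat_of_zero_le hd.le
  refine ⟨⟨!![x, -v; y, u], by rw [det_fin_two_of]; linear_combination huv⟩, a, d,
    u * g 0 1 + v * g 1 1, ?_, rfl, ?_⟩
  · ext i j
    fin_cases i <;> fin_cases j <;> simp [Matrix.mul_apply, Fin.sum_univ_two, ← hd']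
    · exact hx
    · linear_combination (-(g 0 1)) * huv
    · exact hy
    · linear_combination (-(g 1 1)) * huv
  · rw [← hd', hx, hy]; ring

end Subb

end

section

/-!
A discrete valuation ring inside `ℂ` above the prime `2` that contains the `N`-th roots of unity.
-/

namespace Subb

open NumberField

lemma dvr_aux (K : Type) [Field K] [NumberField K] (φ : K →+* ℂ) (z : 𝓞 K) (hz : IsUnit z) :
    ∃ (O F : Type) (_ : CommRing O) (_ : IsDomain O) (_ : IsDiscreteValuationRing O)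
      (_ : Field F) (_ : IsAlgClosed F) (_ : CharP F 2) (ι : O →+* ℂ) (π : O →+* F) (ζ : Oˣ),
      Function.Injective ι ∧ ι ζ = φ z ∧ ∀ x, π x = 0 ↔ ¬IsUnit x := by
  have h2 : (Ideal.span {(2 : ℤ)}).IsMaximal :=
    PrincipalIdealRing.isMaximal_of_irreducible Int.prime_two.irreducible
  obtain ⟨P, hP, hP2⟩ := Ideal.exists_ideal_over_maximal_of_isIntegral (S := 𝓞 K)
    (Ideal.span {(2 : ℤ)}) (by
      rw [(RingHom.injective_iff_ker_eq_bot _).1 (algebraMap ℤ (𝓞 K)).injective_int]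
      exact bot_le)
  have hmem : (2 : 𝓞 K) ∈ P := by
    have : (2 : ℤ) ∈ P.comap (algebraMap ℤ (𝓞 K)) := by
      rw [hP2]
      exact Ideal.mem_span_singleton_self _
    simpa using this
  have hne : P ≠ ⊥ := by
    rintro rfl
    exact two_ne_zero (Ideal.mem_bot.1 hmem)
  have hdvr : IsDiscreteValuationRing (Localization.AtPrime P) :=
    IsLocalization.AtPrime.isDiscreteValuationRing_of_dedekind_domain (𝓞 K) hne _
  let ψ : 𝓞 K →+* ℂ := φ.comp (algebraMap (𝓞 K) K)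
  have hψ : Function.Injective ψ := φ.injective.comp RingOfIntegers.coe_injective
  have hu : ∀ y : P.primeCompl, IsUnit (ψ y) := fun y =>
    isUnit_iff_ne_zero.2 fun h => y.2 (by
      have : (y : 𝓞 K) = 0 := hψ (h.trans (map_zero ψ).symm)
      rw [this]
      exact P.zero_mem)
  let O := Localization.AtPrime P
  let F := AlgebraicClosure (IsLocalRing.ResidueField O)
  let π : O →+* F := (algebraMap (IsLocalRing.ResidueField O) F).comp (IsLocalRing.residue O)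
  have hπ : ∀ x, π x = 0 ↔ ¬IsUnit x := fun x => by
    simp only [π, RingHom.comp_apply, map_eq_zero, IsLocalRing.residue_eq_zero_iff,
      IsLocalRing.mem_maximalIdeal, mem_nonunits_iff]
  have hF : ((2 : ℕ) : F) = 0 := by
    have h := (hπ (algebraMap (𝓞 K) O 2)).2 (fun h =>
      (IsLocalization.AtPrime.isUnit_to_map_iff O P 2).1 h hmem)
    rw [map_ofNat, map_ofNat] at h
    exact_mod_cast h
  have hc : CharP F 2 := (CharP.charP_iff_prime_eq_zero Nat.prime_two).2 hF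
  refine ⟨O, F, inferInstance, inferInstance, hdvr, inferInstance, inferInstance, hc,
    IsLocalization.lift hu, π, (hz.map (algebraMap (𝓞 K) O)).unit, ?_, ?_, hπ⟩
  · rw [IsLocalization.lift_injective_iff]
    intro x y
    exact ⟨fun h => by
      rw [IsLocalization.injective O P.primeCompl_le_nonZeroDivisors h], fun h => by rw [hψ h]⟩
  · rw [IsUnit.unit_spec, IsLocalization.lift_eq]
    rfl

/-- A discrete valuation ring in `ℂ` of residue characteristic two containing a root of unity. -/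
theorem exists_base (N : ℕ) (hN : N ≠ 0) :
    ∃ (O F : Type) (_ : CommRing O) (_ : IsDomain O) (_ : IsDiscreteValuationRing O)
      (_ : Field F) (_ : IsAlgClosed F) (_ : CharP F 2) (ι : O →+* ℂ) (π : O →+* F) (ζ : Oˣ),
      Function.Injective ι ∧ ι ζ = Complex.exp (2 * Real.pi * Complex.I / N) ∧
        ∀ x, π x = 0 ↔ ¬IsUnit x := by
  have hz := Complex.isPrimitiveRoot_exp N hN
  set z := Complex.exp (2 * Real.pi * Complex.I / N)
  have hi : IsIntegral ℤ z := hz.isIntegral (Nat.pos_of_ne_zero hN)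
  let K := IntermediateField.adjoin ℚ {z}
  have : FiniteDimensional ℚ K := IntermediateField.adjoin.finiteDimensional hi.tower_top
  have : NumberField K := NumberField.mk
  let w : K := ⟨z, IntermediateField.mem_adjoin_simple_self ℚ z⟩
  have hw : IsIntegral ℤ w :=
    (isIntegral_algHom_iff (K.val.restrictScalars ℤ) Subtype.val_injective).1 hi
  have hp : (⟨w, hw⟩ : 𝓞 K) ^ N = 1 := Subtype.ext (Subtype.ext hz.pow_eq_one)
  exact dvr_aux K K.subtype ⟨w, hw⟩ (IsUnit.of_pow_eq_one hp hN)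

end Subb

end

section

/-!
The decomposition group of the reduction of the expansion at infinity.
-/

namespace Subb

open PowerSeries Matrix MatrixGroups

variable {O F : Type} [CommRing O] [IsDomain O] [IsDiscreteValuationRing O] [Field F]

/-- The closure properties of a system of families of series indexed by a group. -/
structure alg_OK (π : O →+* F) (y : F⟦X⟧) {G : Type} [Group G] (M : ℕ → Set (G → O⟦X⟧)) :
    Prop where
  zero : ∀ i, (fun _ => 0) ∈ M i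
  one : (fun _ => 1) ∈ M 0
  add : ∀ {i P Q}, P ∈ M i → Q ∈ M i → (fun g => P g + Q g) ∈ M i
  mul : ∀ {i j P Q}, P ∈ M i → Q ∈ M j → (fun g => P g * Q g) ∈ M (i + j)
  transl : ∀ {i P} (h : G), P ∈ M i → (fun g => P (h * g)) ∈ M i
  sat : ∀ {i} {P : G → O⟦X⟧} {x : O}, x ≠ 0 → (fun g => C x * P g) ∈ M i → P ∈ M i
  lvl : ∀ {i P}, P ∈ M i → (∀ g, P g = P 1) →
    ∃ a : Polynomial F, PowerSeries.map π (P 1) = Polynomial.aeval y a

theorem alg_red_iff {π : O →+* F} (hπ : ∀ x, π x = 0 ↔ ¬IsUnit x) {ϖ : O} (hϖ : Irreducible ϖ)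
    (φ : O⟦X⟧) : PowerSeries.map π φ = 0 ↔ C ϖ ∣ φ := by
  constructor
  · intro h
    have h1 : ∀ n, ϖ ∣ coeff n φ := fun n => by
      have h2 : π (coeff n φ) = 0 := by rw [← coeff_map, h, map_zero]
      rw [← Ideal.mem_span_singleton, ← hϖ.maximalIdeal_eq]
      exact (hπ _).1 h2
    choose c hc using h1
    exact ⟨PowerSeries.mk c, PowerSeries.ext fun n => by rw [coeff_C_mul, coeff_mk, hc]⟩
  · rintro ⟨ψ, rfl⟩
    rw [map_mul, map_C, (hπ ϖ).2 hϖ.not_isUnit, map_zero, zero_mul]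

theorem alg_prime {π : O →+* F} (hπ : ∀ x, π x = 0 ↔ ¬IsUnit x) {ϖ : O} (hϖ : Irreducible ϖ) :
    Prime (C ϖ : O⟦X⟧) := by
  refine ⟨fun h => hϖ.ne_zero (C_injective (h.trans (map_zero _).symm)), fun h => ?_,
    fun a b h => ?_⟩
  · have := h.map constantCoeff
    rw [constantCoeff_C] at this
    exact hϖ.not_isUnit this
  · rw [← alg_red_iff hπ hϖ, map_mul, mul_eq_zero] at h
    rwa [← alg_red_iff hπ hϖ, ← alg_red_iff hπ hϖ]

section Abstract

variable {π : O →+* F} {y : F⟦X⟧} {G : Type} [Group G] {M : ℕ → Set (G → O⟦X⟧)}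

omit [IsDomain O] [IsDiscreteValuationRing O] in
theorem alg_OK.pow (S : alg_OK π y M) {i : ℕ} {P : G → O⟦X⟧} (hP : P ∈ M i) (k : ℕ) :
    (fun g => P g ^ k) ∈ M (k * i) := by
  induction k with
  | zero => simpa using S.one
  | succ k ih => simpa only [pow_succ, Nat.succ_mul] using S.mul ih hP

omit [IsDomain O] [IsDiscreteValuationRing O] in
theorem alg_OK.sum (S : alg_OK π y M) {ι : Type*} (s : Finset ι) {i : ℕ}
    {P : ι → G → O⟦X⟧} (hP : ∀ k ∈ s, P k ∈ M i) : (fun g => ∑ k ∈ s, P k g) ∈ M i := by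
  classical
  induction s using Finset.induction_on with
  | empty => simpa using S.zero i
  | insert k s hk ih =>
    simp only [Finset.sum_insert hk]
    exact S.add (hP k (Finset.mem_insert_self _ _))
      (ih fun l hl => hP l (Finset.mem_insert_of_mem hl))

omit [IsDomain O] [IsDiscreteValuationRing O] in
theorem alg_OK.prod (S : alg_OK π y M) {ι : Type*} (s : Finset ι) {w : ι → ℕ}
    {P : ι → G → O⟦X⟧} (hP : ∀ k ∈ s, P k ∈ M (w k)) :
    (fun g => ∏ k ∈ s, P k g) ∈ M (∑ k ∈ s, w k) := by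
  classical
  induction s using Finset.induction_on with
  | empty => simpa using S.one
  | insert k s hk ih =>
    simp only [Finset.prod_insert hk, Finset.sum_insert hk]
    exact S.mul (hP k (Finset.mem_insert_self _ _))
      (ih fun l hl => hP l (Finset.mem_insert_of_mem hl))

/-- The elements at which every family vanishing at `1` vanishes, as a monoid. -/
def alg_OK.D₀ (S : alg_OK π y M) : Submonoid G where
  carrier := {d | ∀ i, ∀ P ∈ M i, PowerSeries.map π (P 1) = 0 → PowerSeries.map π (P d) = 0}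
  one_mem' := fun _ _ _ h => h
  mul_mem' := fun {a _} ha hb i P hP h =>
    hb i (fun g => P (a * g)) (S.transl a hP) (by rw [mul_one]; exact ha i P hP h)

variable [Finite G]

/-- The decomposition group. -/
def alg_OK.D (S : alg_OK π y M) : Subgroup G where
  toSubmonoid := S.D₀
  inv_mem' := fun {d} hd => Submonoid.powers_le.2 hd
    ((isOfFinOrder_of_finite d).mem_powers_iff_mem_zpowers.2
      (Subgroup.inv_mem _ (Subgroup.mem_zpowers d)))

omit [IsDomain O] [IsDiscreteValuationRing O] in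
theorem alg_OK.mem_D (S : alg_OK π y M) {d : G} : d ∈ S.D ↔
    ∀ i, ∀ P ∈ M i, PowerSeries.map π (P 1) = 0 → PowerSeries.map π (P d) = 0 := Iff.rfl

omit [IsDomain O] [IsDiscreteValuationRing O] in
/-- An invariant family whose reduction vanishes exactly off the decomposition group. -/
theorem alg_OK.exists_u (S : alg_OK π y M) : ∃ j, ∃ u ∈ M j, (∀ d ∈ S.D, ∀ x, u (d * x) = u x) ∧
    PowerSeries.map π (u 1) ≠ 0 ∧ ∀ g ∉ S.D, PowerSeries.map π (u g) = 0 := by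
  classical
  have := Fintype.ofFinite G
  have h1 : ∀ g : G, ∃ i, ∃ P ∈ M i, PowerSeries.map π (P 1) ≠ 0 ∧
      (g ∉ S.D → PowerSeries.map π (P g) = 0) := fun g => by
    by_cases hg : g ∈ S.D
    · exact ⟨0, _, S.one, by simp, fun h => (h hg).elim⟩
    · have h2 : g⁻¹ ∉ S.D := fun h => hg (by simpa using S.D.inv_mem h)
      rw [S.mem_D] at h2
      push Not at h2
      obtain ⟨i, P, hP, h3, h4⟩ := h2
      exact ⟨i, _, S.transl g⁻¹ hP, by rwa [mul_one], fun _ => by rwa [inv_mul_cancel]⟩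
  choose w P hP h2 h3 using h1
  have hu₀ := S.prod Finset.univ (fun g _ => hP g)
  have h4 : PowerSeries.map π (∏ g, P g 1) ≠ 0 := by
    rw [map_prod]
    exact Finset.prod_ne_zero_iff.2 fun g _ => h2 g
  refine ⟨_, _, S.prod (Finset.univ : Finset S.D) (fun d _ => S.transl (d : G) hu₀),
    fun d hd x => ?_, ?_, fun g hg => ?_⟩
  · exact Fintype.prod_equiv (Equiv.mulRight (⟨d, hd⟩ : S.D)) _ _ fun e => by
      simp [mul_assoc]
  · rw [map_prod]
    refine Finset.prod_ne_zero_iff.2 fun d _ h => h4 ?_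
    have h5 := S.D.inv_mem d.2 _ _ (S.transl (d : G) hu₀) h
    rwa [mul_inv_cancel] at h5
  · rw [map_prod]
    refine Finset.prod_eq_zero (Finset.mem_univ (1 : S.D)) ?_
    rw [map_prod]
    refine Finset.prod_eq_zero (Finset.mem_univ g) ?_
    rw [OneMemClass.coe_one, one_mul]
    exact h3 g hg

theorem alg_OK.div (S : alg_OK π y M) (hπ : ∀ x, π x = 0 ↔ ¬IsUnit x) {ϖ : O}
    (hϖ : Irreducible ϖ) {i s : ℕ} {H : G → O⟦X⟧} (hH : H ∈ M i) (h1 : C ϖ ^ s ∣ H 1)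
    (h2 : ∀ g ∉ S.D, C ϖ ^ s ∣ H g) (g : G) : C ϖ ^ s ∣ H g := by
  induction s generalizing g with
  | zero => simp
  | succ s ih =>
    by_cases hg : g ∈ S.D
    · choose K hK using ih ((pow_dvd_pow _ s.le_succ).trans h1)
        fun g hg => (pow_dvd_pow _ s.le_succ).trans (h2 g hg)
      have hK' : K ∈ M i := S.sat (pow_ne_zero s hϖ.ne_zero)
        (by simpa only [map_pow, ← hK] using hH)
      rw [hK, pow_succ] at h1 ⊢
      rw [mul_dvd_mul_iff_left (pow_ne_zero s (alg_prime hπ hϖ).ne_zero),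
        ← alg_red_iff hπ hϖ] at h1 ⊢
      exact hg i K hK' h1
    · exact h2 g hg

theorem alg_OK.transfer (S : alg_OK π y M) (hπ : ∀ x, π x = 0 ↔ ¬IsUnit x) {i : ℕ}
    {P : G → O⟦X⟧} (hP : P ∈ M i) {d : G} (hd : d ∈ S.D) {x : O} (hx : x ≠ 0)
    (h : C x ∣ P 1) : C x ∣ P d := by
  obtain ⟨ϖ, hϖ⟩ := IsDiscreteValuationRing.exists_irreducible O
  obtain ⟨s, v, rfl⟩ := IsDiscreteValuationRing.eq_unit_mul_pow_irreducible hx hϖ
  obtain ⟨j, u, hu, hu1, hu2, hu3⟩ := S.exists_u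
  rw [map_mul, map_pow, (v.isUnit.map C).mul_left_dvd] at h ⊢
  have h1 := S.div hπ hϖ (S.mul (S.pow hu s) hP) (h.mul_left _)
    (fun g hg => (pow_dvd_pow_of_dvd ((alg_red_iff hπ hϖ _).1 (hu3 g hg)) s).mul_right _) d
  have h2 : ¬C ϖ ∣ u d ^ s := fun h3 => hu2 (by
    have h4 := (alg_red_iff hπ hϖ _).2 ((alg_prime hπ hϖ).dvd_of_dvd_pow h3)
    rwa [← mul_one d, hu1 d hd] at h4)
  exact (alg_prime hπ hϖ).pow_dvd_of_dvd_mul_left s h2 h1

omit [IsDomain O] [IsDiscreteValuationRing O] in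
/-- The trace to level one. -/
theorem alg_OK.trace (S : alg_OK π y M) {i : ℕ} {K : G → O⟦X⟧} (hK : K ∈ M i)
    (h1 : ∀ d ∈ S.D, ∀ x, K (d * x) = K x) (h2 : ∀ g ∉ S.D, PowerSeries.map π (K g) = 0) :
    ∃ a : Polynomial F, PowerSeries.map π (K 1) = Polynomial.aeval y a := by
  classical
  have := Fintype.ofFinite (G ⧸ S.D)
  have h3 : ∀ a : G, K ((a : G ⧸ S.D).out)⁻¹ = K a⁻¹ := fun a => by
    obtain ⟨h, e⟩ := QuotientGroup.mk_out_eq_mul S.D a
    rw [e, _root_.mul_inv_rev, h1 _ (S.D.inv_mem h.2)]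
  have h4 : ∀ x : G, ∑ q : G ⧸ S.D, K (q.out⁻¹ * x) = ∑ q : G ⧸ S.D, K q.out⁻¹ := fun x =>
    Fintype.sum_equiv (MulAction.toPerm x⁻¹) _ _ fun q => by
      rw [MulAction.toPerm_apply, ← MulAction.Quotient.mk_smul_out, h3, smul_eq_mul,
        _root_.mul_inv_rev, inv_inv]
  obtain ⟨a, ha⟩ := S.lvl (S.sum (Finset.univ : Finset (G ⧸ S.D))
    fun q _ => S.transl q.out⁻¹ hK) fun g => (h4 g).trans (h4 1).symm
  refine ⟨a, ?_⟩
  rw [← ha, h4, map_sum, Finset.sum_eq_single ((1 : G) : G ⧸ S.D), h3, inv_one]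
  · refine fun q _ hq => h2 _ fun h => hq ?_
    rw [← q.out_eq', QuotientGroup.eq, mul_one]
    exact h
  · exact fun h => (h (Finset.mem_univ _)).elim

theorem alg_OK.rat (S : alg_OK π y M) (hπ : ∀ x, π x = 0 ↔ ¬IsUnit x) {i : ℕ}
    {P : G → O⟦X⟧} (hP : P ∈ M i) (hD : ∀ d ∈ S.D, ∀ g, P (d * g) = P g) {x : O} {φ : O⟦X⟧}
    (hx : x ≠ 0) (h : P 1 = C x * φ) : Rt y (PowerSeries.map π φ) := by
  obtain ⟨ϖ, hϖ⟩ := IsDiscreteValuationRing.exists_irreducible O
  obtain ⟨s, v, rfl⟩ := IsDiscreteValuationRing.eq_unit_mul_pow_irreducible hx hϖ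
  obtain ⟨j, u, hu, hu1, hu2, hu3⟩ := S.exists_u
  have h0 := pow_ne_zero s (alg_prime hπ hϖ).ne_zero
  have hH := S.mul (S.pow hu (s + 1)) hP
  have h1 : ∀ g ∉ S.D, C ϖ ^ (s + 1) ∣ u g ^ (s + 1) * P g := fun g hg =>
    (pow_dvd_pow_of_dvd ((alg_red_iff hπ hϖ _).1 (hu3 g hg)) _).mul_right _
  have h2 : u 1 ^ (s + 1) * P 1 = C ϖ ^ s * (u 1 ^ (s + 1) * C (v : O) * φ) := by
    rw [h, map_mul, map_pow]; ring
  choose K hK using S.div hπ hϖ hH ⟨_, h2⟩ fun g hg => (pow_dvd_pow _ s.le_succ).trans (h1 g hg)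
  have hK' := S.sat (P := K) (pow_ne_zero s hϖ.ne_zero) (by simpa only [map_pow, ← hK] using hH)
  obtain ⟨a, ha⟩ := S.trace hK'
    (fun d hd g => mul_left_cancel₀ h0 (by rw [← hK, ← hK, hu1 d hd, hD d hd]))
    fun g hg => by
      have h3 := h1 g hg
      rwa [hK, pow_succ, mul_dvd_mul_iff_left h0, ← alg_red_iff hπ hϖ] at h3
  obtain ⟨b, hb⟩ := S.trace hu hu1 hu3
  have h3 : K 1 = u 1 ^ (s + 1) * C (v : O) * φ := mul_left_cancel₀ h0 ((hK 1).symm.trans h2)
  have h4 : Polynomial.aeval y (b ^ (s + 1) * Polynomial.C (π v))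
      = PowerSeries.map π (u 1 ^ (s + 1) * C (v : O)) := by
    rw [map_mul, map_mul, map_pow, map_pow, hb, map_C, Polynomial.aeval_C]
    rfl
  refine ⟨a, b ^ (s + 1) * Polynomial.C (π v), ?_, ?_⟩
  · rw [h4, map_mul, map_pow, map_C]
    exact mul_ne_zero (pow_ne_zero _ hu2) fun h5 =>
      (hπ v).1 (C_injective (h5.trans (map_zero _).symm)) v.isUnit
  · rw [h4, ← ha, h3, ← map_mul, mul_comm]

end Abstract

/-- The decomposition group, pulled back from the finite quotient by `Gamma N`. -/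
theorem exists_good {π : O →+* F} (hπ : ∀ x, π x = 0 ↔ ¬IsUnit x) {N : ℕ} (hN : N ≠ 0)
    {ζ : Oˣ} (S : Sys π N ζ) : ∃ D : Subgroup SL(2, ℤ), Good S D := by
  have : NeZero N := ⟨hN⟩
  have := CongruenceSubgroup.Gamma_normal N
  let M : ℕ → Set (SL(2, ℤ) ⧸ CongruenceSubgroup.Gamma N → O⟦X⟧) :=
    fun i => {P | (fun g : SL(2, ℤ) => P g) ∈ S.M i}
  have A : alg_OK π (ex N (yS F)) M :=
    ⟨S.zero, S.one, S.add, S.mul, fun {i P} h hP => by
      obtain ⟨h, rfl⟩ := QuotientGroup.mk_surjective h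
      exact S.transl h hP, fun hx h => S.sat hx h, fun hP h => S.lvl hP fun g => h _⟩
  have hd : ∀ {i P}, P ∈ S.M i → ∃ Q ∈ M i, ∀ g : SL(2, ℤ), Q g = P g := fun {i P} hP => by
    have h : ∀ g : SL(2, ℤ), P (g : SL(2, ℤ) ⧸ CongruenceSubgroup.Gamma N).out = P g := fun g => by
      obtain ⟨h, e⟩ := QuotientGroup.mk_out_eq_mul (CongruenceSubgroup.Gamma N) g
      rw [e, ← S.inv hP _ (this.conj_mem _ h.2 g) g, inv_mul_cancel_right]
    refine ⟨fun q => P q.out, ?_, h⟩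
    change (fun g : SL(2, ℤ) => P (g : SL(2, ℤ) ⧸ CongruenceSubgroup.Gamma N).out) ∈ S.M i
    rwa [funext h]
  refine ⟨A.D.comap (QuotientGroup.mk' _), fun i P hP h => ?_, fun {i P} hP d hd' x hx h => ?_,
    fun {i P} hP hD x φ hx h => ?_⟩
  · have h1 := S.tr hP
    rw [QuotientGroup.mk'_apply, h1, map_rescale]
    exact (congrArg _ h).trans (map_zero _)
  · obtain ⟨Q, hQ, e⟩ := hd hP
    rw [← e] at h ⊢
    exact A.transfer hπ hQ hd' hx h
  · obtain ⟨Q, hQ, e⟩ := hd hP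
    rw [← e] at h
    refine A.rat hπ hQ (fun d hd' g => ?_) hx h
    obtain ⟨d, rfl⟩ := QuotientGroup.mk_surjective d
    obtain ⟨g, rfl⟩ := QuotientGroup.mk_surjective g
    rw [← QuotientGroup.mk_mul, e, e, hD d hd']

end Subb

end

section

/-!
Group theory: a subgroup of `SL(2, ℤ)` with enough elements.
-/

namespace Subb

open Matrix MatrixGroups

theorem grpa_pow_two_pow {x : ℤ} (hx : x ≡ 9 [ZMOD 16]) (m : ℕ) :
    ∃ w : ℤ, Odd w ∧ x ^ 2 ^ m = 1 + 2 ^ (m + 3) * w := by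
  induction m with
  | zero =>
    obtain ⟨q, hq⟩ := hx.symm.dvd
    exact ⟨2 * q + 1, odd_two_mul_add_one q, by rw [pow_zero, pow_one]; linear_combination hq⟩
  | succ m ih =>
    obtain ⟨w, hw, e⟩ := ih
    refine ⟨2 * (2 ^ (m + 1) * w ^ 2) + w, (even_two_mul _).add_odd hw, ?_⟩
    rw [pow_succ 2 m, pow_mul, e]
    ring

/-- The powers of `x ≡ 9 [ZMOD 16]` fill the class of `1` modulo `8`, modulo every `2 ^ n`. -/
theorem exists_pow_modEq {x s t : ℤ} (hx : x ≡ 9 [ZMOD 16]) (hs : Odd s) (hst : s ≡ t [ZMOD 8])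
    (n : ℕ) : ∃ k : ℕ, s * x ^ k ≡ t [ZMOD 2 ^ n] := by
  have hxo : Odd x := by
    obtain ⟨q, hq⟩ := hx.symm.dvd
    exact ⟨8 * q + 4, by linear_combination hq⟩
  have key : ∀ m : ℕ, ∃ k : ℕ, s * x ^ k ≡ t [ZMOD 2 ^ (m + 3)] := by
    intro m
    induction m with
    | zero => exact ⟨0, by simpa using hst⟩
    | succ m ih =>
      obtain ⟨k, hk⟩ := ih
      obtain ⟨j, hj⟩ := hk.symm.dvd
      rcases Int.even_or_odd j with ⟨i, hi⟩ | hjo
      · refine ⟨k, (Int.modEq_iff_dvd.2 ⟨i, ?_⟩).symm⟩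
        rw [hj, hi]
        ring
      · obtain ⟨w, hw, e⟩ := grpa_pow_two_pow hx m
        obtain ⟨i, hi⟩ := hjo.add_odd ((hs.mul (hxo.pow (n := k))).mul hw)
        refine ⟨k + 2 ^ m, (Int.modEq_iff_dvd.2 ⟨i, ?_⟩).symm⟩
        rw [pow_add, e]
        linear_combination hj + 2 ^ (m + 3) * hi
  obtain ⟨k, hk⟩ := key n
  exact ⟨k, hk.of_dvd (pow_dvd_pow 2 (Nat.le_add_right n 3))⟩

theorem grpa_mul_apply (g h : SL(2, ℤ)) (i j : Fin 2) :
    (g * h) i j = g i 0 * h 0 j + g i 1 * h 1 j := by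
  simp [Matrix.mul_apply, Fin.sum_univ_two]

theorem grpa_det (g : SL(2, ℤ)) : g 0 0 * g 1 1 - g 0 1 * g 1 0 = 1 := by
  have := g.det_coe
  rwa [det_fin_two] at this

theorem grpa_conj (g γ : SL(2, ℤ)) (k : ℤ) (j : Fin 2) :
    (g * ModularGroup.T ^ k * g⁻¹ * γ : SL(2, ℤ)) 1 j =
      γ 1 j + k * g 1 0 * (g 0 0 * γ 1 j - g 1 0 * γ 0 j) := by
  have hT := ModularGroup.coe_T_zpow k
  have t00 : (ModularGroup.T ^ k : SL(2, ℤ)) 0 0 = 1 := by rw [hT]; rfl
  have t01 : (ModularGroup.T ^ k : SL(2, ℤ)) 0 1 = k := by rw [hT]; rfl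
  have t10 : (ModularGroup.T ^ k : SL(2, ℤ)) 1 0 = 0 := by rw [hT]; rfl
  have t11 : (ModularGroup.T ^ k : SL(2, ℤ)) 1 1 = 1 := by rw [hT]; rfl
  have hi := SpecialLinearGroup.SL2_inv_expl g
  have i00 : (g⁻¹ : SL(2, ℤ)) 0 0 = g 1 1 := by rw [hi]; rfl
  have i01 : (g⁻¹ : SL(2, ℤ)) 0 1 = -g 0 1 := by rw [hi]; rfl
  have i10 : (g⁻¹ : SL(2, ℤ)) 1 0 = -g 1 0 := by rw [hi]; rfl
  have i11 : (g⁻¹ : SL(2, ℤ)) 1 1 = g 0 0 := by rw [hi]; rfl
  simp only [grpa_mul_apply, t00, t01, t10, t11, i00, i01, i10, i11]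
  linear_combination γ 1 j * grpa_det g

theorem grpa_pow_apply {D : Subgroup SL(2, ℤ)} {M : ℤ} (hC : ∀ d ∈ D, M ∣ d 1 0) {d : SL(2, ℤ)}
    (hd : d ∈ D) (k : ℕ) : (d ^ k : SL(2, ℤ)) 1 1 ≡ d 1 1 ^ k [ZMOD M] := by
  induction k with
  | zero => simp
  | succ k ih =>
    rw [pow_succ, pow_succ, grpa_mul_apply, ← zero_add (d 1 1 ^ k * d 1 1)]
    exact (Int.modEq_zero_iff_dvd.2 ((hC _ (D.pow_mem hd k)).mul_right _)).add (ih.mul_right _)

/-- An element of `D` with lower left entry prime to `n` and prescribed lower right entry. -/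
theorem exists_gamma (D : Subgroup SL(2, ℤ)) (hT : ModularGroup.T ∈ D) {a : ℕ}
    (hC : ∀ d ∈ D, (2 : ℤ) ^ a ∣ d 1 0) (hB : ∃ d ∈ D, d 1 1 ^ 2 ≡ 9 [ZMOD 16]) {n : ℕ}
    (hn : n ≠ 0) (hA : ∀ p : ℕ, p.Prime → p ∣ n → ∃ d ∈ D, ¬(p : ℤ) ∣ d 1 0) {s t : ℤ}
    (hs : Odd s) (hst : s ≡ t [ZMOD 8]) :
    ∃ γ ∈ D, IsCoprime (γ 1 0) (n : ℤ) ∧ s * γ 1 1 ^ 2 ≡ t [ZMOD 2 ^ a] := by
  have key : ∀ S : Finset ℕ, S ⊆ n.primeFactors →
      ∃ γ ∈ D, (∀ p ∈ S, ¬(p : ℤ) ∣ γ 1 0) ∧ s * γ 1 1 ^ 2 ≡ t [ZMOD 2 ^ a] := by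
    intro S
    induction S using Finset.induction_on with
    | empty =>
      intro _
      obtain ⟨d, hd, h9⟩ := hB
      obtain ⟨k, hk⟩ := exists_pow_modEq h9 hs hst a
      refine ⟨d ^ k, D.pow_mem hd k, by simp, Int.ModEq.trans ?_ hk⟩
      rw [← pow_mul, mul_comm 2 k, pow_mul]
      exact ((grpa_pow_apply hC hd k).pow 2).mul_left s
    | insert p S hpS ih =>
      intro hS
      obtain ⟨γ, hγ, h1, h2⟩ := ih ((Finset.subset_insert p S).trans hS)
      by_cases hp : (p : ℤ) ∣ γ 1 0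
      swap
      · exact ⟨γ, hγ, Finset.forall_mem_insert _ _ _ |>.2 ⟨hp, h1⟩, h2⟩
      have hpn := hS (Finset.mem_insert_self p S)
      have hpp := Nat.prime_of_mem_primeFactors hpn
      have hpz : Prime (p : ℤ) := Nat.prime_iff_prime_int.1 hpp
      obtain ⟨g, hg, hgp⟩ := hA p hpp (Nat.dvd_of_mem_primeFactors hpn)
      set k : ℤ := ∏ q ∈ S, (q : ℤ) with hk
      have hpk : ¬(p : ℤ) ∣ k := by
        rw [hk, hpz.dvd_finsetProd_iff]
        rintro ⟨q, hq, hd⟩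
        have hqp := Nat.prime_of_mem_primeFactors (hS (Finset.mem_insert_of_mem hq))
        rw [Int.natCast_dvd_natCast, Nat.prime_dvd_prime_iff_eq hpp hqp] at hd
        exact hpS (hd ▸ hq)
      have hp0 : ¬(p : ℤ) ∣ γ 0 0 := fun h => by
        apply hpz.not_dvd_one
        rw [← grpa_det γ]
        exact (h.mul_right _).sub (hp.mul_left _)
      refine ⟨g * ModularGroup.T ^ k * g⁻¹ * γ,
        D.mul_mem (D.mul_mem (D.mul_mem hg (D.zpow_mem hT k)) (D.inv_mem hg)) hγ,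
        Finset.forall_mem_insert _ _ _ |>.2 ⟨fun h => ?_, fun q hq h => ?_⟩,
        Int.ModEq.trans ?_ h2⟩
      · rw [grpa_conj, dvd_add_right hp] at h
        rcases hpz.dvd_or_dvd h with h | h
        · exact (hpz.dvd_or_dvd h).elim hpk hgp
        · rw [dvd_sub_right (hp.mul_left _)] at h
          exact (hpz.dvd_or_dvd h).elim hgp hp0
      · rw [grpa_conj, mul_assoc,
          dvd_add_left ((Finset.dvd_prod_of_mem (fun q : ℕ => (q : ℤ)) hq).mul_right _)] at h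
        exact h1 q hq h
      · refine (Int.ModEq.pow 2 ?_).mul_left s
        rw [grpa_conj]
        exact (Int.modEq_iff_dvd.2 (by
          rw [add_sub_cancel_left]
          exact ((hC g hg).mul_left k).mul_right _)).symm
  obtain ⟨γ, hγ, h1, h2⟩ := key _ subset_rfl
  refine ⟨γ, hγ, Int.isCoprime_iff_gcd_eq_one.2 (Nat.eq_one_iff_not_exists_prime_dvd.2 ?_), h2⟩
  intro p hp hd
  have hd' : (p : ℤ) ∣ (Int.gcd (γ 1 0) n : ℕ) := Int.natCast_dvd_natCast.2 hd
  exact h1 p (Nat.mem_primeFactors.2 ⟨hp, Int.natCast_dvd_natCast.1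
    (hd'.trans (Int.gcd_dvd_right _ _)), hn⟩) (hd'.trans (Int.gcd_dvd_left _ _))

end Subb

end

end

-- part MP_a23355_nt.SysC
section

section

/-!
Convergent expansions in `q ^ (1 / N)` of functions on the upper half plane.
-/

namespace Subb

open PowerSeries Complex
open UpperHalfPlane hiding I
open scoped Real Manifold

/-- `φ` is the expansion of `f` in `exp (2 π i τ / N)`. -/
def Exp (N : ℕ) (f : ℍ → ℂ) (φ : ℂ⟦X⟧) : Prop :=
  ∀ τ : ℍ, HasSum (fun n => coeff n φ • Function.Periodic.qParam (N : ℝ) τ ^ n) (f τ)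

variable {N : ℕ} {f g : ℍ → ℂ} {φ ψ : ℂ⟦X⟧}

theorem Exp.fun_eq (hf : Exp N f φ) (hg : Exp N g φ) : f = g :=
  funext fun τ => (hf τ).unique (hg τ)

theorem Exp.bdd (hN : N ≠ 0) (hf : Exp N f φ) : IsBoundedAtImInfty f :=
  isBoundedAtImInfty_of_hasSum_qExpansion (by exact_mod_cast Nat.pos_of_ne_zero hN) hf

theorem exp_congr {u v : ℕ → ℂ} {s : ℂ} (h : HasSum u s) (e : ∀ n, v n = u n) : HasSum v s :=
  (funext e : v = u) ▸ h

theorem Exp.zero : Exp N 0 0 := by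
  intro τ
  simp

theorem Exp.const (c : ℂ) : Exp N (fun _ => c) (C c) := by
  intro τ
  refine exp_congr (hasSum_ite_eq 0 c) fun n => ?_
  rw [coeff_C]
  split_ifs with h <;> simp [h]

theorem Exp.add (hf : Exp N f φ) (hg : Exp N g ψ) : Exp N (f + g) (φ + ψ) := by
  intro τ
  simpa only [map_add, add_smul, Pi.add_apply] using (hf τ).add (hg τ)

theorem Exp.smul (c : ℂ) (hf : Exp N f φ) : Exp N (c • f) (C c * φ) := by
  intro τ
  simpa only [coeff_C_mul, Pi.smul_apply, smul_eq_mul, mul_assoc] using (hf τ).mul_left c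

/-- Cauchy product. -/
theorem Exp.mul (hf : Exp N f φ) (hg : Exp N g ψ) : Exp N (f * g) (φ * ψ) := by
  intro τ
  have h1 := (hf τ).summable.norm
  have h2 := (hg τ).summable.norm
  have h3 := (summable_norm_sum_mul_antidiagonal_of_summable_norm h1 h2).of_norm.hasSum
  rw [← tsum_mul_tsum_eq_tsum_sum_antidiagonal_of_summable_norm h1 h2, (hf τ).tsum_eq,
    (hg τ).tsum_eq] at h3
  refine exp_congr h3 fun n => ?_
  rw [coeff_mul, Finset.sum_smul]
  refine Finset.sum_congr rfl fun p hp => ?_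
  rw [← Finset.HasAntidiagonal.mem_antidiagonal.1 hp, pow_add]
  simp only [smul_eq_mul]
  ring

theorem Exp.pow (hf : Exp N f φ) (k : ℕ) : Exp N (f ^ k) (φ ^ k) := by
  induction k with
  | zero =>
    rw [pow_zero, pow_zero, ← map_one (C (R := ℂ))]
    exact Exp.const 1
  | succ k ih =>
    rw [pow_succ, pow_succ]
    exact ih.mul hf

theorem Exp.X : Exp N (fun τ => Function.Periodic.qParam (N : ℝ) τ) X := by
  intro τ
  refine exp_congr (hasSum_ite_eq 1 _) fun n => ?_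
  rw [coeff_X]
  split_ifs with h <;> simp [h]

theorem exp_surj (hN : N ≠ 0) {q : ℂ} (hq : ‖q‖ < 1) (h0 : q ≠ 0) :
    ∃ τ : ℍ, Function.Periodic.qParam (N : ℝ) τ = q :=
  ⟨⟨_, Function.Periodic.im_invQParam_pos_of_norm_lt_one
    (Nat.cast_pos.2 (Nat.pos_of_ne_zero hN)) hq h0⟩,
    Function.Periodic.qParam_right_inv (Nat.cast_ne_zero.2 hN) h0⟩

/-- The expansion is a power series on the unit disc. -/
theorem Exp.exists_series (hN : N ≠ 0) (hf : Exp N f φ) : ∃ G : ℂ → ℂ,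
    HasFPowerSeriesOnBall G (FormalMultilinearSeries.ofScalars ℂ fun n => coeff n φ) 0 1 ∧
      ∀ τ : ℍ, f τ = G (Function.Periodic.qParam (N : ℝ) τ) := by
  have hs : ∀ q : ℂ, ‖q‖ < 1 → Summable fun n => coeff n φ • q ^ n := by
    intro q hq
    rcases eq_or_ne q 0 with rfl | h0
    · exact summable_of_ne_finset_zero (s := {0}) fun n hn => by
        rw [zero_pow (by simpa using hn), smul_zero]
    · obtain ⟨τ, rfl⟩ := exp_surj hN hq h0
      exact (hf τ).summable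
  refine ⟨fun q => ∑' n, coeff n φ • q ^ n, ⟨?_, one_pos, fun {y} hy => ?_⟩,
    fun τ => (hf τ).tsum_eq.symm⟩
  · refine le_of_forall_lt_imp_le_of_dense fun r hr => ?_
    lift r to NNReal using hr.ne_top
    apply FormalMultilinearSeries.le_radius_of_summable
    simpa [smul_eq_mul, norm_mul, mul_comm] using (hs r (by simpa using hr)).norm
  · rw [← ENNReal.coe_one, Metric.eball_coe, NNReal.coe_one, mem_ball_zero_iff] at hy
    simpa [mul_comm] using (hs y hy).hasSum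

/-- Uniqueness of the expansion. -/
theorem Exp.unique (hN : N ≠ 0) (hf : Exp N f φ) (hg : Exp N f ψ) : φ = ψ := by
  obtain ⟨G, hG, h1⟩ := hf.exists_series hN
  obtain ⟨H, hH, h2⟩ := hg.exists_series hN
  have h3 : G =ᶠ[nhds 0] H := by
    refine (hG.hasFPowerSeriesAt.continuousAt.eventuallyEq_nhds_iff_eventuallyEq_nhdsNE
      hH.hasFPowerSeriesAt.continuousAt).1 ?_
    filter_upwards [self_mem_nhdsWithin, nhdsWithin_le_nhds (Metric.ball_mem_nhds (0 : ℂ) one_pos)]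
      with q h0 hq
    obtain ⟨τ, rfl⟩ := exp_surj hN (mem_ball_zero_iff.1 hq) h0
    rw [← h1, ← h2]
  have h4 := FormalMultilinearSeries.ofScalars_series_injective ℂ ℂ
    (hG.hasFPowerSeriesAt.eq_formalMultilinearSeries_of_eventually hH.hasFPowerSeriesAt h3)
  exact PowerSeries.ext fun n => congrFun h4 n

/-- Functions with an expansion are holomorphic. -/
theorem Exp.mdiff (hN : N ≠ 0) (hf : Exp N f φ) : MDifferentiable 𝓘(ℂ) 𝓘(ℂ) f := by
  obtain ⟨G, hG, h1⟩ := hf.exists_series hN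
  refine UpperHalfPlane.mdifferentiable_iff.2 (DifferentiableOn.congr
    (f := G ∘ Function.Periodic.qParam (N : ℝ)) (hG.differentiableOn.comp
      Function.Periodic.differentiable_qParam.differentiableOn fun z hz => ?_) fun z hz => ?_)
  · rw [← ENNReal.coe_one, Metric.eball_coe, NNReal.coe_one, mem_ball_zero_iff]
    exact Function.Periodic.norm_qParam_lt_one (Nat.cast_pos.2 (Nat.pos_of_ne_zero hN)) hz
  · rw [Function.comp_apply, ofComplex_apply_of_im_pos hz, h1]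
    rfl

theorem exp_reindex {t : ℕ} (ht : t ≠ 0) (φ : ℂ⟦X⟧) (q s : ℂ) :
    HasSum (fun k => coeff k (ex t φ) • q ^ k) s ↔
      HasSum (fun k => coeff k φ • (q ^ t) ^ k) s := by
  rw [← (mul_right_injective₀ ht).hasSum_iff fun k hk => by
    rw [coeff_ex ht, if_neg fun ⟨l, hl⟩ => hk ⟨l, hl.symm⟩, zero_smul]]
  simp only [Function.comp_def, coeff_ex_mul ht, pow_mul]

/-- Change of level. -/
theorem exp_ex_iff {n e : ℕ} (hn : n ≠ 0) (he : e ≠ 0) :
    Exp (n * e) f (ex e φ) ↔ Exp n f φ := by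
  refine forall_congr' fun τ => ?_
  have h : Function.Periodic.qParam ((n * e : ℕ) : ℝ) τ ^ e = Function.Periodic.qParam (n : ℝ) τ := by
    have h1 : (n : ℂ) ≠ 0 := Nat.cast_ne_zero.2 hn
    have h2 : (e : ℂ) ≠ 0 := Nat.cast_ne_zero.2 he
    rw [Function.Periodic.qParam, Function.Periodic.qParam, ← Complex.exp_nat_mul]
    refine congrArg cexp ?_
    push_cast
    field_simp
  rw [exp_reindex he, h]

/-- Composition with `τ ↦ (a τ + b) / d`. -/
theorem Exp.aff {n a d e : ℕ} (b : ℤ) (hN : N ≠ 0) (ha : a ≠ 0) (hnde : N = n * d * e)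
    (hf : Exp n f φ) (w : ℍ → ℍ) (hw : ∀ τ : ℍ, (w τ : ℂ) = (a * τ + b) / d) :
    Exp N (fun τ => f (w τ))
      (ex (a * e) (rescale (cexp (2 * π * I / N) ^ (b * e : ℤ)) φ)) := by
  intro τ
  have h0 := hnde ▸ hN
  have h1 : (n : ℂ) ≠ 0 := Nat.cast_ne_zero.2 (mul_ne_zero_iff.1 (mul_ne_zero_iff.1 h0).1).1
  have h2 : (d : ℂ) ≠ 0 := Nat.cast_ne_zero.2 (mul_ne_zero_iff.1 (mul_ne_zero_iff.1 h0).1).2
  have he : e ≠ 0 := (mul_ne_zero_iff.1 h0).2
  have h3 : (e : ℂ) ≠ 0 := Nat.cast_ne_zero.2 he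
  have h : Function.Periodic.qParam (n : ℝ) (w τ) = cexp (2 * π * I / N) ^ (b * e : ℤ) *
      Function.Periodic.qParam (N : ℝ) τ ^ (a * e) := by
    rw [Function.Periodic.qParam, Function.Periodic.qParam, ← Complex.exp_nat_mul,
      ← Complex.exp_int_mul, ← Complex.exp_add, hw, hnde]
    refine congrArg cexp ?_
    push_cast
    field_simp
    ring
  rw [exp_reindex (mul_ne_zero ha he)]
  refine exp_congr (hf (w τ)) fun k => ?_
  rw [coeff_rescale, h, mul_pow]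
  simp only [smul_eq_mul]
  ring

end Subb

end

section

/-!
The expansions of `η ^ 8` and `Δ`.
-/

namespace Subb

open PowerSeries Complex
open UpperHalfPlane hiding I
open scoped Real

theorem expeta_shift {E : Type*} [NormedAddCommGroup E] {g : ℕ → E} {a : E} (m : ℕ)
    (h : HasSum g a) : HasSum (fun n => if m ≤ n then g (n - m) else 0) a := by
  rw [← hasSum_nat_add_iff' m, Finset.sum_eq_zero fun i hi =>
    if_neg (not_le.2 (Finset.mem_range.1 hi)), sub_zero]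
  simpa only [Nat.le_add_left, if_true, Nat.add_sub_cancel] using h

theorem expeta_coeff (φ : ℂ⟦X⟧) (m n : ℕ) : coeff n (φ * (1 - X ^ m)) =
    coeff n φ - if m ≤ n then coeff (n - m) φ else 0 := by
  rw [mul_sub, mul_one, map_sub, coeff_mul_X_pow']

/-- The finite products are the sums of their expansions. -/
theorem expeta_fin (q : ℂ) (K : ℕ) :
    HasSum (fun n => coeff n (∏ i ∈ Finset.range K, (1 - X ^ (i + 1) : ℂ⟦X⟧)) * q ^ n)
      (∏ i ∈ Finset.range K, (1 - q ^ (i + 1))) := by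
  induction K with
  | zero =>
    rw [Finset.prod_range_zero, Finset.prod_range_zero]
    have h := hasSum_single (f := fun n => coeff n (1 : ℂ⟦X⟧) * q ^ n) 0
      fun n hn => by rw [coeff_one, if_neg hn, zero_mul]
    rwa [coeff_one, if_pos rfl, pow_zero, mul_one] at h
  | succ K ih =>
    rw [Finset.prod_range_succ, Finset.prod_range_succ, mul_sub _ (1 : ℂ), mul_one]
    refine (ih.sub (expeta_shift (K + 1) (ih.mul_right (q ^ (K + 1))))).congr_fun ?_
    intro n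
    rw [expeta_coeff]
    split_ifs with h
    · rw [mul_assoc, ← pow_add, Nat.sub_add_cancel h, sub_mul]
    · rw [sub_zero, sub_zero]

/-- The majorant of the finite products. -/
theorem expeta_bd {ρ : ℝ} (h0 : 0 ≤ ρ) (K : ℕ) : ∃ b ≤ ∏ i ∈ Finset.range K, (1 + ρ ^ (i + 1)),
    HasSum (fun n => ‖coeff n (∏ i ∈ Finset.range K, (1 - X ^ (i + 1) : ℂ⟦X⟧))‖ * ρ ^ n) b := by
  induction K with
  | zero =>
    refine ⟨1, by rw [Finset.prod_range_zero], ?_⟩
    rw [Finset.prod_range_zero]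
    have h := hasSum_single (f := fun n => ‖coeff n (1 : ℂ⟦X⟧)‖ * ρ ^ n) 0
      fun n hn => by rw [coeff_one, if_neg hn, norm_zero, zero_mul]
    rwa [coeff_one, if_pos rfl, pow_zero, mul_one, norm_one] at h
  | succ K ih =>
    obtain ⟨b, hb, ih⟩ := ih
    have h1 := ih.add (expeta_shift (K + 1) (ih.mul_right (ρ ^ (K + 1))))
    have h2 : ∀ n, ‖coeff n (∏ i ∈ Finset.range (K + 1), (1 - X ^ (i + 1) : ℂ⟦X⟧))‖ * ρ ^ n ≤
        ‖coeff n (∏ i ∈ Finset.range K, (1 - X ^ (i + 1) : ℂ⟦X⟧))‖ * ρ ^ n +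
          if K + 1 ≤ n then ‖coeff (n - (K + 1))
            (∏ i ∈ Finset.range K, (1 - X ^ (i + 1) : ℂ⟦X⟧))‖ * ρ ^ (n - (K + 1)) * ρ ^ (K + 1)
          else 0 := by
      intro n
      rw [Finset.prod_range_succ, expeta_coeff]
      split_ifs with h
      · rw [mul_assoc, ← pow_add, Nat.sub_add_cancel h, ← add_mul]
        exact mul_le_mul_of_nonneg_right (norm_sub_le _ _) (pow_nonneg h0 _)
      · rw [sub_zero, add_zero]
    have h3 := Summable.of_nonneg_of_le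
      (fun n => mul_nonneg (norm_nonneg _) (pow_nonneg h0 _)) h2 h1.summable
    refine ⟨_, (hasSum_le h2 h3.hasSum h1).trans ?_, h3.hasSum⟩
    rw [Finset.prod_range_succ, mul_add, mul_one]
    exact add_le_add hb (mul_le_mul_of_nonneg_right hb (pow_nonneg h0 _))

theorem expeta_bd' {ρ : ℝ} (h0 : 0 ≤ ρ) (h1 : ρ < 1) (K n : ℕ) :
    ‖coeff n (∏ i ∈ Finset.range K, (1 - X ^ (i + 1) : ℂ⟦X⟧))‖ * ρ ^ n ≤ Real.exp (1 - ρ)⁻¹ := by
  obtain ⟨b, hb, h⟩ := expeta_bd h0 K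
  refine (le_hasSum h n fun _ _ => mul_nonneg (norm_nonneg _) (pow_nonneg h0 _)).trans
    (hb.trans ((Real.prod_one_add_le_exp_sum _ fun i => pow_nonneg h0 _).trans
      (Real.exp_le_exp.2 ?_)))
  exact (Finset.sum_le_sum fun i _ => pow_le_pow_of_le_one h0 h1.le (Nat.le_succ i)).trans
    (sum_le_hasSum _ (fun i _ => pow_nonneg h0 i) (hasSum_geometric_of_lt_one h0 h1))

/-- The pentagonal number theorem in the unit disc. -/
theorem expeta_pent {q : ℂ} (hq : ‖q‖ < 1) :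
    HasSum (fun n => coeff n (fS ℂ) * q ^ n) (∏' n, (1 - q ^ (n + 1))) := by
  obtain ⟨ρ, h1, h2⟩ := exists_between hq
  have h0 : 0 < ρ := (norm_nonneg q).trans_lt h1
  have hs : Summable fun n : ℕ => Real.exp (1 - ρ)⁻¹ * (‖q‖ / ρ) ^ n :=
    (summable_geometric_of_lt_one (div_nonneg (norm_nonneg q) h0.le)
      ((div_lt_one h0).2 h1)).mul_left _
  have hb : ∀ K n : ℕ, ‖coeff n (∏ i ∈ Finset.range K, (1 - X ^ (i + 1) : ℂ⟦X⟧)) * q ^ n‖ ≤
      Real.exp (1 - ρ)⁻¹ * (‖q‖ / ρ) ^ n := by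
    intro K n
    refine le_trans (le_of_eq ?_) (mul_le_mul_of_nonneg_right (expeta_bd' h0.le h2 K n)
      (pow_nonneg (div_nonneg (norm_nonneg q) h0.le) n))
    rw [norm_mul, norm_pow, mul_assoc, ← mul_pow, mul_div_cancel₀ _ h0.ne']
  have ht : ∀ n : ℕ, Filter.Tendsto
      (fun K => coeff n (∏ i ∈ Finset.range K, (1 - X ^ (i + 1) : ℂ⟦X⟧)) * q ^ n) Filter.atTop
      (nhds (coeff n (fS ℂ) * q ^ n)) := fun n =>
    (tendsto_nhds_of_eventually_eq (Filter.tendsto_finset_range.eventually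
      (coeff_prod_one_sub_X_pow_eventually_eq ℂ n))).mul_const _
  have h3 := tendsto_tsum_of_dominated_convergence hs ht (Filter.Eventually.of_forall hb)
  simp only [(expeta_fin q _).tsum_eq] at h3
  rw [tendsto_nhds_unique (ModularForm.multipliable_one_sub_pow hq).tendsto_prod_tprod_nat h3]
  exact (Summable.of_norm_bounded hs fun n => le_of_tendsto' (ht n).norm fun K => hb K n).hasSum

/-- The expansion of Euler's product. -/
theorem exp_fS : Exp 1 (fun τ => ∏' n, (1 - ModularForm.eta_q n τ)) (fS ℂ) := by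
  intro τ
  rw [Nat.cast_one]
  exact expeta_pent (by exact_mod_cast norm_qParam_lt_one 1 τ)

/-- The expansion of `η ^ 8` in `q ^ (1 / 3)`. -/
theorem exp_eta : Exp 3 (fun τ => ModularForm.eta τ ^ 8) (dS ℂ) := by
  have h := (Exp.X (N := 1 * 3)).mul
    ((exp_ex_iff one_ne_zero three_ne_zero).2 (exp_fS.pow 8))
  have e : (fun τ : ℍ => ModularForm.eta τ ^ 8) =
      (fun τ : ℍ => Function.Periodic.qParam ((1 * 3 : ℕ) : ℝ) τ) *
        (fun τ : ℍ => ∏' n, (1 - ModularForm.eta_q n τ)) ^ 8 := by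
    funext τ
    rw [Pi.mul_apply, Pi.pow_apply, ModularForm.eta, mul_pow, Function.Periodic.qParam,
      Function.Periodic.qParam, ← Complex.exp_nat_mul]
    refine congrArg (fun z => cexp z * _) ?_
    push_cast
    ring
  rw [e]
  exact h

theorem exp_delta : Exp 1 ModularForm.discriminant (yS ℂ) := by
  have h := (Exp.X (N := 1)).mul (exp_fS.pow 24)
  have e : ModularForm.discriminant =
      (fun τ : ℍ => Function.Periodic.qParam ((1 : ℕ) : ℝ) τ) *
        (fun τ : ℍ => ∏' n, (1 - ModularForm.eta_q n τ)) ^ 24 := by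
    funext τ
    rw [Pi.mul_apply, Pi.pow_apply, ModularForm.discriminant, ModularForm.eta, mul_pow,
      Function.Periodic.qParam, Function.Periodic.qParam, ← Complex.exp_nat_mul]
    refine congrArg (fun z => cexp z * _) ?_
    push_cast
    ring
  rw [e]
  exact h

end Subb

end

section

/-!
The forms `η ^ 8 ∣ g` for integer matrices `g` of positive determinant.
-/

namespace Subb

open PowerSeries Complex Matrix MatrixGroups ModularForm
open UpperHalfPlane hiding I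
open scoped Real

/-- `det g ^ 4 * (c τ + d) ^ (-4) * η (g τ) ^ 8`. -/
noncomputable def Dm (g : Matrix (Fin 2) (Fin 2) ℤ) (τ : ℍ) : ℂ :=
  (g.det : ℂ) ^ 4 * (((g 1 0 : ℂ) * τ + g 1 1) ^ 4)⁻¹ *
    ModularForm.eta (((g 0 0 : ℂ) * τ + g 0 1) / ((g 1 0 : ℂ) * τ + g 1 1)) ^ 8

theorem eta_den_ne {g : Matrix (Fin 2) (Fin 2) ℤ} (hg : g.det ≠ 0) (τ : ℍ) :
    (g 1 0 : ℂ) * τ + g 1 1 ≠ 0 := by
  intro h
  have h1 := congrArg Complex.im h
  have h2 := congrArg Complex.re h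
  simp only [add_im, mul_im, intCast_re, intCast_im, coe_im, zero_mul, add_zero, zero_im,
    mul_eq_zero, Int.cast_eq_zero, τ.im_ne_zero, or_false] at h1
  simp only [h1, Int.cast_zero, zero_mul, zero_add, intCast_re, zero_re, Int.cast_eq_zero] at h2
  exact hg (by rw [det_fin_two, h1, h2]; ring)

theorem eta_exists_pt {g : Matrix (Fin 2) (Fin 2) ℤ} (hg : 0 < g.det) (τ : ℍ) :
    ∃ w : ℍ, (w : ℂ) = ((g 0 0 : ℂ) * τ + g 0 1) / ((g 1 0 : ℂ) * τ + g 1 1) := by
  have hn := Complex.normSq_pos.mpr (eta_den_ne hg.ne' τ)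
  have him : (((g 0 0 : ℂ) * τ + g 0 1) / ((g 1 0 : ℂ) * τ + g 1 1)).im =
      (g.det : ℝ) * τ.im / Complex.normSq ((g 1 0 : ℂ) * τ + g 1 1) := by
    rw [Complex.div_im, det_fin_two, ← sub_div]
    simp only [add_im, mul_im, intCast_re, intCast_im, coe_im, coe_re, zero_mul, add_zero, add_re,
      mul_re, sub_zero]
    push_cast
    ring
  refine ⟨⟨_, ?_⟩, rfl⟩
  rw [him]
  exact div_pos (mul_pos (by exact_mod_cast hg) τ.im_pos) hn

/-- The cocycle identity. -/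
theorem eta_cocycle {g h : Matrix (Fin 2) (Fin 2) ℤ} (hg : g.det ≠ 0) (hh : h.det ≠ 0) {τ w : ℍ}
    (hw : (w : ℂ) = ((h 0 0 : ℂ) * τ + h 0 1) / ((h 1 0 : ℂ) * τ + h 1 1)) :
    Dm (g * h) τ = (h.det : ℂ) ^ 4 * (((h 1 0 : ℂ) * τ + h 1 1) ^ 4)⁻¹ * Dm g w := by
  have hD := eta_den_ne hh τ
  have hE := eta_den_ne hg w
  have e1 : (((g * h) 1 0 : ℤ) : ℂ) * τ + ((g * h) 1 1 : ℤ) =
      ((h 1 0 : ℂ) * τ + h 1 1) * ((g 1 0 : ℂ) * w + g 1 1) := by
    rw [hw, mul_add, mul_left_comm, mul_div_cancel₀ _ hD]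
    simp only [Matrix.mul_apply, Fin.sum_univ_two]
    push_cast
    ring
  have e2 : (((g * h) 0 0 : ℤ) : ℂ) * τ + ((g * h) 0 1 : ℤ) =
      ((h 1 0 : ℂ) * τ + h 1 1) * ((g 0 0 : ℂ) * w + g 0 1) := by
    rw [hw, mul_add, mul_left_comm, mul_div_cancel₀ _ hD]
    simp only [Matrix.mul_apply, Fin.sum_univ_two]
    push_cast
    ring
  rw [Dm, Dm, e1, e2, mul_div_mul_left _ _ hD, det_mul, mul_pow, mul_inv, Int.cast_mul]
  ring

/-- The slash action on `Dm`. -/
theorem Dm_slash {g : Matrix (Fin 2) (Fin 2) ℤ} (hg : 0 < g.det) (γ : SL(2, ℤ)) :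
    Dm g ∣[(4 : ℤ)] γ = Dm (g * γ) := by
  funext τ
  have hw : ((γ • τ : ℍ) : ℂ) = ((γ.1 0 0 : ℂ) * τ + γ.1 0 1) / ((γ.1 1 0 : ℂ) * τ + γ.1 1 1) := by
    rw [coe_specialLinearGroup_apply]
    simp
  have hd : denom γ τ = (γ.1 1 0 : ℂ) * τ + γ.1 1 1 := by
    simp [denom]
  rw [SL_slash_apply, eta_cocycle hg.ne' (by rw [γ.2]; exact one_ne_zero) hw, hd, γ.2,
    _root_.zpow_neg, zpow_ofNat]
  push_cast
  ring

theorem eta_Dm_one (τ : ℍ) : Dm 1 τ = ModularForm.eta τ ^ 8 := by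
  simp [Dm]

theorem eta_om_cube : cexp (2 * π * I / 3) ^ (3 : ℤ) = 1 := by
  rw [zpow_ofNat, ← exp_nat_mul, ← exp_two_pi_mul_I]
  congr 1
  push_cast
  ring

theorem eta_om_congr {m n : ℤ} (h : (m : ZMod 3) = n) :
    cexp (2 * π * I / 3) ^ m = cexp (2 * π * I / 3) ^ n := by
  obtain ⟨k, hk⟩ := ((ZMod.intCast_eq_intCast_iff m n 3).mp h).dvd
  rw [show n = m + 3 * k by push_cast at hk; omega, zpow_add₀ (exp_ne_zero _), _root_.zpow_mul,
    eta_om_cube, _root_.one_zpow, mul_one]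

theorem eta_T : Dm 1 ∣[(4 : ℤ)] ModularGroup.T = cexp (2 * π * I / 3) • Dm 1 := by
  funext z
  have hq : ∀ n, eta_q n (1 + z : ℂ) = eta_q n z := fun n => by
    rw [eta_q_eq_pow, eta_q_eq_pow, ← exp_periodic (2 * π * I * z)]
    congr 2
    ring
  have hp : Function.Periodic.qParam 24 (1 + z : ℂ) ^ 8 =
      cexp (2 * π * I / 3) * Function.Periodic.qParam 24 (z : ℂ) ^ 8 := by
    rw [Function.Periodic.qParam, Function.Periodic.qParam, ← exp_nat_mul, ← exp_nat_mul,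
      ← exp_add]
    congr 1
    push_cast
    ring
  have hd : denom ModularGroup.T z = 1 := by simp [denom, ModularGroup.T]
  rw [SL_slash_apply, hd, modular_T_smul, Pi.smul_apply, eta_Dm_one, eta_Dm_one, coe_vadd,
    ofReal_one, ModularForm.eta, ModularForm.eta, mul_pow, mul_pow, hp, _root_.one_zpow, mul_one,
    smul_eq_mul, mul_assoc]
  simp only [hq]

theorem eta_sqrt_pow {z : ℂ} (hz : z ≠ 0) : sqrt z ^ 8 = z ^ 4 := by
  rw [sqrt_eq_exp hz, ← exp_nat_mul,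
    show ((8 : ℕ) : ℂ) * (log z / 2) = (4 : ℕ) * log z by push_cast; ring, exp_nat_mul,
    exp_log hz]

theorem eta_S : Dm 1 ∣[(4 : ℤ)] ModularGroup.S = Dm 1 := by
  funext z
  have he : ModularForm.eta (-(z : ℂ))⁻¹ = (sqrt I)⁻¹ * (sqrt z * ModularForm.eta z) := by
    simpa [neg_div] using eta_comp_eq_csqrt_I_inv z.2
  rw [SL_slash_apply, modular_S_smul, ModularGroup.denom_S, eta_Dm_one, eta_Dm_one, coe_mk, he,
    mul_pow, mul_pow, inv_pow, eta_sqrt_pow I_ne_zero, eta_sqrt_pow z.ne_zero, I_pow_four,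
    _root_.zpow_neg, zpow_ofNat]
  field_simp [z.ne_zero]

theorem eta_det_three (γ : SL(2, ℤ)) :
    (γ 0 0 : ZMod 3) * (γ 1 1 : ZMod 3) - (γ 0 1 : ZMod 3) * (γ 1 0 : ZMod 3) = 1 := by
  have h := γ.2
  rw [det_fin_two] at h
  exact_mod_cast congrArg (Int.cast : ℤ → ZMod 3) h

theorem eta_mul_apply (γ x : SL(2, ℤ)) (i j : Fin 2) :
    (γ * x) i j = γ i 0 * x 0 j + γ i 1 * x 1 j := by
  have h : (γ * x) i j = (γ.1 * x.1) i j := rfl
  rw [h, Matrix.mul_apply, Fin.sum_univ_two]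

theorem eta_chi_T (γ : SL(2, ℤ)) :
    ((chi (γ * ModularGroup.T) : ℤ) : ZMod 3) = (chi γ + 1 : ℤ) := by
  have key : ∀ a b c d : ZMod 3, a * d - b * c = 1 →
      (a + (c + d)) * c - (a + b) * (c + d) * (c ^ 2 - 1) =
        (a + d) * c - b * d * (c ^ 2 - 1) + 1 := by decide
  have h := key _ _ _ _ (eta_det_three γ)
  simp only [chi, eta_mul_apply, ModularGroup.T, of_apply, cons_val', cons_val_zero, cons_val_one,
    cons_val_fin_one, mul_one, mul_zero, add_zero]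
  push_cast
  exact h

theorem eta_chi_S (γ : SL(2, ℤ)) :
    ((chi (γ * ModularGroup.S) : ℤ) : ZMod 3) = (chi γ : ℤ) := by
  have key : ∀ a b c d : ZMod 3, a * d - b * c = 1 →
      (b + -c) * d - -(-a * c) * (d ^ 2 - 1) = (a + d) * c - b * d * (c ^ 2 - 1) := by decide
  have h := key _ _ _ _ (eta_det_three γ)
  simp only [chi, eta_mul_apply, ModularGroup.S, of_apply, cons_val', cons_val_zero, cons_val_one,
    cons_val_fin_one, mul_one, mul_zero, add_zero, zero_add, mul_neg]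
  push_cast
  exact h

theorem eta_step {x : SL(2, ℤ)} {k : ℤ}
    (hx : Dm 1 ∣[(4 : ℤ)] x = cexp (2 * π * I / 3) ^ k • Dm 1)
    (hc : ∀ γ : SL(2, ℤ), ((chi (γ * x) : ℤ) : ZMod 3) = (chi γ + k : ℤ)) (γ : SL(2, ℤ)) :
    Dm γ = cexp (2 * π * I / 3) ^ chi γ • Dm 1 ↔
      Dm (γ * x : SL(2, ℤ)) = cexp (2 * π * I / 3) ^ chi (γ * x) • Dm 1 := by
  have h1 : Dm (γ * x : SL(2, ℤ)) = Dm γ ∣[(4 : ℤ)] x :=
    (Dm_slash (by rw [γ.2]; exact one_pos) x).symm
  have h2 : cexp (2 * π * I / 3) ^ chi (γ * x) • Dm 1 =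
      (cexp (2 * π * I / 3) ^ chi γ • Dm 1) ∣[(4 : ℤ)] x := by
    rw [SL_smul_slash, hx, smul_smul, ← zpow_add₀ (exp_ne_zero _), eta_om_congr (hc γ)]
  rw [h1, h2]
  refine ⟨fun h => by rw [h], fun h => ?_⟩
  have h3 := congrArg (fun f : ℍ → ℂ => f ∣[(4 : ℤ)] x⁻¹) h
  simpa only [← SlashAction.slash_mul, mul_inv_cancel, SlashAction.slash_one] using h3

/-- The multiplier system of `η ^ 8`. -/
theorem Dm_SL (γ : SL(2, ℤ)) : Dm γ = cexp (2 * π * I / 3) ^ chi γ • Dm 1 := by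
  have key : ∀ x ∈ Subgroup.closure {ModularGroup.S, ModularGroup.T}, ∀ γ : SL(2, ℤ),
      Dm γ = cexp (2 * π * I / 3) ^ chi γ • Dm 1 ↔
        Dm (γ * x : SL(2, ℤ)) = cexp (2 * π * I / 3) ^ chi (γ * x) • Dm 1 := by
    intro x hx
    induction hx using Subgroup.closure_induction with
    | mem x hx =>
      rcases hx with rfl | rfl
      · exact eta_step (k := 0) (by rw [eta_S, zpow_zero, one_smul])
          fun γ => by rw [eta_chi_S, add_zero]
      · exact eta_step (k := 1) (by rw [eta_T, zpow_one]) eta_chi_T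
    | one => intro γ; rw [mul_one]
    | mul x y _ _ hx hy => intro γ; rw [hx γ, hy (γ * x), mul_assoc]
    | inv x _ hx => intro γ; rw [hx (γ * x⁻¹), inv_mul_cancel_right]
  have h := (key γ (by rw [SpecialLinearGroup.SL2Z_generators]; trivial) 1).mp
    (by rw [chi_one, zpow_zero, one_smul]; rfl)
  rwa [one_mul] at h

/-- Left multiplication by an element of `SL(2, ℤ)`. -/
theorem Dm_left {g : Matrix (Fin 2) (Fin 2) ℤ} (hg : 0 < g.det) (γ : SL(2, ℤ)) :
    Dm (γ * g) = cexp (2 * π * I / 3) ^ chi γ • Dm g := by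
  funext τ
  obtain ⟨w, hw⟩ := eta_exists_pt hg τ
  have h1 := eta_cocycle (g := 1) (by rw [det_one]; exact one_ne_zero) hg.ne' hw
  rw [one_mul] at h1
  rw [eta_cocycle (by rw [γ.2]; exact one_ne_zero) hg.ne' hw, Pi.smul_apply, h1, Dm_SL γ,
    Pi.smul_apply, smul_eq_mul, smul_eq_mul]
  ring

/-- Invariance under the principal congruence subgroup. -/
theorem Dm_inv {g : Matrix (Fin 2) (Fin 2) ℤ} (hg : 0 < g.det) {N : ℕ}
    (hN : 3 * g.det ∣ (N : ℤ)) {γ : SL(2, ℤ)} (hγ : γ ∈ CongruenceSubgroup.Gamma N) :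
    Dm (g * γ) = Dm g := by
  obtain ⟨k, hk⟩ := hN
  obtain ⟨h00, h01, h10, h11⟩ := CongruenceSubgroup.Gamma_mem.mp hγ
  obtain ⟨a, ha⟩ := (ZMod.intCast_zmod_eq_zero_iff_dvd (γ 0 0 - 1) N).mp
    (by rw [Int.cast_sub, h00, Int.cast_one, sub_self])
  obtain ⟨b, hb⟩ := (ZMod.intCast_zmod_eq_zero_iff_dvd _ N).mp h01
  obtain ⟨c, hc⟩ := (ZMod.intCast_zmod_eq_zero_iff_dvd _ N).mp h10
  obtain ⟨d, hd⟩ := (ZMod.intCast_zmod_eq_zero_iff_dvd (γ 1 1 - 1) N).mp
    (by rw [Int.cast_sub, h11, Int.cast_one, sub_self])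
  have hZ : γ.1 = 1 + (N : ℤ) • !![a, b; c, d] := by
    ext i j
    fin_cases i <;> fin_cases j <;> simp [← ha, ← hb, ← hc, ← hd]
  obtain ⟨W, hW⟩ : ∃ W, W = g * !![a, b; c, d] * adjugate g := ⟨_, rfl⟩
  have e : (1 + (3 * k) • W) * g = g * γ := by
    rw [hZ, hW, add_mul, one_mul, mul_add, mul_one, Matrix.smul_mul, mul_assoc, adjugate_mul,
      Matrix.mul_smul, Matrix.mul_smul, mul_one, smul_smul, hk]
    congr 2
    ring
  have hdet : (1 + (3 * k) • W).det = 1 := by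
    have h := congrArg det e
    rw [det_mul, det_mul, γ.2, mul_one] at h
    exact mul_right_cancel₀ hg.ne' (h.trans (one_mul _).symm)
  have h := Dm_left hg ⟨_, hdet⟩
  rw [← e]
  refine h.trans ?_
  rw [eta_om_congr (n := 0), zpow_zero, one_smul]
  have h3 : (3 : ZMod 3) = 0 := rfl
  have h4 : ∀ i j, (((1 + (3 * k) • W) i j : ℤ) : ZMod 3) = ((1 : Matrix _ _ ℤ) i j : ℤ) := by
    intro i j
    rw [Matrix.add_apply, Matrix.smul_apply, smul_eq_mul]
    push_cast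
    rw [h3, zero_mul, zero_mul, add_zero]
  simp only [chi]
  push_cast
  rw [h4, h4, h4, h4]
  simp

/-- The expansion of `Dm` for a triangular matrix. -/
theorem exp_Dm {N a d e : ℕ} (b : ℤ) (hN : N ≠ 0) (ha : a ≠ 0) (hde : N = 3 * d * e) :
    Exp N (Dm !![(a : ℤ), b; 0, (d : ℤ)])
      (C ((a : ℂ) ^ 4) * ex (a * e) (rescale (cexp (2 * π * I / N) ^ (b * e : ℤ)) (dS ℂ))) := by
  have hd : d ≠ 0 := by
    rintro rfl
    exact hN (by rw [hde, mul_zero, zero_mul])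
  have hdet : 0 < (!![(a : ℤ), b; 0, (d : ℤ)] : Matrix (Fin 2) (Fin 2) ℤ).det := by
    rw [det_fin_two_of, mul_zero, sub_zero]
    positivity
  choose w hw using eta_exists_pt hdet
  have hw' : ∀ τ : ℍ, (w τ : ℂ) = (a * τ + b) / d := fun τ => by simpa using hw τ
  have h := (Exp.aff b hN ha hde exp_eta w hw').smul ((a : ℂ) ^ 4)
  have e : Dm !![(a : ℤ), b; 0, (d : ℤ)] =
      (a : ℂ) ^ 4 • fun τ => ModularForm.eta (w τ) ^ 8 := by
    funext τ
    have hd' : (d : ℂ) ≠ 0 := Nat.cast_ne_zero.mpr hd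
    rw [Dm, ← hw τ, Pi.smul_apply, smul_eq_mul, det_fin_two_of]
    simp only [of_apply, cons_val', cons_val_zero, cons_val_one, cons_val_fin_one, Int.cast_zero,
      zero_mul, zero_add, mul_zero, sub_zero, Int.cast_mul, Int.cast_natCast]
    field_simp
  rw [e]
  exact h

end Subb

end

section

/-!
Level one forms modulo a prime above `2`.
-/

namespace Subb

open PowerSeries UpperHalfPlane Matrix MatrixGroups ModularForm
open scoped ArithmeticFunction.sigma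

/-- The series `∑ σ_k (n) X ^ n`. -/
noncomputable def sS (R : Type*) [CommRing R] (k : ℕ) : R⟦X⟧ :=
  PowerSeries.mk fun n => ((σ k n : ℕ) : R)

theorem lvl_map_sS {R S : Type*} [CommRing R] [CommRing S] (p : R →+* S) (k : ℕ) :
    PowerSeries.map p (sS R k) = sS S k := by
  ext n
  simp [sS]

theorem lvl_const_sS (R : Type*) [CommRing R] (k : ℕ) : constantCoeff (sS R k) = 0 := by
  rw [← coeff_zero_eq_constantCoeff_apply, sS, coeff_mk]
  simp

theorem lvl_exp {k : ℤ} (f : ModularForm 𝒮ℒ k) : Exp 1 f (qExpansion 1 f) := by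
  intro τ
  rw [Nat.cast_one]
  exact ModularForm.hasSum_qExpansion f one_pos one_mem_strictPeriods_SL τ

theorem lvl_qexp {k : ℤ} (f : ModularForm 𝒮ℒ k) {φ : ℂ⟦X⟧} (h : Exp 1 f φ) :
    qExpansion 1 f = φ :=
  (lvl_exp f).unique one_ne_zero h

theorem lvl_E4 : qExpansion 1 E₄ = 1 + 240 * sS ℂ 3 := by
  ext n
  rw [EisensteinSeries.E_qExpansion_coeff _ ⟨2, rfl⟩, show bernoulli 4 = -1 / 30 by decide +kernel,
    show (240 : ℂ⟦X⟧) = C 240 from rfl, map_add, coeff_C_mul, coeff_one, sS, coeff_mk]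
  split_ifs with h
  · subst h
    simp
  · norm_num

theorem lvl_E6 : qExpansion 1 E₆ = 1 - 504 * sS ℂ 5 := by
  ext n
  rw [EisensteinSeries.E_qExpansion_coeff _ ⟨3, rfl⟩, show bernoulli 6 = 1 / 42 by decide +kernel,
    show (504 : ℂ⟦X⟧) = C 504 from rfl, map_sub, coeff_C_mul, coeff_one, sS, coeff_mk]
  split_ifs with h
  · subst h
    simp
  · norm_num

/-- The expansion of `E₄`. -/
theorem exp_E4 : Exp 1 E₄ (1 + 240 * sS ℂ 3) := lvl_E4 ▸ lvl_exp E₄

/-- The expansion of `E₆`. -/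
theorem exp_E6 : Exp 1 E₆ (1 - 504 * sS ℂ 5) := lvl_E6 ▸ lvl_exp E₆

theorem lvl_idC : 1728 * yS ℂ = (1 + 240 * sS ℂ 3) ^ 3 - (1 - 504 * sS ℂ 5) ^ 2 := by
  have h1 := exp_delta.smul 1728
  have h2 := (exp_E4.pow 3).add ((exp_E6.pow 2).smul (-1))
  have e : (1728 : ℂ) • ModularForm.discriminant =
      (E₄ : ℍ → ℂ) ^ 3 + (-1 : ℂ) • (E₆ : ℍ → ℂ) ^ 2 := by
    funext z
    simp only [Pi.smul_apply, Pi.add_apply, Pi.pow_apply, smul_eq_mul,
      discriminant_eq_E₄_cube_sub_E₆_sq]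
    ring
  rw [e] at h1
  have h3 := h1.unique one_ne_zero h2
  rw [show (C 1728 : ℂ⟦X⟧) = 1728 from rfl, map_neg, map_one] at h3
  linear_combination h3

theorem lvl_idZ : 1728 * yS ℤ = (1 + 240 * sS ℤ 3) ^ 3 - (1 - 504 * sS ℤ 5) ^ 2 := by
  apply PowerSeries.map_injective (Int.castRingHom ℂ) (RingHom.injective_int _)
  simp only [map_mul, map_sub, map_add, map_pow, map_one, map_ofNat, map_yS, lvl_map_sS]
  exact lvl_idC

theorem lvl_dvd (m : ℤ) (φ : ℤ⟦X⟧) (h : ∀ n, m ∣ coeff n φ) : ∃ t : ℤ⟦X⟧, φ = C m * t := by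
  choose t ht using h
  refine ⟨PowerSeries.mk t, ?_⟩
  ext n
  rw [coeff_C_mul, coeff_mk, ht]

theorem lvl_coeff_sS (k n : ℕ) : coeff n (sS ℤ k) = ∑ d ∈ n.divisors, (d : ℤ) ^ k := by
  rw [sS, coeff_mk, ArithmeticFunction.sigma_apply]
  push_cast
  rfl

theorem lvl_t : ∃ t : ℤ⟦X⟧, 5 * sS ℤ 3 + 7 * sS ℤ 5 - 4 * sS ℤ 1 = C 8 * t := by
  refine lvl_dvd 8 _ fun n => ?_
  rw [show (5 : ℤ⟦X⟧) = C 5 from rfl, show (7 : ℤ⟦X⟧) = C 7 from rfl,
    show (4 : ℤ⟦X⟧) = C 4 from rfl, map_sub, map_add, coeff_C_mul, coeff_C_mul, coeff_C_mul,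
    lvl_coeff_sS, lvl_coeff_sS, lvl_coeff_sS, Finset.mul_sum, Finset.mul_sum, Finset.mul_sum,
    ← Finset.sum_add_distrib, ← Finset.sum_sub_distrib]
  refine Finset.dvd_sum fun d _ => ?_
  have : ∀ x : ZMod 8, 5 * x ^ 3 + 7 * x ^ 5 - 4 * x ^ 1 = 0 := by decide
  refine (ZMod.intCast_zmod_eq_zero_iff_dvd _ 8).mp ?_
  push_cast
  exact this _

theorem lvl_u : ∃ u : ℤ⟦X⟧, sS ℤ 5 - sS ℤ 1 = C 2 * u := by
  refine lvl_dvd 2 _ fun n => ?_
  rw [map_sub, lvl_coeff_sS, lvl_coeff_sS, ← Finset.sum_sub_distrib]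
  refine Finset.dvd_sum fun d _ => ?_
  have : ∀ x : ZMod 2, x ^ 5 - x ^ 1 = 0 := by decide
  refine (ZMod.intCast_zmod_eq_zero_iff_dvd _ 2).mp ?_
  push_cast
  exact this _

theorem lvl_two (F : Type*) [CommRing F] [CharP F 2] : (2 : F⟦X⟧) = 0 := by
  rw [show (2 : F⟦X⟧) = C 2 from rfl, CharTwo.two_eq_zero, map_zero]

/-- The divisor sum series `h` satisfies `h ^ 2 + h = Δ` modulo `2`. -/
theorem sq_hS (F : Type*) [CommRing F] [CharP F 2] : hS F ^ 2 + hS F = yS F := by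
  obtain ⟨t, ht⟩ := lvl_t
  obtain ⟨u, hu⟩ := lvl_u
  rw [show (C 8 : ℤ⟦X⟧) = 8 from rfl] at ht
  rw [show (C 2 : ℤ⟦X⟧) = 2 from rfl] at hu
  have h576 : (576 : ℤ⟦X⟧) ≠ 0 := by
    rw [show (576 : ℤ⟦X⟧) = C 576 from rfl]
    intro h
    have := congrArg constantCoeff h
    rw [constantCoeff_C, map_zero] at this
    omega
  have e : 3 * yS ℤ = sS ℤ 1 + 2 * t + 300 * sS ℤ 3 ^ 2 + 24000 * sS ℤ 3 ^ 3 -
      441 * (sS ℤ 1 + 2 * u) ^ 2 := by
    rw [← hu]
    apply mul_left_cancel₀ h576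
    linear_combination lvl_idZ + 144 * ht
  have e' := congrArg (PowerSeries.map (Int.castRingHom F)) e
  simp only [map_mul, map_sub, map_add, map_pow, map_ofNat, map_yS, lvl_map_sS] at e'
  have h2 := lvl_two F
  rw [show hS F = sS F 1 from rfl]
  generalize PowerSeries.map (Int.castRingHom F) t = t' at e'
  generalize PowerSeries.map (Int.castRingHom F) u = u' at e'
  linear_combination (-1) * e' + (yS F - t' - 150 * sS F 3 ^ 2 - 12000 * sS F 3 ^ 3 +
    221 * sS F 1 ^ 2 + 882 * sS F 1 * u' + 882 * u' ^ 2) * h2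

theorem lvl_yS_ne : yS ℂ ≠ 0 := by
  refine mul_ne_zero X_ne_zero (pow_ne_zero _ fun h => ?_)
  have := constantCoeff_fS (R := ℂ)
  rw [h, map_zero] at this
  exact zero_ne_one this

theorem lvl_delta : qExpansion 1 ModularForm.discriminant = yS ℂ :=
  lvl_qexp (CuspForm.toModularFormₗ CuspForm.discriminant) exp_delta

theorem lvl_aux {O F : Type*} [CommRing O] [Field F] [CharP F 2] (ι : O →+* ℂ)
    (hι : Function.Injective ι) (π : O →+* F) (n : ℕ) : ∀ k : ℤ, k < n → 4 ∣ k →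
      ∀ (f : ModularForm 𝒮ℒ k) (φ : O⟦X⟧), qExpansion 1 f = PowerSeries.map ι φ →
        ∃ a : Polynomial F, PowerSeries.map π φ = Polynomial.aeval (yS F) a := by
  have neg : ∀ k : ℤ, k < 0 → ∀ (f : ModularForm 𝒮ℒ k) (φ : O⟦X⟧),
      qExpansion 1 f = PowerSeries.map ι φ →
        ∃ a : Polynomial F, PowerSeries.map π φ = Polynomial.aeval (yS F) a := by
    intro k hk f φ h
    rw [ModularFormClass.levelOne_neg_weight_eq_zero hk f, qExpansion_zero,
      ← map_zero (PowerSeries.map ι)] at h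
    exact ⟨0, by rw [← PowerSeries.map_injective ι hι h, map_zero, map_zero]⟩
  induction n with
  | zero => exact fun k hk _ => neg k hk
  | succ n ih =>
    intro k hk h4 f φ h
    rcases lt_or_ge k 0 with h0 | h0
    · exact neg k h0 f φ h
    obtain ⟨j, rfl⟩ := h4
    obtain ⟨i, rfl⟩ := Int.eq_ofNat_of_zero_le (show 0 ≤ j by omega)
    set c := constantCoeff φ with hc
    let e : ModularForm 𝒮ℒ (4 * (i : ℤ)) := ModularForm.mcast (by ring) (E₄.pow i)
    have he : qExpansion 1 e = (1 + 240 * sS ℂ 3) ^ i := by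
      rw [← lvl_E4, ← ModularForm.qExpansion_pow one_pos one_mem_strictPeriods_SL]
      rfl
    have hg : qExpansion 1 (f - ι c • e : ModularForm 𝒮ℒ (4 * (i : ℤ))) =
        PowerSeries.map ι (φ - C c * (1 + 240 * sS O 3) ^ i) := by
      rw [FunLike.coe_sub, ModularForm.qExpansion_sub one_pos one_mem_strictPeriods_SL,
        FunLike.coe_smul, ModularForm.qExpansion_smul one_pos one_mem_strictPeriods_SL, h, he]
      simp only [map_mul, map_sub, map_add, map_pow, map_one, map_ofNat, lvl_map_sS, map_C,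
        smul_eq_C_mul]
    have hz : constantCoeff (φ - C c * (1 + 240 * sS O 3) ^ i) = 0 := by
      simp only [map_mul, map_sub, map_add, map_pow, map_one, lvl_const_sS, constantCoeff_C,
        mul_zero, add_zero, one_pow, mul_one, hc, sub_self]
    obtain ⟨ψ₀, hψ₀⟩ := X_dvd_iff.mpr hz
    obtain ⟨v, hv⟩ : ∃ v : O⟦X⟧, fS O ^ 24 * v = 1 :=
      (IsUnit.pow 24 (isUnit_iff_constantCoeff.mpr
        (by rw [constantCoeff_fS]; exact isUnit_one))).exists_right_inv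
    have hψ : φ - C c * (1 + 240 * sS O 3) ^ i = yS O * (v * ψ₀) := by
      rw [hψ₀, yS]
      linear_combination (-(X * ψ₀)) * hv
    have hcusp : (qExpansion 1 (f - ι c • e : ModularForm 𝒮ℒ (4 * (i : ℤ)))).coeff 0 = 0 := by
      rw [hg, coeff_map, coeff_zero_eq_constantCoeff_apply, hz, map_zero]
    have hm := qExpansion_eq_qExpansion_discriminant_mul _ hcusp
    rw [hg, hψ, map_mul, map_yS, lvl_delta] at hm
    obtain ⟨a, ha⟩ := ih (4 * (i : ℤ) - 12) (by push_cast at hk; omega) ⟨i - 3, by ring⟩ _ _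
      (mul_left_cancel₀ lvl_yS_ne hm).symm
    refine ⟨Polynomial.C (π c) + Polynomial.X * a, ?_⟩
    have h240 : (240 : F⟦X⟧) = 0 := by linear_combination 120 * lvl_two F
    rw [sub_eq_iff_eq_add.mp hψ, map_add, map_mul, map_yS, ha]
    simp only [map_mul, map_add, map_pow, map_one, map_ofNat, map_C, h240, zero_mul, add_zero,
      one_pow, mul_one, Polynomial.aeval_C, Polynomial.aeval_X, ← C_eq_algebraMap]
    ring

/-- Level one forms of weight `4 i` with expansion over `O` reduce to polynomials in `Δ`. -/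
theorem lvl_one {O F : Type*} [CommRing O] [Field F] [CharP F 2] (ι : O →+* ℂ)
    (hι : Function.Injective ι) (π : O →+* F) (i : ℕ) (f : ℍ → ℂ) (φ : O⟦X⟧)
    (hf : ∀ γ : SL(2, ℤ), f ∣[((4 * i : ℕ) : ℤ)] γ = f) (he : Exp 1 f (PowerSeries.map ι φ)) :
    ∃ a : Polynomial F, PowerSeries.map π φ = Polynomial.aeval (yS F) a := by
  let g : ModularForm 𝒮ℒ ((4 * i : ℕ) : ℤ) :=
    { toFun := f
      slash_action_eq' := fun _ ⟨γ, hγ⟩ => hγ ▸ hf γ
      holo' := he.mdiff one_ne_zero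
      bdd_at_cusps' := fun {c} hc => by
        rw [Subgroup.IsArithmetic.isCusp_iff_isCusp_SL2Z] at hc
        rw [OnePoint.isBoundedAt_iff_forall_SL2Z hc]
        intro γ _
        rw [hf γ]
        exact he.bdd one_ne_zero }
  exact lvl_aux ι hι π (4 * i + 1) _ (by push_cast; omega) ⟨i, by push_cast; ring⟩ g φ
    (lvl_qexp g he)

end Subb

end

section

/-!
The system of expansions of modular forms of level `N`.
-/

namespace Subb

open PowerSeries Complex Matrix MatrixGroups ModularForm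
open UpperHalfPlane hiding I
open scoped Real

variable {O F : Type} [CommRing O]

/-- Families of expansions of forms of weight `4 i` and level `N`. -/
def famSet (ι : O →+* ℂ) (N i : ℕ) : Set (SL(2, ℤ) → O⟦X⟧) :=
  {P | ∃ f : ℍ → ℂ, (∀ γ ∈ CongruenceSubgroup.Gamma N, f ∣[((4 * i : ℕ) : ℤ)] γ = f) ∧
    ∀ γ : SL(2, ℤ), Exp N (f ∣[((4 * i : ℕ) : ℤ)] γ) (PowerSeries.map ι (P γ))}

theorem sysc_root {ι : O →+* ℂ} (hι : Function.Injective ι) {N : ℕ} (hN : N ≠ 0) {ζ : Oˣ}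
    (hζ : ι ζ = cexp (2 * π * I / N)) : IsPrimitiveRoot ζ N := by
  have h := Complex.isPrimitiveRoot_exp N hN
  rw [← hζ] at h
  exact IsPrimitiveRoot.coe_units_iff.mp (h.of_map_of_injective hι)

theorem sysc_zpow {ι : O →+* ℂ} {ζ : Oˣ} (k : ℤ) : ι ((ζ ^ k : Oˣ) : O) = ι ζ ^ k := by
  have h := map_zpow (Units.map (ι : O →* ℂ)) ζ k
  have h2 := congrArg (Units.val : ℂˣ → ℂ) h
  rw [Units.val_zpow_eq_zpow_val] at h2
  exact h2

theorem sysc_T {N : ℕ} (hN : N ≠ 0) {f : ℍ → ℂ} {φ : ℂ⟦X⟧} (hf : Exp N f φ) (k : ℤ) :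
    Exp N (f ∣[k] ModularGroup.T) (rescale (cexp (2 * π * I / N)) φ) := by
  have h := hf.aff (a := 1) (d := 1) (e := 1) 1 hN one_ne_zero (by ring)
    (fun τ => ModularGroup.T • τ) (fun τ => by rw [modular_T_smul]; simp [add_comm])
  have e : f ∣[k] ModularGroup.T = fun τ => f (ModularGroup.T • τ) := by
    ext τ
    rw [SL_slash_apply]
    simp [denom, ModularGroup.T]
  rw [e]
  simpa [ex_one] using h

theorem sysc_fam {ι : O →+* ℂ} {N : ℕ} (hN : N ≠ 0) {ζ : Oˣ}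
    (hζ : ι ζ = cexp (2 * π * I / N)) {g : Matrix (Fin 2) (Fin 2) ℤ} (hg : 0 < g.det)
    (h3 : 3 ∣ N) (γ γ' : SL(2, ℤ)) (a d e : ℕ) (b : ℤ) (hde : N = 3 * d * e)
    (h : g * γ = γ' * !![(a : ℤ), b; 0, (d : ℤ)]) :
    Exp N (Dm g ∣[(4 : ℤ)] γ) (PowerSeries.map ι (C (om N ζ γ' : O) * Dser ζ a b e)) := by
  have hdet : 0 < (!![(a : ℤ), b; 0, (d : ℤ)]).det := by
    have := congrArg Matrix.det h
    rw [det_mul, det_mul, γ.det_coe, γ'.det_coe, mul_one, one_mul] at this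
    rwa [← this]
  have ha : a ≠ 0 := by
    rintro rfl
    simp at hdet
  rw [Dm_slash hg, h, Dm_left hdet, map_mul, map_C, Dser, map_mul, map_C, map_ex, map_rescale,
    map_dS, sysc_zpow, hζ, map_pow, map_natCast]
  have e1 : ι (om N ζ γ' : O) = cexp (2 * π * I / 3) ^ chi γ' := by
    obtain ⟨k, rfl⟩ := h3
    have hk : (k : ℂ) ≠ 0 := by exact_mod_cast right_ne_zero_of_mul hN
    rw [om, sysc_zpow, hζ, Nat.mul_div_cancel_left _ three_pos, _root_.zpow_mul, zpow_natCast,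
      ← Complex.exp_nat_mul]
    congr 2
    push_cast
    field_simp
  rw [e1]
  exact (exp_Dm b hN ha hde).smul _

theorem exists_sys [IsDomain O] [Field F] [CharP F 2] {ι : O →+* ℂ} (hι : Function.Injective ι)
    (π' : O →+* F) {N : ℕ} (hN : N ≠ 0) {ζ : Oˣ} (hζ : ι ζ = cexp (2 * π * I / N)) : Nonempty (Sys π' N ζ) := by
  have hinj : Function.Injective (PowerSeries.map ι) := PowerSeries.map_injective ι hι
  have htr : ∀ {i P}, P ∈ famSet ι N i → P ModularGroup.T = rescale (ζ : O) (P 1) := by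
    rintro i P ⟨f, -, hf⟩
    apply hinj
    have h1 := hf 1
    rw [SlashAction.slash_one] at h1
    rw [map_rescale, hζ]
    exact (hf _).unique hN (sysc_T hN h1 _)
  refine ⟨⟨famSet ι N, fun i => ⟨0, fun γ _ => by simp, fun γ => by simpa using Exp.zero⟩,
    ⟨1, fun γ _ => by simpa using is_invariant_one γ, fun γ => ?_⟩, ?_, ?_, ?_, ?_, ?_, ?_, htr,
    ?_, ?_⟩⟩
  · have e : (1 : ℍ → ℂ) ∣[((4 * 0 : ℕ) : ℤ)] γ = 1 := by simpa using is_invariant_one γ
    rw [e, map_one, ← map_one C]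
    exact Exp.const 1
  · rintro i P Q ⟨f, hf, hf'⟩ ⟨g, hg, hg'⟩
    refine ⟨f + g, fun γ hγ => by rw [SlashAction.add_slash, hf γ hγ, hg γ hγ], fun γ => ?_⟩
    rw [SlashAction.add_slash, map_add]
    exact (hf' γ).add (hg' γ)
  · rintro i P x ⟨f, hf, hf'⟩
    refine ⟨ι x • f, fun γ hγ => by rw [SL_smul_slash, hf γ hγ], fun γ => ?_⟩
    rw [SL_smul_slash, map_mul, map_C]
    exact (hf' γ).smul _
  · rintro i j P Q ⟨f, hf, hf'⟩ ⟨g, hg, hg'⟩
    have e : ((4 * (i + j) : ℕ) : ℤ) = ((4 * i : ℕ) : ℤ) + ((4 * j : ℕ) : ℤ) := by push_cast; ring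
    refine ⟨f * g, fun γ hγ => by rw [e, mul_slash_SL2, hf γ hγ, hg γ hγ], fun γ => ?_⟩
    rw [e, mul_slash_SL2, map_mul]
    exact (hf' γ).mul (hg' γ)
  · rintro i P h ⟨f, hf, hf'⟩
    refine ⟨f ∣[((4 * i : ℕ) : ℤ)] h, fun γ hγ => ?_, fun γ => ?_⟩
    · have hc := (CongruenceSubgroup.Gamma_normal N).conj_mem γ hγ h
      rw [← SlashAction.slash_mul, show h * γ = (h * γ * h⁻¹) * h by group,
        SlashAction.slash_mul, hf _ hc]
    · rw [← SlashAction.slash_mul]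
      exact hf' _
  · rintro i P x hx ⟨f, hf, hf'⟩
    have hx' : ι x ≠ 0 := fun h => hx (hι (by rw [h, map_zero]))
    refine ⟨(ι x)⁻¹ • f, fun γ hγ => by rw [SL_smul_slash, hf γ hγ], fun γ => ?_⟩
    have h := (hf' γ).smul (ι x)⁻¹
    rw [map_mul, map_C, ← mul_assoc, ← map_mul, inv_mul_cancel₀ hx', map_one, one_mul] at h
    rwa [SL_smul_slash]
  · rintro i P ⟨f, hf, hf'⟩ γ hγ g
    apply hinj
    have h := hf' (γ * g)
    rw [SlashAction.slash_mul, hf γ hγ] at h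
    exact h.unique hN (hf' g)
  · intro i P hP hc
    have hT := htr hP
    obtain ⟨f, -, hf'⟩ := hP
    have h1 := hf' 1
    rw [SlashAction.slash_one] at h1
    have hfγ : ∀ γ : SL(2, ℤ), f ∣[((4 * i : ℕ) : ℤ)] γ = f := fun γ => by
      have h := hf' γ
      rw [hc γ] at h
      exact h.fun_eq h1
    have hprim := IsPrimitiveRoot.coe_units_iff.mpr (sysc_root hι hN hζ)
    have hex : P 1 = ex N (PowerSeries.mk fun n => coeff (N * n) (P 1)) := by
      ext n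
      rw [coeff_ex hN]
      split_ifs with hd
      · rw [coeff_mk, Nat.mul_div_cancel' hd]
      · have h := congrArg (coeff n) hT
        rw [hc, coeff_rescale] at h
        have h2 : ((ζ : O) ^ n - 1) * coeff n (P 1) = 0 := by linear_combination -h
        refine (mul_eq_zero.mp h2).resolve_left fun h3 => hd ?_
        exact (hprim.pow_eq_one_iff_dvd n).mp (sub_eq_zero.mp h3)
    rw [hex, map_ex] at h1
    have h2 := (exp_ex_iff (n := 1) one_ne_zero hN).mp (by rwa [one_mul])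
    obtain ⟨a, ha⟩ := lvl_one ι hι π' i f _ hfγ h2
    exact ⟨a, by rw [hex, map_ex, ha, ex_aeval]⟩
  · intro g hg h3
    have h3' : 3 ∣ N := by exact_mod_cast (Dvd.intro _ rfl : (3 : ℤ) ∣ 3 * g.det).trans h3
    have hex : ∀ γ : SL(2, ℤ), ∃ φ : O⟦X⟧,
        Exp N (Dm g ∣[(4 : ℤ)] γ) (PowerSeries.map ι φ) := fun γ => by
      have hd : (g * γ : Matrix (Fin 2) (Fin 2) ℤ).det = g.det := by
        rw [det_mul, γ.det_coe, mul_one]
      obtain ⟨γ', a, d, b, h1, -, h2⟩ := hnf (g * γ) (hd ▸ hg)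
      rw [hd] at h2
      rw [← h2] at h3
      have h4 : 3 * d ∣ N := by
        have : ((3 * d : ℕ) : ℤ) ∣ N :=
          (Dvd.intro a (by push_cast; ring) : ((3 * d : ℕ) : ℤ) ∣ 3 * (a * d)).trans h3
        exact_mod_cast this
      obtain ⟨e, he⟩ := h4
      exact ⟨_, sysc_fam hN hζ hg h3' γ γ' a d e b he h1⟩
    choose P hP using hex
    refine ⟨P, ⟨Dm g, fun γ hγ => ?_, hP⟩, fun γ γ' a d e b he h => ?_⟩
    · exact (Dm_slash hg γ).trans (Dm_inv hg h3 hγ)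
    · exact hinj ((hP γ).unique hN (sysc_fam hN hζ hg h3' γ γ' a d e b he h))

end Subb

end

end
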